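import Pool.Agent.HLV.Cw

/-!
# HLV-Buf: the buffer word

`buf m = 0 0 0 1^(m+4)` cannot be overlapped by a factor `# u #`.

Facts on `x = hash m ++ enc m u ++ hash m = ext (chi m) (none :: u.map some ++ [none])`:
* `chi_no_zzz`: a coded word has no factor `0 0 0`: induction on the word; `cw m M a` starts with
  `0 0 1`, ends with `1` (`M = m + 3`, `a < M`), contains no `0 0 0`.
* `chi_no_ones`: a coded word has no factor `1^(m+4)` (`M + 1` ones): in
  `cw m M a = 0 0 1^(a+1) 0 1^(M-a)` the two runs of ones have length `a + 1 ≤ M` and `M - a ≤ M`, and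
  after the second one comes a `0` or the end.  (For example: prove by induction on the word the
  stronger statement: no factor `1^(M+1)`, and the word is empty or starts with `0`.)
* it starts with `0 0 1`, ends with `1`, and has length `≥ 2 (m + 7) > 2 + (m + 4)`.

`buf_infix`: let `p ++ buf m ++ q = s ++ x ++ t`.
* `|s| ≤ |p|` and `|s| + |x| ≤ |p|`: infix of `p`.
* `|s| ≤ |p|` and `|s| + |x| = |p| + 1` or `|p| + 2`: `x` ends with `0`: contradiction.
* `|s| ≤ |p|` and `|s| + |x| ≥ |p| + 3`: `x` has the factor `0 0 0`: contradiction.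
* `|s| = |p| + 1`: the word `x` is longer than `0 0 1^(m+4)`, so it contains `1^(m+4)`.
* `|s| = |p| + 2`: `x` starts with `0 1`: contradiction.
* `|p| + 3 ≤ |s| < |p| + m + 7`: `x` starts with `1`: contradiction.
* `|s| ≥ |p| + m + 7 = |p ++ buf m|`: infix of `q`.
-/

namespace Pool.Agent.HLV

open Pool.Agent.DD

/-- The buffer. -/
def buf (m : ℕ) : List (Fin (m + 2)) := [0, 0, 0] ++ List.replicate (m + 4) 1

/-- No `K` consecutive letters `c` (`z` of them have been read already). -/
private def run {X : Type} [DecidableEq X] (c : X) (K : ℕ) : ℕ → List X → Bool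
  | _, [] => true
  | z, a :: t => if a = c then (decide (z + 1 < K) && run c K (z + 1) t) else run c K 0 t

private theorem run_eq {X : Type} [DecidableEq X] (c : X) (K z : ℕ) (t : List X) :
    run c K z (c :: t) = (decide (z + 1 < K) && run c K (z + 1) t) := by
  simp [run]

private theorem run_ne {X : Type} [DecidableEq X] {c d : X} (h : d ≠ c) (K z : ℕ) (t : List X) :
    run c K z (d :: t) = run c K 0 t := by
  simp [run, h]

private theorem run_rep_false {X : Type} [DecidableEq X] (c : X) (K : ℕ) (t : List X) (n : ℕ) :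
    ∀ z : ℕ, K ≤ z + (n + 1) → run c K z (List.replicate (n + 1) c ++ t) = false := by
  induction n with
  | zero =>
    intro z hz
    rw [List.replicate_succ, List.cons_append, run_eq]
    have : ¬ z + 1 < K := by omega
    simp [this]
  | succ n ih =>
    intro z hz
    rw [List.replicate_succ, List.cons_append, run_eq, ih (z + 1) (by omega), Bool.and_false]

private theorem run_infix {X : Type} [DecidableEq X] {c : X} {K : ℕ} {l : List X}
    (h : List.replicate (K + 1) c <:+: l) (z : ℕ) : run c (K + 1) z l = false := by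
  obtain ⟨s, t, rfl⟩ := h
  rw [List.append_assoc]
  induction s generalizing z with
  | nil => exact run_rep_false c (K + 1) t K z (by omega)
  | cons a s ih =>
    rw [List.cons_append]
    by_cases ha : a = c
    · subst ha
      rw [run_eq, ih, Bool.and_false]
    · rw [run_ne ha, ih]

private theorem run_rep_ne {X : Type} [DecidableEq X] {c d : X} (h : d ≠ c) (K : ℕ) (n : ℕ)
    (t : List X) (z : ℕ) : run c K z (List.replicate (n + 1) d ++ t) = run c K 0 t := by
  induction n generalizing z with
  | zero =>
    rw [List.replicate_succ, List.cons_append, run_ne h]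
    rfl
  | succ n ih => rw [List.replicate_succ, List.cons_append, run_ne h, ih]

private theorem run_rep_eq {X : Type} [DecidableEq X] (c : X) (K : ℕ) (n : ℕ) (t : List X)
    (z : ℕ) (h : z + n < K) : run c K z (List.replicate n c ++ t) = run c K (z + n) t := by
  induction n generalizing z with
  | zero => rfl
  | succ n ih =>
    rw [List.replicate_succ, List.cons_append, run_eq, ih (z + 1) (by omega)]
    have h1 : z + 1 < K := by omega
    rw [show z + 1 + n = z + (n + 1) by omega]
    simp [h1]

private theorem zero_ne_one' (m : ℕ) : (0 : Fin (m + 2)) ≠ 1 := by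
  intro h
  have := congrArg Fin.val h
  simp at this

private theorem chi_form (m : ℕ) (o : Option (Fin (m + 2))) :
    ∃ a, a < m + 3 ∧ chi m o = cw m (m + 3) a := by
  cases o with
  | none => exact ⟨m + 2, by omega, rfl⟩
  | some a => exact ⟨a.val, by have := a.2; omega, rfl⟩

private theorem cw_form (m M a : ℕ) (t : List (Fin (m + 2))) :
    cw m M a ++ t = 0 :: 0 :: (List.replicate (a + 1) 1 ++ (0 :: (List.replicate (M - a) 1 ++ t))) := by
  simp [cw]

private theorem run0_cw (m a : ℕ) (ha : a < m + 3) (t : List (Fin (m + 2))) :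
    run (0 : Fin (m + 2)) 3 0 (cw m (m + 3) a ++ t) = run 0 3 0 t := by
  obtain ⟨b, hb⟩ : ∃ b, m + 3 - a = b + 1 := ⟨m + 3 - a - 1, by omega⟩
  rw [cw_form, hb, run_eq, run_eq, run_rep_ne (zero_ne_one' m).symm, run_eq,
    run_rep_ne (zero_ne_one' m).symm]
  rfl

private theorem run1_cw (m a : ℕ) (ha : a < m + 3) (t : List (Fin (m + 2))) (z : ℕ) :
    run (1 : Fin (m + 2)) (m + 4) z (cw m (m + 3) a ++ t) = run 1 (m + 4) (m + 3 - a) t := by
  rw [cw_form, run_ne (zero_ne_one' m), run_ne (zero_ne_one' m),
    run_rep_eq _ _ _ _ _ (by omega), run_ne (zero_ne_one' m),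
    run_rep_eq _ _ _ _ _ (by omega), Nat.zero_add]

theorem chi_no_zzz (m : ℕ) (w : List (Option (Fin (m + 2)))) :
    ¬ [0, 0, 0] <:+: ext (chi m) w := by
  intro h
  have h1 : run (0 : Fin (m + 2)) 3 0 (ext (chi m) w) = false :=
    run_infix (K := 2) (c := (0 : Fin (m + 2))) h 0
  have h2 : ∀ w : List (Option (Fin (m + 2))),
      run (0 : Fin (m + 2)) 3 0 (ext (chi m) w) = true := by
    intro w
    induction w with
    | nil => rfl
    | cons o w ih =>
      obtain ⟨a, ha, e⟩ := chi_form m o
      rw [ext_cons, e, run0_cw m a ha, ih]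
  rw [h2 w] at h1
  exact absurd h1 (by simp)

theorem chi_no_ones (m : ℕ) (w : List (Option (Fin (m + 2)))) :
    ¬ List.replicate (m + 4) 1 <:+: ext (chi m) w := by
  intro h
  have h1 : run (1 : Fin (m + 2)) (m + 4) 0 (ext (chi m) w) = false :=
    run_infix (K := m + 3) (c := (1 : Fin (m + 2))) h 0
  have h2 : ∀ (w : List (Option (Fin (m + 2)))) (z : ℕ),
      run (1 : Fin (m + 2)) (m + 4) z (ext (chi m) w) = true := by
    intro w
    induction w with
    | nil => intro z; rfl
    | cons o w ih =>
      intro z
      obtain ⟨a, ha, e⟩ := chi_form m o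
      rw [ext_cons, e, run1_cw m a ha, ih]
  rw [h2 w 0] at h1
  exact absurd h1 (by simp)

private theorem last_ne {X : Type} {x r p : List X} {a b : X} (h : a ≠ b) (e1 : x = r ++ [a])
    (e2 : x = p ++ [b]) : False := by
  rw [e1] at e2
  have := (List.append_inj' e2 rfl).2
  simp only [List.cons.injEq, and_true] at this
  exact h this

theorem buf_infix_gen {m : ℕ} {x p q : List (Fin (m + 2))} (h0 : ¬ [0, 0, 0] <:+: x)
    (h1 : ¬ List.replicate (m + 4) 1 <:+: x) (h2 : [0, 0, 1] <+: x) (h3 : [1] <:+ x)
    (h4 : m + 7 ≤ x.length) (h : x <:+: p ++ buf m ++ q) : x <:+: p ∨ x <:+: q := by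
  obtain ⟨s, t, e⟩ := h
  have h01 := zero_ne_one' m
  have hbl : (buf m).length = m + 7 := by
    simp [buf]
  by_cases c1 : s.length + x.length ≤ p.length
  · left
    have e1 : s ++ x <+: p ++ buf m ++ q := ⟨t, e⟩
    have e2 : p <+: p ++ buf m ++ q := ⟨buf m ++ q, by rw [List.append_assoc]⟩
    have e3 : s ++ x <+: p :=
      List.prefix_of_prefix_length_le e1 e2 (by rw [List.length_append]; exact c1)
    exact (List.suffix_append s x).isInfix.trans e3.isInfix
  by_cases c2 : s.length ≤ p.length
  · exfalso
    -- `p = s ++ p'`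
    have e1 : s <+: p ++ buf m ++ q := ⟨x ++ t, by rw [← List.append_assoc]; exact e⟩
    have e2 : p <+: p ++ buf m ++ q := ⟨buf m ++ q, by rw [List.append_assoc]⟩
    obtain ⟨p', rfl⟩ := List.prefix_of_prefix_length_le e1 e2 c2
    have e3 : x ++ t = p' ++ (buf m ++ q) := by
      have e' : s ++ (x ++ t) = s ++ (p' ++ (buf m ++ q)) := by
        simpa only [List.append_assoc] using e
      exact List.append_cancel_left e'
    have hl : (s ++ p').length = s.length + p'.length := List.length_append
    have hx : x <+: p' ++ (buf m ++ q) := ⟨t, e3⟩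
    obtain ⟨r, hr⟩ := h3
    by_cases c3 : p'.length + 3 ≤ x.length
    · apply h0
      have e4 : p' ++ [0, 0, 0] <+: p' ++ (buf m ++ q) :=
        ⟨List.replicate (m + 4) 1 ++ q, by simp [buf]⟩
      have e5 : p' ++ [0, 0, 0] <+: x :=
        List.prefix_of_prefix_length_le e4 hx (by simpa using c3)
      exact (List.suffix_append p' [0, 0, 0]).isInfix.trans e5.isInfix
    · by_cases c4 : x.length = p'.length + 2
      · have e4 : p' ++ [0, 0] <+: p' ++ (buf m ++ q) :=
          ⟨[0] ++ List.replicate (m + 4) 1 ++ q, by simp [buf]⟩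
        have e5 : p' ++ [0, 0] <+: x :=
          List.prefix_of_prefix_length_le e4 hx (by simp [c4])
        have e6 : p' ++ [0, 0] = x := e5.eq_of_length (by simp [c4])
        exact last_ne h01.symm hr.symm (p := p' ++ [0]) (b := 0) (by rw [← e6]; simp)
      · have c5 : x.length = p'.length + 1 := by omega
        have e4 : p' ++ [0] <+: p' ++ (buf m ++ q) :=
          ⟨[0, 0] ++ List.replicate (m + 4) 1 ++ q, by simp [buf]⟩
        have e5 : p' ++ [0] <+: x :=
          List.prefix_of_prefix_length_le e4 hx (by simp [c5])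
        have e6 : p' ++ [0] = x := e5.eq_of_length (by simp [c5])
        exact last_ne h01.symm hr.symm (p := p') (b := 0) e6.symm
  by_cases c3 : p.length + (m + 7) ≤ s.length
  · right
    have e1 : x ++ t <:+ p ++ buf m ++ q := ⟨s, by rw [← List.append_assoc]; exact e⟩
    have e2 : q <:+ p ++ buf m ++ q := List.suffix_append _ _
    have hlen := congrArg List.length e
    simp only [List.length_append, hbl] at hlen
    have e3 : x ++ t <:+ q :=
      List.suffix_of_suffix_length_le e1 e2 (by rw [List.length_append]; omega)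
    exact (List.prefix_append x t).isInfix.trans e3.isInfix
  · exfalso
    -- `s = p ++ s'`
    have e1 : s <+: p ++ buf m ++ q := ⟨x ++ t, by rw [← List.append_assoc]; exact e⟩
    have e2 : p <+: p ++ buf m ++ q := ⟨buf m ++ q, by rw [List.append_assoc]⟩
    obtain ⟨s', rfl⟩ := List.prefix_of_prefix_length_le e2 e1 (by omega)
    have e3 : s' ++ (x ++ t) = buf m ++ q := by
      have e' : p ++ (s' ++ (x ++ t)) = p ++ (buf m ++ q) := by
        simpa only [List.append_assoc] using e
      exact List.append_cancel_left e'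
    have hl : (p ++ s').length = p.length + s'.length := List.length_append
    have hbq : buf m ++ q = 0 :: 0 :: 0 :: (List.replicate (m + 4) 1 ++ q) := by
      simp [buf]
    rw [hbq] at e3
    match s', e3, hl with
    | [], _, hl =>
      simp only [List.length_nil] at hl
      omega
    | [a], e3, _ =>
      simp only [List.cons_append, List.nil_append, List.cons.injEq] at e3
      have hx : x <+: 0 :: 0 :: (List.replicate (m + 4) 1 ++ q) := ⟨t, e3.2⟩
      have e4 : [0, 0] ++ List.replicate (m + 4) 1 <+:
          0 :: 0 :: (List.replicate (m + 4) (1 : Fin (m + 2)) ++ q) := ⟨q, by simp⟩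
      have e5 := List.prefix_of_prefix_length_le e4 hx (by simp; omega)
      exact h1 ((List.suffix_append [0, 0] (List.replicate (m + 4) 1)).isInfix.trans e5.isInfix)
    | [a, b], e3, _ =>
      obtain ⟨x', rfl⟩ := h2
      simp only [List.cons_append, List.nil_append, List.cons.injEq, List.replicate_succ] at e3
      exact h01 e3.2.2.2.1
    | a :: b :: c :: s'', e3, hl =>
      simp only [List.cons_append, List.cons.injEq, List.length_cons] at e3 hl
      have e4 := e3.2.2.2
      obtain ⟨n, hn⟩ : ∃ n, m + 4 = s''.length + (n + 1) := ⟨m + 3 - s''.length, by omega⟩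
      rw [hn, List.replicate_add, List.append_assoc] at e4
      have e5 := (List.append_inj e4 (by simp)).2
      obtain ⟨x', rfl⟩ := h2
      simp only [List.cons_append, List.replicate_succ, List.cons.injEq] at e5
      exact h01 e5.1

/-- Main result of this module. -/
theorem buf_infix {m : ℕ} {u p q : List (Fin (m + 2))}
    (h : (hash m ++ enc m u ++ hash m) <:+: p ++ buf m ++ q) :
    (hash m ++ enc m u ++ hash m) <:+: p ∨ (hash m ++ enc m u ++ hash m) <:+: q := by
  have hx : hash m ++ enc m u ++ hash m = ext (chi m) (none :: (u.map some ++ [none])) := by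
    rw [ext_cons, ext_append, ← enc_eq, ext_cons, ext_nil, List.append_nil, List.append_assoc]
    rfl
  have hh : hash m = 0 :: 0 :: (List.replicate (m + 3) 1 ++ (0 :: [1])) := by
    have := cw_form m (m + 3) (m + 2) []
    rw [List.append_nil] at this
    rw [hash, this, show m + 3 - (m + 2) = 1 by omega]
    rfl
  refine buf_infix_gen ?_ ?_ ?_ ?_ ?_ h
  · rw [hx]
    exact chi_no_zzz m _
  · rw [hx]
    exact chi_no_ones m _
  · rw [hh, List.replicate_succ]
    exact ⟨List.replicate (m + 2) 1 ++ (0 :: [1]) ++ enc m u ++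
      (0 :: 0 :: (1 :: List.replicate (m + 2) 1 ++ (0 :: [1]))), by simp⟩
  · refine ⟨hash m ++ enc m u ++ (0 :: 0 :: (List.replicate (m + 3) 1 ++ [0])), ?_⟩
    have e : 0 :: 0 :: (List.replicate (m + 3) 1 ++ [0]) ++ [1] = hash m := by
      rw [hh]
      simp
    rw [List.append_assoc, e]
  · have : (hash m).length = m + 7 := by
      rw [hh]
      simp
    simp only [List.length_append, this]
    omega

end Pool.Agent.HLV
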