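import Pool.Agent.HLV.Inv
import Pool.Agent.DD.Rec
import Pool.Agent.DD.Generic

/-!
# HLV-Cls: finitely many quotients, syntactic classes

Plan.
* `exists_contexts`: `Rec L` gives a finite monoid `N` and `φ`; the truth of `s ++ w ++ t ∈ L`
  depends only on `φ s, φ w, φ t`.  Choose for every pair `(n, n')` in the range of `φ × φ` a
  representative; the list of these pairs.
* `exists_quotients`: for a list `Ps` of languages of the hierarchy (`Rec` by `DD.rec_B`), the list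
  of all quotients `{w | s ++ w ++ t ∈ P}`, `(s, t)` in the list of contexts of `P`.
* `synClass_B`: `{w | ∀ Q ∈ Qs, SynEq Q x w}` is the intersection over the finitely many contexts
  of the quotients of `Q` or their complements (`B_list_inter`, `quo_B`, `B_compl`).
* `exists_reps`: by `DD.exists_common_rec` there is a finite monoid with `φ` recognizing all `Qs`;
  one representative word for every element of the range of `φ`; `φ x = φ w` implies
  `SynEq Q x w` for all `Q ∈ Qs`.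
-/

namespace Pool.Agent.HLV

open Pool.Agent.DD

variable {A : Type}

theorem exists_contexts {L : Lang A} (h : Rec L) :
    ∃ cs : List (List A × List A), ∀ s t : List A, ∃ c ∈ cs, ∀ w,
      s ++ w ++ t ∈ L ↔ c.1 ++ w ++ c.2 ∈ L := by
  classical
  obtain ⟨N, hM, hF, φ, -, h2, -, h4⟩ := h
  have hc : ∀ p : N × N, ∃ c : List A × List A,
      (∃ s t : List A, φ s = p.1 ∧ φ t = p.2) → φ c.1 = p.1 ∧ φ c.2 = p.2 := by
    intro p
    by_cases hp : ∃ s t : List A, φ s = p.1 ∧ φ t = p.2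
    · obtain ⟨s, t, hst⟩ := hp
      exact ⟨(s, t), fun _ => hst⟩
    · exact ⟨([], []), fun h => absurd h hp⟩
  choose c hc using hc
  have := Fintype.ofFinite (N × N)
  refine ⟨(Finset.univ : Finset (N × N)).toList.map c, fun s t => ⟨c (φ s, φ t), ?_, fun w => ?_⟩⟩
  · exact List.mem_map.2 ⟨(φ s, φ t), Finset.mem_toList.2 (Finset.mem_univ _), rfl⟩
  · obtain ⟨h5, h6⟩ := hc (φ s, φ t) ⟨s, t, rfl, rfl⟩
    apply h4
    rw [h2, h2, h2, h2, h5, h6]

/-- Main result 1: a finite list of polynomials which controls the syntactic order of the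
polynomials `Ps`. -/
theorem exists_quotients [Finite A] {i : ℕ} (Ps : List (Lang A)) (hP : ∀ P ∈ Ps, Pol (B A i) P) :
    ∃ Ss : List (Lang A), (∀ S ∈ Ss, Pol (B A i) S) ∧
      ∀ u v : List A, (∀ S ∈ Ss, u ∈ S → v ∈ S) → Below Ps u v := by
  induction Ps with
  | nil => exact ⟨[], by simp, fun u v _ P hP => absurd hP (by simp)⟩
  | cons P Ps ih =>
      obtain ⟨Ss, h1, h2⟩ := ih fun P' hP' => hP P' (by simp [hP'])
      obtain ⟨cs, hcs⟩ := exists_contexts (rec_B (pol_sub_B (hP P (by simp))))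
      refine ⟨cs.map (fun c => {w | c.1 ++ w ++ c.2 ∈ P}) ++ Ss, ?_, ?_⟩
      · intro S hS
        rcases List.mem_append.1 hS with hS | hS
        · obtain ⟨c, _, rfl⟩ := List.mem_map.1 hS
          exact quo_pol (hP P (by simp)) c.1 c.2
        · exact h1 S hS
      · intro u v huv P' hP' s t hst
        rcases List.mem_cons.1 hP' with rfl | hP'
        · obtain ⟨c, hc, hcw⟩ := hcs s t
          rw [hcw] at hst ⊢
          exact huv {w | c.1 ++ w ++ c.2 ∈ P'}
            (List.mem_append.2 (Or.inl (List.mem_map.2 ⟨c, hc, rfl⟩))) hst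
        · exact h2 u v (fun S hS => huv S (List.mem_append.2 (Or.inr hS))) P' hP' s t hst

/-- Main result 2. -/
theorem exists_quotients_B [Finite A] {i : ℕ} (Qs : List (Lang A)) (hQ : ∀ Q ∈ Qs, Q ∈ B A i) :
    ∃ Ss : List (Lang A), (∀ S ∈ Ss, Pol (B A i) S) ∧
      ∀ u v : List A, (∀ S ∈ Ss, u ∈ S → v ∈ S) → ∀ Q ∈ Qs, SynEq Q u v := by
  obtain ⟨Ss, h1, h2⟩ := exists_quotients (i := i) (Qs ++ Qs.map (fun Q => Qᶜ)) (by
    intro P hP
    rcases List.mem_append.1 hP with hP | hP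
    · exact Pol.base (hQ P hP)
    · obtain ⟨Q, hQ', rfl⟩ := List.mem_map.1 hP
      exact Pol.base (B_compl (hQ Q hQ')))
  refine ⟨Ss, h1, fun u v huv Q hQ' s t => ⟨fun h => ?_, fun h => ?_⟩⟩
  · exact h2 u v huv Q (List.mem_append.2 (Or.inl hQ')) s t h
  · by_contra hcon
    exact h2 u v huv Qᶜ (List.mem_append.2 (Or.inr (List.mem_map.2 ⟨Q, hQ', rfl⟩))) s t hcon h

theorem synClass_B [Finite A] {i : ℕ} (Qs : List (Lang A)) (hQ : ∀ Q ∈ Qs, Q ∈ B A i)
    (x : List A) : {w | ∀ Q ∈ Qs, SynEq Q x w} ∈ B A i := by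
  classical
  refine B_list_inter Qs (fun Q => {w | SynEq Q x w}) fun Q hQ' => ?_
  obtain ⟨cs, hcs⟩ := exists_contexts (rec_B (hQ Q hQ'))
  have h1 := B_list_inter (i := i) cs (fun c => if c.1 ++ x ++ c.2 ∈ Q then
    {w | c.1 ++ w ++ c.2 ∈ Q} else {w | c.1 ++ w ++ c.2 ∈ Q}ᶜ) (by
      intro c _
      show (if c.1 ++ x ++ c.2 ∈ Q then {w | c.1 ++ w ++ c.2 ∈ Q}
        else {w | c.1 ++ w ++ c.2 ∈ Q}ᶜ) ∈ B A i
      split_ifs
      · exact quo_B (hQ Q hQ') c.1 c.2
      · exact B_compl (quo_B (hQ Q hQ') c.1 c.2))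
  have h2 : ({w | ∀ c ∈ cs, w ∈ (fun c : List A × List A => if c.1 ++ x ++ c.2 ∈ Q then
      {w | c.1 ++ w ++ c.2 ∈ Q} else {w | c.1 ++ w ++ c.2 ∈ Q}ᶜ) c} : Lang A) =
      {w | SynEq Q x w} := by
    ext w
    constructor
    · intro hw s t
      obtain ⟨c, hc, hcw⟩ := hcs s t
      rw [hcw, hcw]
      have h3 : w ∈ (if c.1 ++ x ++ c.2 ∈ Q then
        {w | c.1 ++ w ++ c.2 ∈ Q} else {w | c.1 ++ w ++ c.2 ∈ Q}ᶜ) := hw c hc
      by_cases h4 : c.1 ++ x ++ c.2 ∈ Q
      · rw [if_pos h4] at h3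
        exact ⟨fun _ => h3, fun _ => h4⟩
      · rw [if_neg h4] at h3
        exact ⟨fun h => absurd h h4, fun h => absurd h h3⟩
    · intro hw c hc
      show w ∈ (if c.1 ++ x ++ c.2 ∈ Q then
        {w | c.1 ++ w ++ c.2 ∈ Q} else {w | c.1 ++ w ++ c.2 ∈ Q}ᶜ)
      have h3 := hw c.1 c.2
      by_cases h4 : c.1 ++ x ++ c.2 ∈ Q
      · rw [if_pos h4]
        exact h3.1 h4
      · rw [if_neg h4]
        exact fun h => h4 (h3.2 h)
  rw [h2] at h1
  exact h1

theorem exists_reps [Finite A] {i : ℕ} (Qs : List (Lang A)) (hQ : ∀ Q ∈ Qs, Q ∈ B A i) :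
    ∃ xs : List (List A), ∀ w, ∃ x ∈ xs, ∀ Q ∈ Qs, SynEq Q x w := by
  classical
  obtain ⟨N, hM, hF, φ, -, h2, -, h4⟩ := exists_common_rec Qs fun Q hQ' => rec_B (hQ Q hQ')
  have hr : ∀ n : N, ∃ x : List A, (∃ w, φ w = n) → φ x = n := by
    intro n
    by_cases hn : ∃ w, φ w = n
    · obtain ⟨w, hw⟩ := hn
      exact ⟨w, fun _ => hw⟩
    · exact ⟨[], fun h => absurd h hn⟩
  choose r hr using hr
  have := Fintype.ofFinite N
  refine ⟨(Finset.univ : Finset N).toList.map r, fun w => ⟨r (φ w), ?_, fun Q hQ' s t => ?_⟩⟩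
  · exact List.mem_map.2 ⟨φ w, Finset.mem_toList.2 (Finset.mem_univ _), rfl⟩
  · apply h4 Q hQ'
    rw [h2, h2, h2, h2, hr (φ w) ⟨w, rfl⟩]

end Pool.Agent.HLV
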