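import Pool.Agent.HLV.Pair

/-!
# HLV-Coll: the collapse

`collapse`: suppose `Lᶜ` is not in `Half (B A n)`; then `X = Lᶜ` is not separable from
`Y = L` (a separator is equal to `Lᶜ`).  `pol_jump` for `L` gives `Fs ⊆ B A (n+1)` and `m`.
`pair` with `Rs = Fs` gives `u ∉ L`, `v ∈ L`; `hP v` gives `y, z`; `pair` for this `y` gives `N₀`;
`E = pw (v ++ y) N₀`, `pw E m = pw (v ++ y) (N₀ * m)`.
`hP` with `N = N₀ * m`: `pw E m ++ z ∈ L`, so `pw E m ++ (u ++ y) ++ pw E m ++ z ∈ L`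
(`pol_jump` with `s = []`, `t = z`), but this word is not in `L`.
-/

namespace Pool.Agent.HLV

open Pool.Agent.DD

variable {A : Type}

theorem pw_mul (x : List A) (a b : ℕ) : pw (pw x a) b = pw x (a * b) := by
  induction b with
  | zero => rw [Nat.mul_zero, pw_zero, pw_zero]
  | succ b ih => rw [pw_succ', ih, Nat.mul_succ, pw_add]

/-- Main result of this module. -/
theorem collapse [Finite A] {L : Lang A} (hP : PumpSep L) {n : ℕ} (h : Pol (B A (n + 1)) L) :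
    Lᶜ ∈ Half (B A n) := by
  by_contra hn
  have hsep : ¬ Separable (Half (B A n)) Lᶜ L := by
    rintro ⟨S, hS, h1, h2⟩
    have h3 : S = Lᶜ := Set.Subset.antisymm (fun w hw => h2 w hw) h1
    rw [h3] at hS
    exact hn hS
  obtain ⟨Fs, m, -, hF, hjump⟩ := pol_jump h
  obtain ⟨u, hu, v, hv, hy⟩ := pair hsep Fs hF
  obtain ⟨y, z, hyz⟩ := hP v hv
  obtain ⟨N₀, -, hsyn⟩ := hy y
  obtain ⟨h1, h2⟩ := hyz (N₀ * m)
  have h3 := hjump (pw (v ++ y) N₀) (u ++ y) (fun F hF' => (hsyn F hF').1)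
    (fun F hF' => (hsyn F hF').2) [] z (by
      rw [pw_mul]
      exact h1)
  rw [pw_mul] at h3
  exact h2 u hu h3

/-- The equivalences. -/
theorem collapse_iff [Finite A] {L : Lang A} (hP : PumpSep L) (n : ℕ) :
    (L ∈ B A (n + 1) ↔ Lᶜ ∈ Half (B A n)) ∧ (L ∈ Half (B A (n + 1)) ↔ Lᶜ ∈ Half (B A n)) := by
  have h1 : Lᶜ ∈ Half (B A n) → L ∈ B A (n + 1) := fun h => by
    have h2 := B_compl (half_sub_B h)
    rwa [compl_compl] at h2
  exact ⟨⟨fun h => collapse hP (Pol.base h), h1⟩,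
    ⟨fun h => collapse hP (pol_of_half h), fun h => half_of_pol (Pol.base (h1 h))⟩⟩

end Pool.Agent.HLV
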