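import Pool.Agent.HLV.Cls

/-!
# HLV-Cut: cut decompositions; the polynomial closure is closed under intersection

Plan.
* `cut_B`: `L ∈ B A i`: take representatives `xs` for `[L]` (`exists_reps`), and the pairs
  `({w | ∀ Q ∈ [L], SynEq Q x w}, {w | x ++ w ++ [] ∈ L})`, `x ∈ xs` (`synClass_B`, `quo_B`).
* `cut_pol`: induction on `Pol`.  base: `cut_B`.  union: append the two lists.  cat `M N`:
  `x ++ y ∈ cat M N` iff (`x = m ++ x'`, `m ∈ M`, `x' ++ y ∈ N`) or (`y = y' ++ n`, `x ++ y' ∈ M`,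
  `n ∈ N`) (`List.append_eq_append_iff`): the pairs `(cat M d.1, d.2)` for `d` in the list of `N`
  and `(d.1, cat d.2 N)` for `d` in the list of `M`.
* `inter_pol`: first `K ∈ B A i`, `L` in `Pol`: induction on `L`; base `B_inter`; union distributes;
  cat `L₁ L₂`: with the cut decomposition of `K` (`cut_B`):
  `K ∩ cat L₁ L₂ = ⋃_d cat (d.1 ∩ L₁) (d.2 ∩ L₂)`; so the induction must be over `L` for ALL
  `K ∈ B A i`.  Then `K` in `Pol` by induction on `K` for all `L`: cat `K₁ K₂` with `cut_pol` of `L`.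
-/

namespace Pool.Agent.HLV

open Pool.Agent.DD

variable {A : Type}

theorem cut_B [Finite A] {i : ℕ} {L : Lang A} (h : L ∈ B A i) :
    ∃ ds : List (Lang A × Lang A), (∀ d ∈ ds, d.1 ∈ B A i ∧ d.2 ∈ B A i) ∧
      ∀ x y : List A, x ++ y ∈ L ↔ ∃ d ∈ ds, x ∈ d.1 ∧ y ∈ d.2 := by
  have hQ : ∀ Q ∈ [L], Q ∈ B A i := by
    intro Q hQ
    rw [List.mem_singleton.1 hQ]
    exact h
  obtain ⟨xs, hxs⟩ := exists_reps [L] hQ
  refine ⟨xs.map fun x => (({w | ∀ Q ∈ [L], SynEq Q x w} : Lang A),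
    ({w | x ++ w ++ [] ∈ L} : Lang A)), ?_, ?_⟩
  · intro d hd
    obtain ⟨x, _, rfl⟩ := List.mem_map.1 hd
    exact ⟨synClass_B [L] hQ x, quo_B h x []⟩
  · intro x y
    constructor
    · intro hxy
      obtain ⟨z, hz, hzx⟩ := hxs x
      refine ⟨_, List.mem_map.2 ⟨z, hz, rfl⟩, hzx, ?_⟩
      show z ++ y ++ [] ∈ L
      have := (hzx L (by simp) [] y).2 (by simpa using hxy)
      simpa using this
    · rintro ⟨d, hd, h1, h2⟩
      obtain ⟨z, _, rfl⟩ := List.mem_map.1 hd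
      have h1' : ∀ Q ∈ [L], SynEq Q z x := h1
      have h2' : z ++ y ++ [] ∈ L := h2
      have := (h1' L (by simp) [] y).1 (by simpa using h2')
      simpa using this

theorem cut_pol [Finite A] {i : ℕ} {L : Lang A} (h : Pol (B A i) L) :
    ∃ ds : List (Lang A × Lang A), (∀ d ∈ ds, Pol (B A i) d.1 ∧ Pol (B A i) d.2) ∧
      ∀ x y : List A, x ++ y ∈ L ↔ ∃ d ∈ ds, x ∈ d.1 ∧ y ∈ d.2 := by
  induction h with
  | base h =>
    obtain ⟨ds, h1, h2⟩ := cut_B h
    exact ⟨ds, fun d hd => ⟨Pol.base (h1 d hd).1, Pol.base (h1 d hd).2⟩, h2⟩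
  | @cat K L hK hL ihK ihL =>
    obtain ⟨dK, hK1, hK2⟩ := ihK
    obtain ⟨dL, hL1, hL2⟩ := ihL
    refine ⟨dL.map (fun d => (DD.cat K d.1, d.2)) ++ dK.map (fun d => (d.1, DD.cat d.2 L)),
      ?_, ?_⟩
    · intro d hd
      rcases List.mem_append.1 hd with hd | hd
      · obtain ⟨e, he, rfl⟩ := List.mem_map.1 hd
        exact ⟨Pol.cat hK (hL1 e he).1, (hL1 e he).2⟩
      · obtain ⟨e, he, rfl⟩ := List.mem_map.1 hd
        exact ⟨(hK1 e he).1, Pol.cat (hK1 e he).2 hL⟩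
    · intro x y
      constructor
      · rintro ⟨m, hm, n, hn, hmn⟩
        rcases List.append_eq_append_iff.1 hmn with ⟨z, hz1, hz2⟩ | ⟨z, hz1, hz2⟩
        · -- `m = x ++ z`, `y = z ++ n`
          rw [hz1] at hm
          obtain ⟨d, hd, hx, hz⟩ := (hK2 x z).1 hm
          refine ⟨_, List.mem_append.2 (Or.inr (List.mem_map.2 ⟨d, hd, rfl⟩)), hx, ?_⟩
          rw [hz2]
          exact append_mem_cat hz hn
        · rw [hz2] at hn
          obtain ⟨d, hd, hz, hy⟩ := (hL2 z y).1 hn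
          refine ⟨_, List.mem_append.2 (Or.inl (List.mem_map.2 ⟨d, hd, rfl⟩)), ?_, hy⟩
          rw [hz1]
          exact append_mem_cat hm hz
      · rintro ⟨d, hd, hx, hy⟩
        rcases List.mem_append.1 hd with hd | hd
        · obtain ⟨e, he, rfl⟩ := List.mem_map.1 hd
          obtain ⟨m, hm, z, hz, hmz⟩ := hx
          refine ⟨m, hm, z ++ y, (hL2 z y).2 ⟨e, he, hz, hy⟩, ?_⟩
          rw [hmz, List.append_assoc]
        · obtain ⟨e, he, rfl⟩ := List.mem_map.1 hd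
          obtain ⟨z, hz, n, hn, hzn⟩ := hy
          refine ⟨x ++ z, (hK2 x z).2 ⟨e, he, hx, hz⟩, n, hn, ?_⟩
          rw [hzn, List.append_assoc]
  | @union K L hK hL ihK ihL =>
    obtain ⟨dK, hK1, hK2⟩ := ihK
    obtain ⟨dL, hL1, hL2⟩ := ihL
    refine ⟨dK ++ dL, ?_, ?_⟩
    · intro d hd
      rcases List.mem_append.1 hd with hd | hd
      · exact hK1 d hd
      · exact hL1 d hd
    · intro x y
      constructor
      · rintro (hxy | hxy)
        · obtain ⟨d, hd, h⟩ := (hK2 x y).1 hxy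
          exact ⟨d, List.mem_append.2 (Or.inl hd), h⟩
        · obtain ⟨d, hd, h⟩ := (hL2 x y).1 hxy
          exact ⟨d, List.mem_append.2 (Or.inr hd), h⟩
      · rintro ⟨d, hd, h⟩
        rcases List.mem_append.1 hd with hd | hd
        · exact Or.inl ((hK2 x y).2 ⟨d, hd, h⟩)
        · exact Or.inr ((hL2 x y).2 ⟨d, hd, h⟩)

/-- The intersection of a language with a product, from a cut decomposition. -/
private theorem inter_cat_eq {K L M : Lang A} {ds : List (Lang A × Lang A)}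
    (hds : ∀ x y : List A, x ++ y ∈ K ↔ ∃ d ∈ ds, x ∈ d.1 ∧ y ∈ d.2) :
    K ∩ DD.cat L M = {w | ∃ d ∈ ds, w ∈ DD.cat (d.1 ∩ L) (d.2 ∩ M)} := by
  ext w
  constructor
  · rintro ⟨hw, x, hx, y, hy, rfl⟩
    obtain ⟨d, hd, h1, h2⟩ := (hds x y).1 hw
    exact ⟨d, hd, x, ⟨h1, hx⟩, y, ⟨h2, hy⟩, rfl⟩
  · rintro ⟨d, hd, x, hx, y, hy, rfl⟩
    exact ⟨(hds x y).2 ⟨d, hd, hx.1, hy.1⟩, x, hx.2, y, hy.2, rfl⟩

private theorem inter_pol_B [Finite A] {i : ℕ} {L : Lang A} (hL : Pol (B A i) L) :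
    ∀ {K : Lang A}, K ∈ B A i → Pol (B A i) (K ∩ L) := by
  induction hL with
  | base h =>
    intro K hK
    exact Pol.base (B_inter hK h)
  | @cat L M hL hM ihL ihM =>
    intro K hK
    obtain ⟨ds, h1, h2⟩ := cut_B hK
    rw [inter_cat_eq h2]
    exact pol_list_union ds (fun d => DD.cat (d.1 ∩ L) (d.2 ∩ M))
      fun d hd => Pol.cat (ihL (h1 d hd).1) (ihM (h1 d hd).2)
  | @union L M hL hM ihL ihM =>
    intro K hK
    rw [Set.inter_union_distrib_left]
    exact Pol.union (ihL hK) (ihM hK)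

/-- Main result 1. -/
theorem inter_pol [Finite A] {i : ℕ} {K L : Lang A} (hK : Pol (B A i) K) (hL : Pol (B A i) L) :
    Pol (B A i) (K ∩ L) := by
  induction hK generalizing L with
  | base h => exact inter_pol_B hL h
  | @cat K M hK hM ihK ihM =>
    obtain ⟨ds, h1, h2⟩ := cut_pol hL
    rw [Set.inter_comm, inter_cat_eq h2]
    refine pol_list_union ds (fun d => DD.cat (d.1 ∩ K) (d.2 ∩ M)) fun d hd => ?_
    refine Pol.cat ?_ ?_
    · rw [Set.inter_comm]
      exact ihK (h1 d hd).1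
    · rw [Set.inter_comm]
      exact ihM (h1 d hd).2
  | @union K M hK hM ihK ihM =>
    rw [Set.union_inter_distrib_right]
    exact Pol.union (ihK hL) (ihM hL)

/-- Main result 2. -/
theorem pol_list_inter [Finite A] {i : ℕ} {ι : Type*} (xs : List ι) (F : ι → Lang A)
    (h : ∀ x ∈ xs, Pol (B A i) (F x)) : Pol (B A i) {w | ∀ x ∈ xs, w ∈ F x} := by
  induction xs with
  | nil =>
    have e : ({w | ∀ x ∈ ([] : List ι), w ∈ F x} : Lang A) = Set.univ := by
      ext w; simp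
    rw [e]
    exact Pol.base (univ_mem_B i)
  | cons x xs ih =>
    have e : ({w | ∀ y ∈ x :: xs, w ∈ F y} : Lang A) = F x ∩ {w | ∀ y ∈ xs, w ∈ F y} := by
      ext w; simp
    rw [e]
    exact inter_pol (h x (by simp)) (ih fun y hy => h y (by simp [hy]))

end Pool.Agent.HLV
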