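import Pool.Agent.HLV.Sync

/-!
# HLV-Cw: the concrete code

`cw m M a = 0 0 1^(a+1) 0 1^(M-a)`, for `a < M`; length `M + 4`; alphabet `Fin (m + 2)`.

Plan.
* `cw_length`: `a < M`.
* `cw_zz`: `cw m M a = p ++ 0 :: 0 :: q` implies `p = []` (the only two consecutive zeros are the
  first two letters; e.g. compare the letters at position `|p|` and `|p| + 1` with an explicit
  formula for `(cw m M a)[k]?`: it is `some 0` iff `k = 0, 1, a + 3`).
* `cw_last`: `cw m M a = p ++ [c]` implies `c = 1` (`a < M`).
* `cw_inj`.
* `good_cw`: for any injective `f : A' → ℕ` with values `< M`, the code `a ↦ cw m M (f a)` is good: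
  `nov`: `cw .. = p ++ r`, `cw .. = r ++ s`, `p, r ≠ []`: the last letter of `r` is `1`, and `r` is a
  prefix of `0 0 1 ...`, so `|r| ≥ 3` and `r = 0 :: 0 :: r'`; by `cw_zz` `p = []`.
* instances: `good_code`, `good_enc`, `good_chi` (`chi` is the code with all the `m + 3` code words,
  over `Option (Fin (m + 2))`, where `none` is coded by `hash m`).
* `blk`: the blocks as words over `Option (Fin (m + 2))`: `# y` is `none :: y.map some`.
  `enc_eq`, `blocks_eq`: induction on the word / list.
* `infix_single`, `infix_blocks`: by `ext_infix good_chi` this is about words over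
  `Option (Fin (m + 2))`: `none :: u.map some ++ [none]` is an infix of
  `(flattened blocks none :: y.map some) ++ [none]` iff `u` is one of the `y`.
  Induction on `ys`: an occurrence starting at the first `none` has `u.map some ++ [none]` as a prefix of
  `y.map some ++ none :: ...`, so `u = y` (first position of `none`); any other occurrence starts
  at a later `none`, so it is inside the rest (`y.map some` contains no `none`).
-/

namespace Pool.Agent.HLV

open Pool.Agent.DD

variable {A' : Type}

/-- The code with all the `m + 3` code words: `none` is coded by the delimiter. -/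
def chi (m : ℕ) : Option (Fin (m + 2)) → List (Fin (m + 2))
  | none => hash m
  | some a => cw m (m + 3) a.val

/-- The blocks as words over `Option (Fin (m + 2))`. -/
def blk (m : ℕ) (ys : List (List (Fin (m + 2)))) : List (Option (Fin (m + 2))) :=
  (ys.map fun y => none :: y.map some).flatten

theorem cw_length {m M a : ℕ} (h : a < M) : (cw m M a).length = M + 4 := by
  unfold cw
  simp only [List.length_append, List.length_replicate, List.length_cons, List.length_nil]
  omega

private theorem one_ne {m : ℕ} : (0 : Fin (m + 2)) ≠ 1 := by
  intro h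
  have h1 := congrArg Fin.val h
  simp at h1

private theorem zero_notMem {m : ℕ} (j : ℕ) : (0 : Fin (m + 2)) ∉ List.replicate j (1 : Fin (m + 2)) := by
  intro h
  exact one_ne (List.eq_of_mem_replicate h)

private theorem no_zz {m : ℕ} (j : ℕ) : ∀ (k : ℕ) (p q : List (Fin (m + 2))),
    List.replicate k 1 ++ 0 :: List.replicate j 1 ≠ p ++ 0 :: 0 :: q := by
  intro k
  induction k with
  | zero =>
    intro p q h
    cases p with
    | nil =>
      have h1 : List.replicate j (1 : Fin (m + 2)) = 0 :: q := by
        simpa using h
      exact zero_notMem j (by rw [h1]; exact List.mem_cons_self)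
    | cons x p =>
      have h1 : List.replicate j (1 : Fin (m + 2)) = p ++ 0 :: 0 :: q := by
        have h2 : (0 : Fin (m + 2)) :: List.replicate j 1 = x :: (p ++ 0 :: 0 :: q) := by
          simpa using h
        exact (List.cons.inj h2).2
      exact zero_notMem j (by rw [h1]; simp)
  | succ k ih =>
    intro p q h
    cases p with
    | nil =>
      have h1 : (1 : Fin (m + 2)) :: (List.replicate k 1 ++ 0 :: List.replicate j 1) = 0 :: 0 :: q := by
        simpa [List.replicate_succ] using h
      exact one_ne (List.cons.inj h1).1.symm
    | cons x p =>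
      have h1 : (1 : Fin (m + 2)) :: (List.replicate k 1 ++ 0 :: List.replicate j 1) =
          x :: (p ++ 0 :: 0 :: q) := by
        simpa [List.replicate_succ] using h
      exact ih p q (List.cons.inj h1).2

private theorem cw_eq (m M a : ℕ) : cw m M a =
    0 :: 0 :: 1 :: (List.replicate a 1 ++ 0 :: List.replicate (M - a) 1) := by
  unfold cw
  rw [List.replicate_succ]
  simp

theorem cw_zz {m M a : ℕ} (h : a < M) {p q : List (Fin (m + 2))}
    (e : cw m M a = p ++ 0 :: 0 :: q) : p = [] := by
  have _ := h
  rw [cw_eq] at e
  rcases p with _ | ⟨x, _ | ⟨y, _ | ⟨z, p⟩⟩⟩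
  · rfl
  · exfalso
    have h1 : (0 : Fin (m + 2)) :: 0 :: 1 :: (List.replicate a 1 ++ 0 :: List.replicate (M - a) 1) =
      x :: 0 :: 0 :: q := e
    exact one_ne (List.cons.inj (List.cons.inj (List.cons.inj h1).2).2).1.symm
  · exfalso
    have h1 : (0 : Fin (m + 2)) :: 0 :: 1 :: (List.replicate a 1 ++ 0 :: List.replicate (M - a) 1) =
      x :: y :: 0 :: 0 :: q := e
    exact one_ne (List.cons.inj (List.cons.inj (List.cons.inj h1).2).2).1.symm
  · exfalso
    have h1 : (0 : Fin (m + 2)) :: 0 :: 1 :: (List.replicate a 1 ++ 0 :: List.replicate (M - a) 1) =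
      x :: y :: z :: (p ++ 0 :: 0 :: q) := e
    exact no_zz _ _ _ _ (List.cons.inj (List.cons.inj (List.cons.inj h1).2).2).2

theorem cw_last {m M a : ℕ} (h : a < M) {p : List (Fin (m + 2))} {c : Fin (m + 2)}
    (e : cw m M a = p ++ [c]) : c = 1 := by
  obtain ⟨k, hk⟩ : ∃ k, M - a = k + 1 := ⟨M - a - 1, by omega⟩
  have h0 : cw m M a = ([0, 0] ++ List.replicate (a + 1) 1 ++ [0] ++ List.replicate k 1) ++ [1] := by
    unfold cw
    rw [hk, List.replicate_succ' (n := k)]
    simp
  rw [h0] at e
  have h1 := (List.append_inj' e rfl).2
  exact (List.cons.inj h1).1.symm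

private theorem rep_inj {m : ℕ} : ∀ (k k' : ℕ) (r r' : List (Fin (m + 2))),
    List.replicate k 1 ++ 0 :: r = List.replicate k' 1 ++ 0 :: r' → k = k' := by
  intro k
  induction k with
  | zero =>
    intro k' r r' h
    cases k' with
    | zero => rfl
    | succ k' =>
      have h1 : (0 : Fin (m + 2)) :: r = 1 :: (List.replicate k' 1 ++ 0 :: r') := by
        simpa [List.replicate_succ] using h
      exact absurd (List.cons.inj h1).1 one_ne
  | succ k ih =>
    intro k' r r' h
    cases k' with
    | zero =>
      have h1 : (1 : Fin (m + 2)) :: (List.replicate k 1 ++ 0 :: r) = 0 :: r' := by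
        simpa [List.replicate_succ] using h
      exact absurd (List.cons.inj h1).1.symm one_ne
    | succ k' =>
      have h1 : (1 : Fin (m + 2)) :: (List.replicate k 1 ++ 0 :: r) =
          1 :: (List.replicate k' 1 ++ 0 :: r') := by
        simpa [List.replicate_succ] using h
      rw [ih k' r r' (List.cons.inj h1).2]

theorem cw_inj {m M a b : ℕ} (ha : a < M) (hb : b < M) (e : cw m M a = cw m M b) : a = b := by
  have _ := ha
  have _ := hb
  rw [cw_eq, cw_eq] at e
  exact rep_inj a b _ _ (List.cons.inj (List.cons.inj (List.cons.inj e).2).2).2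

/-- Main result 1. -/
theorem good_cw (m M : ℕ) (f : A' → ℕ) (hf : Function.Injective f) (hM : ∀ a, f a < M) :
    GoodCode (fun a => cw m M (f a)) (M + 4) := by
  refine ⟨by omega, fun a => cw_length (hM a), fun a b h => hf (cw_inj (hM a) (hM b) h), ?_⟩
  intro a b p r s hp hr e1 e2
  have e1' : cw m M (f a) = p ++ r := e1
  have e2' : cw m M (f b) = r ++ s := e2
  have hlast : ∀ r0 c, r = r0 ++ [c] → c = 1 := by
    intro r0 c hrc
    refine cw_last (hM a) (p := p ++ r0) ?_
    rw [e1', hrc, List.append_assoc]
  rw [cw_eq] at e2'
  rcases r with _ | ⟨x, _ | ⟨y, r⟩⟩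
  · exact hr rfl
  · have h1 : (0 : Fin (m + 2)) :: 0 :: 1 :: (List.replicate (f b) 1 ++ 0 ::
        List.replicate (M - f b) 1) = x :: s := e2'
    have h2 := hlast [] x rfl
    rw [h2] at h1
    exact one_ne (List.cons.inj h1).1
  · have h1 : (0 : Fin (m + 2)) :: 0 :: 1 :: (List.replicate (f b) 1 ++ 0 ::
        List.replicate (M - f b) 1) = x :: y :: (r ++ s) := e2'
    have hx := (List.cons.inj h1).1
    have hy := (List.cons.inj (List.cons.inj h1).2).1
    subst hx
    subst hy
    exact hp (cw_zz (hM a) e1')

theorem good_code (M m : ℕ) : GoodCode (fun a : Fin M => cw m M a.val) (M + 4) :=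
  good_cw m M Fin.val Fin.val_injective fun a => a.isLt

theorem good_enc (m : ℕ) : GoodCode (fun a : Fin (m + 2) => cw m (m + 3) a.val) (m + 7) :=
  good_cw m (m + 3) Fin.val Fin.val_injective fun a => by
    have := a.isLt
    omega

theorem good_chi (m : ℕ) : GoodCode (chi m) (m + 7) := by
  have h := good_cw m (m + 3) (fun o : Option (Fin (m + 2)) => o.elim (m + 2) Fin.val) (by
    intro a b hab
    cases a with
    | none =>
      cases b with
      | none => rfl
      | some b =>
        have h1 : m + 2 = b.val := hab
        have := b.isLt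
        omega
    | some a =>
      cases b with
      | none =>
        have h1 : a.val = m + 2 := hab
        have := a.isLt
        omega
      | some b =>
        have h1 : a.val = b.val := hab
        rw [Fin.ext h1]) (by
    intro a
    cases a with
    | none =>
      change m + 2 < m + 3
      omega
    | some a =>
      change a.val < m + 3
      have := a.isLt
      omega)
  have e : (fun o : Option (Fin (m + 2)) => cw m (m + 3) (o.elim (m + 2) Fin.val)) = chi m := by
    funext o
    cases o <;> rfl
  rw [← e]
  exact h

theorem enc_eq (m : ℕ) (w : List (Fin (m + 2))) : enc m w = ext (chi m) (w.map some) := by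
  unfold enc ext
  rw [List.map_map]
  rfl

theorem blocks_eq (m : ℕ) (ys : List (List (Fin (m + 2)))) :
    blocks m ys = ext (chi m) (blk m ys) := by
  induction ys with
  | nil => rfl
  | cons y ys ih =>
    have h1 : blocks m (y :: ys) = hash m ++ enc m y ++ blocks m ys := rfl
    have h2 : blk m (y :: ys) = none :: y.map some ++ blk m ys := rfl
    rw [h1, h2, ext_append, ext_cons, ih, enc_eq]
    rfl

private theorem map_none_inj {α : Type} : ∀ (u y : List α) (r r' : List (Option α)),
    u.map some ++ none :: r = y.map some ++ none :: r' → u = y := by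
  intro u
  induction u with
  | nil =>
    intro y r r' h
    cases y with
    | nil => rfl
    | cons b y => simp at h
  | cons a u ih =>
    intro y r r' h
    cases y with
    | nil => simp at h
    | cons b y =>
      have h1 : some a :: (u.map some ++ none :: r) = some b :: (y.map some ++ none :: r') := by
        simpa using h
      rw [Option.some.inj (List.cons.inj h1).1, ih y r r' (List.cons.inj h1).2]

private theorem skip_map {α : Type} : ∀ (y : List α) (s r Z : List (Option α)),
    s ++ none :: r = y.map some ++ Z → ∃ s', s' ++ none :: r = Z := by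
  intro y
  induction y with
  | nil =>
    intro s r Z h
    exact ⟨s, h⟩
  | cons b y ih =>
    intro s r Z h
    cases s with
    | nil => simp at h
    | cons x s =>
      have h1 : x :: (s ++ none :: r) = some b :: (y.map some ++ Z) := by
        simpa using h
      exact ih s r Z (List.cons.inj h1).2

theorem blk_infix {m : ℕ} {u : List (Fin (m + 2))} {ys : List (List (Fin (m + 2)))} :
    (none :: u.map some ++ [none]) <:+: blk m ys ++ [none] ↔ u ∈ ys := by
  induction ys with
  | nil =>
    constructor
    · intro h
      have h1 := h.length_le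
      have h2 : (blk m ([] : List (List (Fin (m + 2)))) ++ [none]).length = 1 := rfl
      rw [h2] at h1
      simp at h1
    · intro h
      exact absurd h List.not_mem_nil
  | cons y ys ih =>
    have h2 : blk m (y :: ys) ++ [none] = none :: (y.map some ++ (blk m ys ++ [none])) := by
      have h3 : blk m (y :: ys) = none :: y.map some ++ blk m ys := rfl
      rw [h3]
      simp
    obtain ⟨Z, hZ⟩ : ∃ Z, blk m ys ++ [none] = none :: Z := by
      cases ys with
      | nil => exact ⟨[], rfl⟩
      | cons z ys =>
        refine ⟨z.map some ++ blk m ys ++ [none], ?_⟩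
        have h3 : blk m (z :: ys) = none :: z.map some ++ blk m ys := rfl
        rw [h3]
        simp
    rw [h2, List.mem_cons]
    constructor
    · rintro ⟨s, t, h⟩
      cases s with
      | nil =>
        left
        rw [hZ] at h
        refine map_none_inj u y t Z ?_
        have h4 : none :: (u.map some ++ none :: t) = none :: (y.map some ++ none :: Z) := by
          rw [← h]
          simp
        exact (List.cons.inj h4).2
      | cons x s =>
        right
        have h4 : x :: (s ++ none :: (u.map some ++ none :: t)) =
            none :: (y.map some ++ (blk m ys ++ [none])) := by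
          rw [← h]
          simp
        obtain ⟨s', hs'⟩ := skip_map y s _ _ (List.cons.inj h4).2
        rw [← ih]
        refine ⟨s', t, ?_⟩
        rw [← hs']
        simp
    · rintro (h | h)
      · subst h
        refine ⟨[], Z, ?_⟩
        rw [hZ]
        simp
      · rw [← ih] at h
        refine h.trans ?_
        refine List.IsSuffix.isInfix ⟨none :: y.map some, ?_⟩
        simp

/-- Main result 2. -/
theorem infix_blocks {m : ℕ} {u : List (Fin (m + 2))} {ys : List (List (Fin (m + 2)))} :
    (hash m ++ enc m u ++ hash m) <:+: blocks m ys ++ hash m ↔ u ∈ ys := by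
  have h0 : ext (chi m) [none] = hash m := by
    rw [ext_cons, ext_nil, List.append_nil]
    rfl
  have h1 : hash m ++ enc m u ++ hash m = ext (chi m) (none :: u.map some ++ [none]) := by
    rw [ext_append, ext_cons, h0, enc_eq]
    rfl
  have h2 : blocks m ys ++ hash m = ext (chi m) (blk m ys ++ [none]) := by
    rw [ext_append, h0, blocks_eq]
  rw [h1, h2, ext_infix (good_chi m) (by simp), blk_infix]

/-- Main result 3. -/
theorem infix_single {m : ℕ} {u w : List (Fin (m + 2))} :
    (hash m ++ enc m u ++ hash m) <:+: hash m ++ enc m w ++ hash m ↔ u = w := by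
  have h1 : hash m ++ enc m w ++ hash m = blocks m [w] ++ hash m := by
    unfold blocks
    simp
  rw [h1, infix_blocks, List.mem_singleton]

end Pool.Agent.HLV
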