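import Pool.Agent.DD.Defs

/-!
# Project HLV (MP_21f263_lc): full levels and half levels of the dot-depth hierarchy

`B A i` is the dot-depth hierarchy (Pool.Agent.DD.Defs), `Half (B A i)` the half level above it
(finite unions of products of members of `B A i`, usually called `Pol (B i)` or level `i + 1/2`).
Paper proof and overview: /team-store/hlv_blueprint.md
-/

namespace Pool.Agent.HLV

open Pool.Agent.DD

variable {A A' : Type}

/-! ### Definitions used in the final statement -/

/-- The half level above a family: all finite unions of members of the monoid closure `MC`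
(products of members of `C`, and `{ε}`). -/
def Half (C : Set (Lang A)) : Set (Lang A) :=
  {L | ∃ Ps : List (Lang A), (∀ P ∈ Ps, P ∈ MonCl C) ∧ L = {w | ∃ P ∈ Ps, w ∈ P}}

/-- Factor closed languages. -/
def Factorial (L : Lang A) : Prop := ∀ u v w : List A, u ++ v ++ w ∈ L → v ∈ L

/-- Irreducible (transitive) languages. -/
def Irred (L : Lang A) : Prop := ∀ u ∈ L, ∀ v ∈ L, ∃ y, u ++ y ++ v ∈ L

/-- Biunitary submonoids (the languages `X*`, `X` a bifix code). -/
structure Biunitary (L : Lang A) : Prop where
  one : [] ∈ L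
  mul : ∀ u ∈ L, ∀ v ∈ L, u ++ v ∈ L
  left : ∀ u v, u ∈ L → u ++ v ∈ L → v ∈ L
  right : ∀ u v, v ∈ L → u ++ v ∈ L → u ∈ L

/-- `X` can be separated from `Y` by a member of `C`. -/
def Separable (C : Set (Lang A)) (X Y : Lang A) : Prop := ∃ S ∈ C, X ⊆ S ∧ ∀ w ∈ S, w ∉ Y

/-- The extension of a map from letters to words to all words. -/
def ext (ψ : A' → List A) (w : List A') : List A := (w.map ψ).flatten

/-- The code word number `a` (`a < M`) over the alphabet `Fin (m + 2)`:
`0 0 1^(a+1) 0 1^(M-a)`, of length `M + 4`. -/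
def cw (m M : ℕ) (a : ℕ) : List (Fin (m + 2)) :=
  [0, 0] ++ List.replicate (a + 1) 1 ++ [0] ++ List.replicate (M - a) 1

/-- The coding of words over `Fin M` by words over `Fin (m + 2)`. -/
def code (M m : ℕ) (w : List (Fin M)) : List (Fin (m + 2)) := ext (fun a => cw m M a.val) w

/-- The coding of the words over `Fin (m + 2)` by words over the same alphabet that is used
below (code words number `0, ..., m + 1` of the code with `m + 3` code words). -/
def enc (m : ℕ) (w : List (Fin (m + 2))) : List (Fin (m + 2)) := ext (fun a => cw m (m + 3) a.val) w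

/-- The delimiter: the remaining code word, number `m + 2`. -/
def hash (m : ℕ) : List (Fin (m + 2)) := cw m (m + 3) (m + 2)

/-- The words without a factor `# u #` with `u` outside `K`. -/
def opF {m : ℕ} (K : Lang (Fin (m + 2))) : Lang (Fin (m + 2)) :=
  {w | ∀ u, u ∉ K → ¬ (hash m ++ enc m u ++ hash m) <:+: w}

/-- The iterated operation: `T₀ K = F K`, `T_(j+1) K = F (complement of T_j K)`. -/
def opT {m : ℕ} (K : Lang (Fin (m + 2))) : ℕ → Lang (Fin (m + 2))
  | 0 => opF K
  | j + 1 => opF (opT K j)ᶜ

/-- `# y₁ # y₂ # ... # y_r` (coded). -/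
def blocks (m : ℕ) (ys : List (List (Fin (m + 2)))) : List (Fin (m + 2)) :=
  (ys.map fun y => hash m ++ enc m y).flatten

/-- All sequences of blocks in `Y`, closed by `#`. -/
def seqY {m : ℕ} (Y : Lang (Fin (m + 2))) : Lang (Fin (m + 2)) :=
  {w | ∃ ys : List (List (Fin (m + 2))), (∀ y ∈ ys, y ∈ Y) ∧ w = blocks m ys ++ hash m}

/-- All sequences of blocks in `Y` with one block in `X` inserted, closed by `#`. -/
def seqXY {m : ℕ} (X Y : Lang (Fin (m + 2))) : Lang (Fin (m + 2)) :=
  {w | ∃ ys zs : List (List (Fin (m + 2))), ∃ x ∈ X, (∀ y ∈ ys, y ∈ Y) ∧ (∀ z ∈ zs, z ∈ Y) ∧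
    w = blocks m ys ++ (hash m ++ enc m x) ++ blocks m zs ++ hash m}

/-! ### Auxiliary definitions -/

/-- The polynomial closure, inductively: least family containing `C`, closed under product and
union. -/
inductive Pol (C : Set (Lang A)) : Lang A → Prop
  | base {L : Lang A} : L ∈ C → Pol C L
  | cat {K L : Lang A} : Pol C K → Pol C L → Pol C (cat K L)
  | union {K L : Lang A} : Pol C K → Pol C L → Pol C (K ∪ L)

/-- Two-sided quotient, after the extension `ext ψ`. -/
def iq (ψ : A' → List A) (u v : List A) (L : Lang A) : Lang A' := {w | u ++ ext ψ w ++ v ∈ L}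

/-- The pumping property which implies the collapse. -/
def PumpSep (L : Lang A) : Prop :=
  ∀ v ∈ L, ∃ y z : List A, ∀ N : ℕ, pw (v ++ y) N ++ z ∈ L ∧
    ∀ u, u ∉ L → pw (v ++ y) N ++ (u ++ y) ++ pw (v ++ y) N ++ z ∉ L

/-- The image of a language under the extension. -/
def img (ψ : A' → List A) (L : Lang A') : Lang A := {w | ∃ x ∈ L, w = ext ψ x}

/-- Uniform codes in which no nonempty proper suffix of a code word is a prefix of a code word. -/
structure GoodCode (ψ : A' → List A) (l : ℕ) : Prop where
  pos : 1 ≤ l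
  len : ∀ a, (ψ a).length = l
  inj : Function.Injective ψ
  nov : ∀ (a b : A') (p r s : List A), p ≠ [] → r ≠ [] → ψ a = p ++ r → ψ b = r ++ s → False

/-- Tokens: a letter, or `none` for any word. -/
def tokLang : List (Option A) → Lang A
  | [] => {[]}
  | some a :: t => {w | ∃ v ∈ tokLang t, w = a :: v}
  | none :: t => {w | ∃ u v, v ∈ tokLang t ∧ w = u ++ v}

/-- The image of a token list: letters are replaced by code words. -/
def tokImg (ψ : A' → List A) : List (Option A') → List (Option A)
  | [] => []
  | some a :: t => (ψ a).map some ++ tokImg ψ t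
  | none :: t => none :: tokImg ψ t

/-! ### First facts -/

theorem ext_nil (ψ : A' → List A) : ext ψ [] = [] := rfl

theorem ext_cons (ψ : A' → List A) (a : A') (w : List A') : ext ψ (a :: w) = ψ a ++ ext ψ w := by
  simp [ext]

theorem ext_append (ψ : A' → List A) (v w : List A') : ext ψ (v ++ w) = ext ψ v ++ ext ψ w := by
  simp [ext]

theorem ext_single (w : List A) : ext (fun a : A => [a]) w = w := by
  induction w with
  | nil => rfl
  | cons a w ih => rw [ext_cons, ih]; rfl

theorem mem_cat {K L : Lang A} {w : List A} : w ∈ cat K L ↔ ∃ x ∈ K, ∃ y ∈ L, w = x ++ y := Iff.rfl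

theorem append_mem_cat {K L : Lang A} {x y : List A} (hx : x ∈ K) (hy : y ∈ L) :
    x ++ y ∈ cat K L := ⟨x, hx, y, hy, rfl⟩

theorem mem_iq {ψ : A' → List A} {u v : List A} {L : Lang A} {w : List A'} :
    w ∈ iq ψ u v L ↔ u ++ ext ψ w ++ v ∈ L := Iff.rfl

theorem empty_mem_B (i : ℕ) : (∅ : Lang A) ∈ B A i :=
  B_mono (Nat.zero_le i) (Or.inl Set.finite_empty)

theorem univ_mem_B (i : ℕ) : (Set.univ : Lang A) ∈ B A i := by
  have h := B_compl (empty_mem_B (A := A) i)
  simpa using h

theorem finite_mem_B {L : Lang A} (h : L.Finite) (i : ℕ) : L ∈ B A i :=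
  B_mono (Nat.zero_le i) (Or.inl h)

theorem B_union {i : ℕ} {K L : Lang A} (hK : K ∈ B A i) (hL : L ∈ B A i) : K ∪ L ∈ B A i := by
  cases i with
  | zero =>
      rcases hK with hK | hK
      · rcases hL with hL | hL
        · exact Or.inl (hK.union hL)
        · exact Or.inr (hL.subset (by
            intro w hw hwL
            exact hw (Or.inr hwL)))
      · exact Or.inr (hK.subset (by
            intro w hw hwK
            exact hw (Or.inl hwK)))
  | succ i => exact BoolCl.union hK hL

theorem B_inter {i : ℕ} {K L : Lang A} (hK : K ∈ B A i) (hL : L ∈ B A i) : K ∩ L ∈ B A i := by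
  have h := B_compl (B_union (B_compl hK) (B_compl hL))
  have e : (Kᶜ ∪ Lᶜ)ᶜ = K ∩ L := by
    rw [Set.compl_union, compl_compl, compl_compl]
  rwa [e] at h

end Pool.Agent.HLV
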