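import Pool.Agent.HLV.Thr

/-!
# HLV-DevF: the device for `opF`

Let `K = langC (m + 2) c`.  Invariant `Inv c w (V.runM c w)`, `V = devF m`, by induction on `w` from the
right (`Dev.runM_nil`, `Dev.runM_snoc`):
* `none`: `w ∉ opF K`;
* `some (q, (t, s))`: `w ∈ opF K`, `s = sfx (m + 7) w`, and
  either `t = none` and there is no `v`, `κ < m + 7` with `Th m w v κ`,
  or `t = some κ` and `Th m w v κ`, `q = runC c v` for some `v`.
Step (`w ++ [a]`; `s' = sfx (m + 7) (sfx (m + 7) w ++ [a]) = sfx (m + 7) (w ++ [a])` by `sfx_snoc`;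
`s' = hash m ↔ hash m <:+ w ++ [a]` and `s' = cw .. ↔ cw .. <:+ w ++ [a]` by `sfx_eq_iff`, `dcd_some`):
* dead: `w ∉ opF K → w ++ [a] ∉ opF K` (`opF_snoc`).
* no thread, `s' = hash`: `Th (w ++ [a]) [] 0` (`th_start`), reset.  `w ++ [a] ∈ opF K` by `opF_snoc`
  (there is no `u` with `Th m w u (m + 6)`).
* no thread, `s' ≠ hash`: no `Th (w ++ [a]) v κ`: `κ = κ' + 1`: `th_succ`; `κ = 0`: `v = []`:
  `th_start`; `v = v' ++ [b]`: `th_zero`.
* thread `(v, κ)`, `κ + 1 < m + 7`: `th_succ`; `opF_snoc`: `Th m w u (m + 6)` would contradict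
  `th_unique`.
* thread `(v, m + 6)`: if `s' = hash`: `opF_snoc` and `th_unique`: `w ++ [a] ∈ opF K` iff `v ∈ K`, i.e.
  iff `q ∈ c.2`; if `s' = cw b`: `th_zero`, `runC_snoc`; otherwise no thread (as above, `th_unique`
  is not needed: `Th (w ++ [a]) v' 0` with `v' = []` means `s' = hash`, with `v' = v'' ++ [b]` it
  means `s' = cw b`; and `Th (w ++ [a]) v' (κ' + 1)`, `κ' + 1 < m + 7`, gives `Th w v' κ'`, so
  `κ' = m + 6` by `th_unique`: contradiction).
Note that `hash m` is not one of the code words `cw m (m + 3) b` with `b < m + 2` (`cw_inj`).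
-/

namespace Pool.Agent.HLV

open Pool.Agent.DD

private def Inv (m : ℕ) (c : Code) (w : List (Fin (m + 2))) :
    Option (ℕ × (Option (Fin (m + 7)) × {s : List (Fin (m + 2)) // s.length ≤ m + 7})) → Prop
  | none => w ∉ opF (langC (m + 2) c)
  | some (q, (t, s)) => w ∈ opF (langC (m + 2) c) ∧ s.1 = sfx (m + 7) w ∧
      ((t = none ∧ ∀ v κ, κ < m + 7 → ¬ Th m w v κ) ∨
        ∃ κ v, t = some κ ∧ Th m w v κ.val ∧ q = runC c v)

private theorem hash_length (m : ℕ) : (hash m).length = m + 7 := by
  have h := cw_length (m := m) (M := m + 3) (a := m + 2) (by omega)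
  exact h

private theorem hash_ne (m : ℕ) (b : Fin (m + 2)) : hash m ≠ cw m (m + 3) b.val := by
  intro h
  have h1 := cw_inj (m := m) (M := m + 3) (a := m + 2) (b := b.val) (by omega)
    (by have := b.isLt; omega) h
  have := b.isLt
  omega

private theorem inv_nil (m : ℕ) (c : Code) : Inv m c [] ((devF m).runM c []) := by
  rw [Dev.runM_nil]
  refine ⟨?_, by simp [sfx, devF], Or.inl ⟨rfl, fun v κ _ => th_nil⟩⟩
  intro u _ h
  have h1 := h.length_le
  rw [List.length_append, hash_length] at h1
  simp at h1

private theorem inv_step (m : ℕ) (c : Code) (w : List (Fin (m + 2))) (a : Fin (m + 2))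
    (h : Inv m c w ((devF m).runM c w)) : Inv m c (w ++ [a]) ((devF m).runM c (w ++ [a])) := by
  rw [Dev.runM_snoc]
  generalize (devF m).runM c w = X at h
  rcases X with _ | ⟨q, t, s⟩
  · intro h1
    exact h (opF_snoc.1 h1).1
  · obtain ⟨hw, hs, ht⟩ := h
    have hs' : sfx (m + 7) (s.1 ++ [a]) = sfx (m + 7) (w ++ [a]) := by
      rw [hs, ← sfx_snoc (by omega)]
    have hH : sfx (m + 7) (s.1 ++ [a]) = hash m ↔ hash m <:+ w ++ [a] := by
      rw [hs']
      exact sfx_eq_iff (hash_length m)
    have hC : ∀ b : Fin (m + 2), sfx (m + 7) (s.1 ++ [a]) = cw m (m + 3) b.val ↔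
        cw m (m + 3) b.val <:+ w ++ [a] := by
      intro b
      rw [hs']
      exact sfx_eq_iff (cw_length (by have := b.isLt; omega))
    rcases ht with ⟨rfl, hno⟩ | ⟨κ, v, rfl, hth, hq⟩
    · have hop : w ++ [a] ∈ opF (langC (m + 2) c) :=
        opF_snoc.2 ⟨hw, fun u hu => absurd hu (hno u (m + 6) (by omega))⟩
      by_cases hh : sfx (m + 7) (s.1 ++ [a]) = hash m
      · have e : (devF m).stepM c (some (q, (none, s))) a =
            some (0, (some 0, ⟨sfx (m + 7) (s.1 ++ [a]), sfx_length _ _⟩)) := by
          simp [Dev.stepM, devF, hh]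
        rw [e]
        exact ⟨hop, hs', Or.inr ⟨0, [], rfl, th_start.2 (hH.1 hh), rfl⟩⟩
      · have e : (devF m).stepM c (some (q, (none, s))) a =
            some (q, (none, ⟨sfx (m + 7) (s.1 ++ [a]), sfx_length _ _⟩)) := by
          simp [Dev.stepM, devF, hh]
        rw [e]
        refine ⟨hop, hs', Or.inl ⟨rfl, ?_⟩⟩
        intro v κ hκ hT
        rcases κ with _ | κ
        · rcases List.eq_nil_or_concat v with rfl | ⟨v', b, rfl⟩
          · exact hh (hH.2 (th_start.1 hT))
          · rw [List.concat_eq_append] at hT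
            exact hno v' (m + 6) (by omega) (th_zero.1 hT).1
        · exact hno v κ (by omega) (th_succ.1 hT)
    · by_cases hk : κ.val + 1 < m + 7
      · have e : (devF m).stepM c (some (q, (some κ, s))) a =
            some (q, (some ⟨κ.val + 1, hk⟩, ⟨sfx (m + 7) (s.1 ++ [a]), sfx_length _ _⟩)) := by
          have hk' : κ.val < m + 6 := by omega
          simp [Dev.stepM, devF, hk']
        rw [e]
        refine ⟨opF_snoc.2 ⟨hw, fun u hu => ?_⟩, hs', Or.inr ⟨⟨κ.val + 1, hk⟩, v, rfl,
          th_succ.2 hth, hq⟩⟩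
        have := (th_unique hu hth (by omega) κ.isLt).2
        omega
      · have hk' : κ.val = m + 6 := by
          have := κ.isLt
          omega
        have hk'' : ¬ κ.val < m + 6 := by omega
        rw [hk'] at hth
        by_cases hh : sfx (m + 7) (s.1 ++ [a]) = hash m
        · by_cases hqc : q ∈ c.2
          · have e : (devF m).stepM c (some (q, (some κ, s))) a =
                some (0, (some 0, ⟨sfx (m + 7) (s.1 ++ [a]), sfx_length _ _⟩)) := by
              simp [Dev.stepM, devF, hh, hk'', hqc]
            rw [e]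
            refine ⟨opF_snoc.2 ⟨hw, fun u hu _ => ?_⟩, hs', Or.inr ⟨0, [], rfl,
              th_start.2 (hH.1 hh), rfl⟩⟩
            rw [(th_unique hu hth (by omega) (by omega)).1]
            show runC c v ∈ c.2
            rw [← hq]
            exact hqc
          · have e : (devF m).stepM c (some (q, (some κ, s))) a = none := by
              simp [Dev.stepM, devF, hh, hk'', hqc]
            rw [e]
            intro h1
            have h2 : runC c v ∈ c.2 := (opF_snoc.1 h1).2 v hth (hH.1 hh)
            rw [← hq] at h2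
            exact hqc h2
        · have hop : w ++ [a] ∈ opF (langC (m + 2) c) :=
            opF_snoc.2 ⟨hw, fun u _ hu => absurd (hH.2 hu) hh⟩
          rcases hd : dcd (m + 2) m (m + 3) (sfx (m + 7) (s.1 ++ [a])) with _ | b
          · have e : (devF m).stepM c (some (q, (some κ, s))) a =
                some (q, (none, ⟨sfx (m + 7) (s.1 ++ [a]), sfx_length _ _⟩)) := by
              simp [Dev.stepM, devF, hh, hk'', hd]
            rw [e]
            refine ⟨hop, hs', Or.inl ⟨rfl, ?_⟩⟩
            intro v' κ' hκ' hT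
            rcases κ' with _ | κ'
            · rcases List.eq_nil_or_concat v' with rfl | ⟨v'', b, rfl⟩
              · exact hh (hH.2 (th_start.1 hT))
              · rw [List.concat_eq_append] at hT
                exact dcd_none.1 hd b ((hC b).2 (th_zero.1 hT).2)
            · have := (th_unique (th_succ.1 hT) hth (by omega) (by omega)).2
              omega
          · have e : (devF m).stepM c (some (q, (some κ, s))) a =
                some (stepC c q b.val, (some 0, ⟨sfx (m + 7) (s.1 ++ [a]), sfx_length _ _⟩)) := by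
              simp [Dev.stepM, devF, hh, hk'', hd]
            rw [e]
            have hb : sfx (m + 7) (s.1 ++ [a]) = cw m (m + 3) b.val :=
              (dcd_some (by omega)).1 hd
            refine ⟨hop, hs', Or.inr ⟨0, v ++ [b], rfl, th_zero.2 ⟨hth, (hC b).1 hb⟩, ?_⟩⟩
            rw [runC_snoc, hq]

/-- Main result of this module. -/
theorem devF_lang (m : ℕ) (c : Code) : (devF m).langM c = opF (langC (m + 2) c) := by
  have hI : ∀ w, Inv m c w ((devF m).runM c w) := by
    intro w
    induction w using List.reverseRecOn with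
    | nil => exact inv_nil m c
    | append_singleton w a ih => exact inv_step m c w a ih
  ext w
  have h := hI w
  show (devF m).AccM c ((devF m).runM c w) ↔ _
  generalize (devF m).runM c w = X at h
  rcases X with _ | ⟨q, t, s⟩
  · constructor
    · intro h1
      exact h1.elim
    · intro h1
      exact absurd h1 h
  · constructor
    · intro _
      exact h.1
    · intro _
      exact Or.inl rfl

end Pool.Agent.HLV
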