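import Pool.Agent.HLV.Thr

/-!
# HLV-DevI: the devices for the image under `code M m` and for the complement

`devI`: let `l = M + 4`.  Invariant, by induction on `w` from the right (`V = devI M m`):
`V.runM c w = some (q, t)` (never dead, since `act` is never `2`), and
* `t = none`: there are no `v : List (Fin M)`, `r` with `|r| < l`, `w = code M m v ++ r`;
* `t = some r`: `w = code M m v ++ r`, `q = runC c v` for some `v`.
The decomposition `w = code M m v ++ r`, `|r| < l`, is unique: `|w| = |v| * l + |r|`
(`ext_length`, `good_code`), so `|v|`, `|r|` are determined, and `ext_inj`.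
Step: if `w ++ [a] = code M m v ++ r`, `|r| < l`: either `r ≠ []`, then remove the last letter; or
`r = []`, `v = v' ++ [b]`, `w = code M m v' ++ r'` where `cw m M b = r' ++ [a]`.  (`dcd_some`.)
Acceptance: `r = []` and `q = runC c v ∈ c.2`.

`devC_lang`: `V.runM c w = some (runC c w, ())` by induction.
-/

namespace Pool.Agent.HLV

open Pool.Agent.DD

private theorem code_snoc (M m : ℕ) (v : List (Fin M)) (b : Fin M) :
    code M m (v ++ [b]) = code M m v ++ cw m M b.val := by
  unfold code
  rw [ext_append, ext_cons, ext_nil, List.append_nil]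

private theorem code_len (M m : ℕ) (v : List (Fin M)) :
    (code M m v).length = v.length * (M + 4) := ext_length (good_code M m) v

private theorem code_uniq {M m : ℕ} {v v' : List (Fin M)} {r r' : List (Fin (m + 2))}
    (hr : r.length < M + 4) (hr' : r'.length < M + 4)
    (e : code M m v ++ r = code M m v' ++ r') : v = v' ∧ r = r' := by
  have h1 := congrArg List.length e
  rw [List.length_append, List.length_append, code_len, code_len] at h1
  have h2 : v.length = v'.length := by
    have h3 : (v.length * (M + 4) + r.length) / (M + 4) = v.length := by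
      rw [Nat.mul_comm, Nat.mul_add_div (by omega), Nat.div_eq_of_lt hr, Nat.add_zero]
    have h4 : (v'.length * (M + 4) + r'.length) / (M + 4) = v'.length := by
      rw [Nat.mul_comm, Nat.mul_add_div (by omega), Nat.div_eq_of_lt hr', Nat.add_zero]
    rw [← h3, ← h4, h1]
  obtain ⟨h5, h6⟩ := List.append_inj e (by rw [code_len, code_len, h2])
  exact ⟨ext_inj (good_code M m) h5, h6⟩

private theorem code_back {M m : ℕ} {v : List (Fin M)} {r w : List (Fin (m + 2))} {a : Fin (m + 2)}
    (hr : r.length < M + 4) (e : w ++ [a] = code M m v ++ r) :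
    ∃ (v' : List (Fin M)) (r' : List (Fin (m + 2))), r'.length < M + 4 ∧ w = code M m v' ++ r' := by
  rcases List.eq_nil_or_concat r with h0 | ⟨r', x, h0⟩
  · rcases List.eq_nil_or_concat v with h1 | ⟨v', b, h1⟩
    · rw [h0, h1] at e
      have h2 := congrArg List.length e
      rw [List.length_append, List.length_append, code_len] at h2
      simp at h2
    · rw [h0, h1, List.concat_eq_append, code_snoc, List.append_nil] at e
      have hl : (cw m M b.val).length = M + 4 := cw_length b.isLt
      rcases List.eq_nil_or_concat (cw m M b.val) with h2 | ⟨r', x, h2⟩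
      · rw [h2] at hl
        simp at hl
      · rw [h2, List.concat_eq_append, ← List.append_assoc] at e
        have h3 := List.append_inj' e rfl
        refine ⟨v', r', ?_, h3.1⟩
        rw [h2, List.concat_eq_append, List.length_append, List.length_singleton] at hl
        omega
  · rw [h0, List.concat_eq_append, ← List.append_assoc] at e
    have h3 := List.append_inj' e rfl
    refine ⟨v, r', ?_, h3.1⟩
    rw [h0, List.concat_eq_append, List.length_append, List.length_singleton] at hr
    omega

section
variable {M m : ℕ} {r : {r : List (Fin (m + 2)) // r.length < M + 4}} {a : Fin (m + 2)}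

private theorem act_lt (h : (r.1 ++ [a]).length < M + 4) : (devI M m).act (some r) a = 0 :=
  if_pos h

private theorem next_lt (h : (r.1 ++ [a]).length < M + 4) :
    (devI M m).next (some r) a = some ⟨r.1 ++ [a], h⟩ := dif_pos h

private theorem act_some (h : ¬ (r.1 ++ [a]).length < M + 4) {b : Fin M}
    (hb : dcd M m M (r.1 ++ [a]) = some b) : (devI M m).act (some r) a = b.val + 3 := by
  refine (if_neg h).trans ?_
  rw [hb]

private theorem next_some (h : ¬ (r.1 ++ [a]).length < M + 4) {b : Fin M}
    (hb : dcd M m M (r.1 ++ [a]) = some b) :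
    (devI M m).next (some r) a = some ⟨[], by simp⟩ := by
  refine (dif_neg h).trans ?_
  rw [hb]
  rfl

private theorem act_none (h : ¬ (r.1 ++ [a]).length < M + 4)
    (hb : dcd M m M (r.1 ++ [a]) = none) : (devI M m).act (some r) a = 0 := by
  refine (if_neg h).trans ?_
  rw [hb]

private theorem next_none (h : ¬ (r.1 ++ [a]).length < M + 4)
    (hb : dcd M m M (r.1 ++ [a]) = none) :
    (devI M m).next (some r) a = none := by
  refine (dif_neg h).trans ?_
  rw [hb]
  rfl

end

private theorem step_zero {D : Type} {k : ℕ} (V : Dev D k) (c : Code) (q : ℕ) (d : D) (a : Fin k)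
    (h : V.act d a = 0) : V.stepM c (some (q, d)) a = some (q, V.next d a) := by
  simp only [Dev.stepM]
  rw [if_pos h]

private theorem step_read {D : Type} {k : ℕ} (V : Dev D k) (c : Code) (q : ℕ) (d : D) (a : Fin k)
    (b : ℕ) (h : V.act d a = b + 3) :
    V.stepM c (some (q, d)) a = some (stepC c q b, V.next d a) := by
  simp only [Dev.stepM]
  rw [h, if_neg (by omega), if_neg (by omega), if_neg (by omega), Nat.add_sub_cancel]

private theorem devI_inv (M m : ℕ) (c : Code) (w : List (Fin (m + 2))) :
    ∃ q, ((devI M m).runM c w = some (q, none) ∧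
        ¬ ∃ (v : List (Fin M)) (r : List (Fin (m + 2))), r.length < M + 4 ∧ w = code M m v ++ r) ∨
      ∃ r : {r : List (Fin (m + 2)) // r.length < M + 4},
        (devI M m).runM c w = some (q, some r) ∧
          ∃ v, w = code M m v ++ r.1 ∧ q = runC c v := by
  induction w using List.reverseRecOn with
  | nil => exact ⟨0, Or.inr ⟨⟨[], by simp⟩, rfl, [], rfl, rfl⟩⟩
  | append_singleton w a ih =>
    obtain ⟨q, ⟨h1, h2⟩ | ⟨r, h1, v, h2, h3⟩⟩ := ih
    · refine ⟨q, Or.inl ⟨?_, ?_⟩⟩
      · rw [Dev.runM_snoc, h1]
        exact step_zero _ c q none a rfl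
      · rintro ⟨v, r, hr, e⟩
        exact h2 (code_back hr e)
    · by_cases hl : (r.1 ++ [a]).length < M + 4
      · refine ⟨q, Or.inr ⟨⟨r.1 ++ [a], hl⟩, ?_, v, ?_, h3⟩⟩
        · rw [Dev.runM_snoc, h1, step_zero _ c q (some r) a (act_lt hl), next_lt hl]
        · rw [h2, List.append_assoc]
      · have hr := r.2
        have hla : (r.1 ++ [a]).length = M + 4 := by
          rw [List.length_append, List.length_singleton] at hl ⊢
          omega
        rcases hd : dcd M m M (r.1 ++ [a]) with _ | b
        · refine ⟨q, Or.inl ⟨?_, ?_⟩⟩
          · rw [Dev.runM_snoc, h1, step_zero _ c q (some r) a (act_none hl hd), next_none hl hd]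
          · rintro ⟨v', r', hr', e⟩
            rw [h2, List.append_assoc] at e
            have e1 := congrArg List.length e
            rw [List.length_append, hla, List.length_append, code_len, code_len] at e1
            have e2 : v.length + 1 = v'.length := by
              have e3 : (v.length * (M + 4) + (M + 4)) / (M + 4) = v.length + 1 := by
                rw [← Nat.succ_mul]
                exact Nat.mul_div_cancel _ (by omega)
              have e4 : (v'.length * (M + 4) + r'.length) / (M + 4) = v'.length := by
                rw [Nat.mul_comm, Nat.mul_add_div (by omega), Nat.div_eq_of_lt hr', Nat.add_zero]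
              rw [← e3, ← e4, e1]
            have e5 : r'.length = 0 := by
              rw [← e2, Nat.succ_mul] at e1
              omega
            have e6 : r' = [] := List.eq_nil_of_length_eq_zero e5
            rcases List.eq_nil_or_concat v' with e7 | ⟨v'', b, e7⟩
            · rw [e7] at e2
              simp at e2
            · rw [e6, List.append_nil, e7, List.concat_eq_append, code_snoc] at e
              have e8 := List.append_inj' e (by rw [hla, cw_length b.isLt])
              exact (dcd_none.1 hd) b e8.2
        · refine ⟨stepC c q b.val, Or.inr ⟨⟨[], by simp⟩, ?_, v ++ [b], ?_, ?_⟩⟩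
          · rw [Dev.runM_snoc, h1, step_read _ c q (some r) a b.val (act_some hl hd), next_some hl hd]
          · rw [h2, List.append_assoc, (dcd_some le_rfl).1 hd, code_snoc, List.append_nil]
          · rw [runC_snoc, h3]

/-- Main result 1. -/
theorem devI_lang (M m : ℕ) (c : Code) :
    (devI M m).langM c = {w | ∃ v ∈ langC M c, w = code M m v} := by
  have hacc : ∀ (q : ℕ) (r : {r : List (Fin (m + 2)) // r.length < M + 4}),
      (devI M m).AccM c (some (q, some r)) ↔ (r.1 = [] ∧ q ∈ c.2) := by
    intro q r
    by_cases hr : r.1 = []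
    · have h1 : (devI M m).out (some r) = 2 := if_pos hr
      simp only [Dev.AccM, h1]
      simp [hr]
    · have h1 : (devI M m).out (some r) = 0 := if_neg hr
      simp only [Dev.AccM, h1]
      simp [hr]
  have hacc0 : ∀ q : ℕ, ¬ (devI M m).AccM c (some (q, none)) := by
    intro q
    have h1 : (devI M m).out none = 0 := rfl
    simp only [Dev.AccM, h1]
    simp
  ext w
  have hw : w ∈ (devI M m).langM c ↔ (devI M m).AccM c ((devI M m).runM c w) := Iff.rfl
  rw [hw]
  obtain ⟨q, ⟨h1, h2⟩ | ⟨r, h1, v, h2, h3⟩⟩ := devI_inv M m c w
  · rw [h1]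
    constructor
    · intro h
      exact absurd h (hacc0 q)
    · rintro ⟨v, -, hv⟩
      exact absurd ⟨v, [], by simp, by rw [List.append_nil]; exact hv⟩ h2
  · rw [h1, hacc]
    constructor
    · rintro ⟨h4, h5⟩
      refine ⟨v, ?_, ?_⟩
      · show runC c v ∈ c.2
        rw [← h3]
        exact h5
      · rw [h2, h4, List.append_nil]
    · rintro ⟨v', hv', e⟩
      have h6 : code M m v ++ r.1 = code M m v' ++ [] := by
        rw [← h2, e, List.append_nil]
      obtain ⟨h7, h8⟩ := code_uniq r.2 (by simp) h6
      refine ⟨h8, ?_⟩
      rw [h3, h7]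
      exact hv'

/-- Main result 2. -/
theorem devC_lang (k : ℕ) (c : Code) : (devC k).langM c = (langC k c)ᶜ := by
  have hinv : ∀ w : List (Fin k), (devC k).runM c w = some (runC c w, ()) := by
    intro w
    induction w using List.reverseRecOn with
    | nil => rfl
    | append_singleton w a ih =>
      rw [Dev.runM_snoc, ih, step_read _ c (runC c w) () a a.val rfl, runC_snoc]
  ext w
  have hw : w ∈ (devC k).langM c ↔ (devC k).AccM c ((devC k).runM c w) := Iff.rfl
  rw [hw, hinv]
  have h1 : (devC k).out () = 3 := rfl
  simp only [Dev.AccM, h1]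
  have h2 : w ∈ (langC k c)ᶜ ↔ runC c w ∉ c.2 := Iff.rfl
  rw [h2]
  simp

end Pool.Agent.HLV
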