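import Pool.Agent.HLV.PolB

/-!
# HLV-Inv: closure under inverse images and quotients

`iq ψ u v L = {w | u ++ ext ψ w ++ v ∈ L}`; `ψ` maps letters to NONEMPTY words.

Plan.
* `iq_B_zero`: if `L` is finite, the words of `iq ψ u v L` have bounded length (`|ext ψ w| ≥ |w|`),
  and there are finitely many words of bounded length over the finite alphabet `A'`
  (`List.finite_length_le` / `List.finite_length_lt`); cofinite: complement
  (`(iq ψ u v L)ᶜ = iq ψ u v Lᶜ`).
* `iq_pol` (the product step).  Hypothesis: all `iq ψ u v L`, `L ∈ B A i`, are in `B A' i`.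
  Induction on `Pol`; for `cat K L`: `u ++ ext ψ w ++ v = x ++ y` with `x ∈ K`, `y ∈ L`; the cut is
  (a) inside `u`: `u = u' ++ u''`, `u' ∈ K`: `w ∈ iq ψ u'' v L` (finitely many `u'`: prefixes,
      `List.inits`/`(List.range (u.length+1))` with `u.take k`, `u.drop k`);
  (b) inside `v`: `v = v' ++ v''`, `v'' ∈ L`: `w ∈ iq ψ u v' K`;
  (c) at a boundary of `ext ψ w`: `w ∈ cat (iq ψ u [] K) (iq ψ [] v L)`;
  (d) inside the image of a letter `c` of `w`, at position `k < |ψ c|`:
      `w ∈ cat (iq ψ u ((ψ c).take k) K) (cat {[c]} (iq ψ ((ψ c).drop k) v L))`.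
  So `iq ψ u v (cat K L)` is a finite union of polynomials (`{[c]}` is finite, so in every level).
  A convenient lemma: if `ext ψ w = p ++ q` then `w = w₁ ++ w₂` with `p = ext ψ w₁`, `q = ext ψ w₂`,
  or `w = w₁ ++ c :: w₂`, `p = ext ψ w₁ ++ (ψ c).take k`, `q = (ψ c).drop k ++ ext ψ w₂`, `k < |ψ c|`.
* `iq_B`: induction on `i`; step: induction on `BoolCl`; base: `pol_of_monCl`, `iq_pol`, `pol_sub_B`.
-/

namespace Pool.Agent.HLV

open Pool.Agent.DD

variable {A A' : Type}

theorem Invx.length_le_ext {ψ : A' → List A} (hψ : ∀ a, ψ a ≠ []) (w : List A') :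
    w.length ≤ (ext ψ w).length := by
  induction w with
  | nil => simp
  | cons a w ih =>
      rw [ext_cons, List.length_append, List.length_cons]
      have := List.length_pos_iff.2 (hψ a)
      omega

theorem Invx.iq_B_zero_fin [Finite A'] {ψ : A' → List A} (hψ : ∀ a, ψ a ≠ []) {L : Lang A}
    (h : L.Finite) (u v : List A) : (iq ψ u v L).Finite := by
  obtain ⟨N, hN⟩ : ∃ N, ∀ x ∈ L, x.length ≤ N := by
    obtain ⟨N, hN⟩ := (h.image List.length).bddAbove
    exact ⟨N, fun x hx => hN ⟨x, hx, rfl⟩⟩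
  refine (List.finite_length_le A' N).subset ?_
  intro w hw
  have h1 := hN _ hw
  have h2 := Invx.length_le_ext hψ w
  simp only [List.length_append] at h1
  simp only [Set.mem_ofPred_eq]
  omega

theorem iq_B_zero [Finite A'] {ψ : A' → List A} (hψ : ∀ a, ψ a ≠ []) {L : Lang A}
    (h : L ∈ B A 0) (u v : List A) : iq ψ u v L ∈ B A' 0 := by
  rcases h with h | h
  · exact Or.inl (Invx.iq_B_zero_fin hψ h u v)
  · exact Or.inr (Invx.iq_B_zero_fin hψ h u v)

theorem Invx.ext_split {ψ : A' → List A} (w : List A') : ∀ p q : List A, ext ψ w = p ++ q →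
    (∃ w₁ w₂, w = w₁ ++ w₂ ∧ p = ext ψ w₁ ∧ q = ext ψ w₂) ∨
    (∃ w₁ c w₂ k, w = w₁ ++ c :: w₂ ∧ k < (ψ c).length ∧ p = ext ψ w₁ ++ (ψ c).take k ∧
      q = (ψ c).drop k ++ ext ψ w₂) := by
  induction w with
  | nil =>
      intro p q h
      rw [ext_nil] at h
      have h1 := List.nil_eq_append_iff.1 h
      exact Or.inl ⟨[], [], rfl, h1.1, h1.2⟩
  | cons a w ih =>
      intro p q h
      rw [ext_cons, List.append_eq_append_iff] at h
      rcases h with ⟨t, h1, h2⟩ | ⟨t, h1, h2⟩
      · rcases ih t q h2 with ⟨w₁, w₂, e1, e2, e3⟩ | ⟨w₁, c, w₂, k, e1, e2, e3, e4⟩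
        · refine Or.inl ⟨a :: w₁, w₂, by rw [e1]; rfl, by rw [h1, e2, ext_cons], e3⟩
        · refine Or.inr ⟨a :: w₁, c, w₂, k, by rw [e1]; rfl, e2, ?_, e4⟩
          rw [h1, e3, ext_cons, List.append_assoc]
      · rcases eq_or_ne t [] with rfl | ht
        · refine Or.inl ⟨[a], w, rfl, ?_, by simpa using h2⟩
          rw [ext_cons, ext_nil, List.append_nil]
          simpa using h1.symm
        · refine Or.inr ⟨[], a, w, p.length, rfl, ?_, ?_, ?_⟩
          · rw [h1, List.length_append]
            have := List.length_pos_iff.2 ht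
            omega
          · rw [h1, ext_nil, List.nil_append, List.take_left']
            rfl
          · rw [h1, List.drop_left', h2]
            rfl

theorem Invx.iq_cat (ψ : A' → List A) (u v : List A) (K L : Lang A) :
    iq ψ u v (cat K L) =
      {w | ∃ k ∈ List.range (u.length + 1), w ∈ {w | u.take k ∈ K ∧ w ∈ iq ψ (u.drop k) v L}} ∪
      {w | ∃ k ∈ List.range (v.length + 1), w ∈ {w | v.drop k ∈ L ∧ w ∈ iq ψ u (v.take k) K}} ∪
      cat (iq ψ u [] K) (iq ψ [] v L) ∪
      {w | ∃ c : A', w ∈ {w | ∃ k ∈ List.range (ψ c).length, w ∈ cat (iq ψ u ((ψ c).take k) K)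
        (cat {[c]} (iq ψ ((ψ c).drop k) v L))}} := by
  ext w
  constructor
  · rintro ⟨x, hx, y, hy, h⟩
    rw [List.append_eq_append_iff] at h
    rcases h with ⟨t, h1, h2⟩ | ⟨t, h1, h2⟩
    · refine Or.inl (Or.inl (Or.inr ⟨t.length, ?_, ?_, ?_⟩))
      · rw [h2, List.mem_range, List.length_append]
        omega
      · rw [h2, List.drop_left']
        · exact hy
        · rfl
      · rw [mem_iq, h2, List.take_left']
        · rw [← h1]
          exact hx
        · rfl
    · rw [List.append_eq_append_iff] at h1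
      rcases h1 with ⟨s, h3, h4⟩ | ⟨s, h3, h4⟩
      · rcases Invx.ext_split w s t h4 with ⟨w₁, w₂, e1, e2, e3⟩ | ⟨w₁, c, w₂, k, e1, e2, e3, e4⟩
        · refine Or.inl (Or.inr ⟨w₁, ?_, w₂, ?_, e1⟩)
          · rw [mem_iq, List.append_nil, ← e2, ← h3]
            exact hx
          · rw [mem_iq, List.nil_append, ← e3, ← h2]
            exact hy
        · refine Or.inr ⟨c, k, List.mem_range.2 e2, w₁, ?_, c :: w₂, ⟨[c], rfl, w₂, ?_, rfl⟩, e1⟩
          · rw [mem_iq, List.append_assoc, ← e3, ← h3]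
            exact hx
          · rw [mem_iq, ← e4, ← h2]
            exact hy
      · refine Or.inl (Or.inl (Or.inl ⟨x.length, ?_, ?_, ?_⟩))
        · rw [h3, List.mem_range, List.length_append]
          omega
        · rw [h3, List.take_left']
          · exact hx
          · rfl
        · rw [mem_iq, h3, List.drop_left']
          · rw [← h4, ← h2]
            exact hy
          · rfl
  · rintro (((⟨k, _, h1, h2⟩ | ⟨k, _, h1, h2⟩) | ⟨w₁, h1, w₂, h2, e⟩) |
      ⟨c, k, _, w₁, h1, w₂', ⟨c', hc, w₂, h2, e'⟩, e⟩)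
    · refine ⟨u.take k, h1, _, h2, ?_⟩
      rw [← List.append_assoc, ← List.append_assoc, List.take_append_drop]
    · refine ⟨_, h2, v.drop k, h1, ?_⟩
      rw [List.append_assoc, List.append_assoc, List.append_assoc, List.take_append_drop]
    · refine ⟨_, h1, _, h2, ?_⟩
      rw [e, ext_append]
      simp [List.append_assoc]
    · have hc' : c' = [c] := hc
      subst hc'
      refine ⟨_, h1, _, h2, ?_⟩
      rw [e, e', ext_append]
      have h3 : ext ψ ([c] ++ w₂) = ψ c ++ ext ψ w₂ := ext_cons ψ c w₂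
      rw [h3]
      conv_lhs => rw [← List.take_append_drop k (ψ c)]
      simp only [List.append_assoc]

theorem iq_pol_of [Finite A'] {ψ : A' → List A} (hψ : ∀ a, ψ a ≠ []) {i : ℕ}
    (hB : ∀ L ∈ B A i, ∀ u v : List A, iq ψ u v L ∈ B A' i) {L : Lang A} (h : Pol (B A i) L)
    (u v : List A) : Pol (B A' i) (iq ψ u v L) := by
  have hemp : Pol (B A' i) (∅ : Lang A') := Pol.base (empty_mem_B i)
  have hcond : ∀ (p : Prop) (M : Lang A'), (p → Pol (B A' i) M) →
      Pol (B A' i) {w | p ∧ w ∈ M} := by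
    intro p M hM
    by_cases hp : p
    · have e : {w | p ∧ w ∈ M} = M := by
        ext w
        exact ⟨fun h => h.2, fun h => ⟨hp, h⟩⟩
      rw [e]
      exact hM hp
    · have e : {w | p ∧ w ∈ M} = ∅ := by
        ext w
        exact ⟨fun h => absurd h.1 hp, fun h => absurd h (Set.notMem_empty w)⟩
      rw [e]
      exact hemp
  induction h generalizing u v with
  | base h => exact Pol.base (hB _ h u v)
  | union _ _ ih ih' => exact Pol.union (ih u v) (ih' u v)
  | @cat K L _ _ ih ih' =>
      rw [Invx.iq_cat]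
      refine Pol.union (Pol.union (Pol.union ?_ ?_) ?_) ?_
      · exact pol_list_union _ (fun k => {w | u.take k ∈ K ∧ w ∈ iq ψ (u.drop k) v L})
          fun k _ => hcond _ _ fun _ => ih' _ _
      · exact pol_list_union _ (fun k => {w | v.drop k ∈ L ∧ w ∈ iq ψ u (v.take k) K})
          fun k _ => hcond _ _ fun _ => ih _ _
      · exact Pol.cat (ih _ _) (ih' _ _)
      · refine pol_finite_union (fun c : A' => {w | ∃ k ∈ List.range (ψ c).length,
          w ∈ cat (iq ψ u ((ψ c).take k) K) (cat {[c]} (iq ψ ((ψ c).drop k) v L))}) fun c => ?_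
        refine pol_list_union _ (fun k => cat (iq ψ u ((ψ c).take k) K)
          (cat {[c]} (iq ψ ((ψ c).drop k) v L))) fun k _ => ?_
        exact Pol.cat (ih _ _) (Pol.cat (Pol.base (finite_mem_B (Set.finite_singleton _) i))
          (ih' _ _))

/-- Main result 1 of this module. -/
theorem iq_B [Finite A'] {ψ : A' → List A} (hψ : ∀ a, ψ a ≠ []) {i : ℕ} {L : Lang A}
    (h : L ∈ B A i) (u v : List A) : iq ψ u v L ∈ B A' i := by
  induction i generalizing L u v with
  | zero => exact iq_B_zero hψ h u v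
  | succ i ih =>
      have h' : BoolCl (MonCl (B A i)) L := h
      clear h
      induction h' with
      | base h => exact pol_sub_B (iq_pol_of hψ (fun L hL u v => ih hL u v) (pol_of_monCl h) u v)
      | compl _ ih1 => exact BoolCl.compl ih1
      | union _ _ ih1 ih2 => exact BoolCl.union ih1 ih2
      | inter _ _ ih1 ih2 => exact BoolCl.inter ih1 ih2

/-- Main result 2 of this module. -/
theorem iq_pol [Finite A'] {ψ : A' → List A} (hψ : ∀ a, ψ a ≠ []) {i : ℕ} {L : Lang A}
    (h : Pol (B A i) L) (u v : List A) : Pol (B A' i) (iq ψ u v L) :=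
  iq_pol_of hψ (fun _ hL u v => iq_B hψ hL u v) h u v

theorem Invx.iq_single (u v : List A) (L : Lang A) :
    iq (fun a : A => [a]) u v L = {w | u ++ w ++ v ∈ L} := by
  ext w
  rw [mem_iq, ext_single]
  rfl

/-- Two-sided quotients. -/
theorem quo_B [Finite A] {i : ℕ} {L : Lang A} (h : L ∈ B A i) (u v : List A) :
    {w | u ++ w ++ v ∈ L} ∈ B A i := by
  rw [← Invx.iq_single]
  exact iq_B (fun a => by simp) h u v

theorem quo_pol [Finite A] {i : ℕ} {L : Lang A} (h : Pol (B A i) L) (u v : List A) :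
    Pol (B A i) {w | u ++ w ++ v ∈ L} := by
  rw [← Invx.iq_single]
  exact iq_pol (fun a => by simp) h u v

end Pool.Agent.HLV
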