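import Pool.Agent.HLV.Tok
import Pool.Agent.HLV.Inv

/-!
# HLV-Dir: direct images under good codes, alphabet independence

Plan.
* `img_catList`: `img ψ (catList L₀ Ls) = catList (img ψ L₀) (Ls.map (img ψ))`: induction on `Ls`.
* `img_B`: induction on `i ≥ 1` (`Nat.le_induction`).  `i = 1`: `img_B_one`.  Step: induction on
  `BoolCl`: base `L ∈ MonCl (B A' i)` (`DD.MonCl_B`, `img_catList`), complement:
  `img ψ Lᶜ = Set.range (ext ψ) ∩ (img ψ L)ᶜ` (`ext_inj`, `range_B`, `B_mono`), union, intersection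
  (`ext_inj`).
* `img_pol`: induction on `Pol`.
* the converses: `iq ψ [] [] (img ψ L) = L` (`ext_inj`), `iq_B`, `iq_pol`; code words are not empty
  (`GoodCode.pos`, `len`).
-/

namespace Pool.Agent.HLV

open Pool.Agent.DD

variable {A A' : Type}

private theorem img_cat (ψ : A' → List A) (K L : Lang A') :
    img ψ (cat K L) = cat (img ψ K) (img ψ L) := by
  ext w
  constructor
  · rintro ⟨x, ⟨u, hu, v, hv, rfl⟩, rfl⟩
    exact ⟨ext ψ u, ⟨u, hu, rfl⟩, ext ψ v, ⟨v, hv, rfl⟩, ext_append ψ u v⟩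
  · rintro ⟨_, ⟨u, hu, rfl⟩, _, ⟨v, hv, rfl⟩, rfl⟩
    exact ⟨u ++ v, ⟨u, hu, v, hv, rfl⟩, (ext_append ψ u v).symm⟩

private theorem img_union (ψ : A' → List A) (K L : Lang A') :
    img ψ (K ∪ L) = img ψ K ∪ img ψ L := by
  ext w
  constructor
  · rintro ⟨x, hx | hx, rfl⟩
    · exact Or.inl ⟨x, hx, rfl⟩
    · exact Or.inr ⟨x, hx, rfl⟩
  · rintro (⟨x, hx, rfl⟩ | ⟨x, hx, rfl⟩)
    · exact ⟨x, Or.inl hx, rfl⟩
    · exact ⟨x, Or.inr hx, rfl⟩

private theorem img_inter {ψ : A' → List A} (hi : Function.Injective (ext ψ)) (K L : Lang A') :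
    img ψ (K ∩ L) = img ψ K ∩ img ψ L := by
  ext w
  constructor
  · rintro ⟨x, ⟨hx, hx'⟩, rfl⟩
    exact ⟨⟨x, hx, rfl⟩, ⟨x, hx', rfl⟩⟩
  · rintro ⟨⟨x, hx, rfl⟩, ⟨y, hy, hxy⟩⟩
    have hxy' : x = y := hi hxy
    exact ⟨x, ⟨hx, hxy'.symm ▸ hy⟩, rfl⟩

private theorem img_compl {ψ : A' → List A} (hi : Function.Injective (ext ψ)) (L : Lang A') :
    img ψ Lᶜ = Set.range (ext ψ) ∩ (img ψ L)ᶜ := by
  ext w
  constructor
  · rintro ⟨x, hx, rfl⟩
    refine ⟨⟨x, rfl⟩, ?_⟩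
    rintro ⟨y, hy, hxy⟩
    have hxy' : x = y := hi hxy
    exact hx (hxy'.symm ▸ hy)
  · rintro ⟨⟨x, rfl⟩, hn⟩
    exact ⟨x, fun hx => hn ⟨x, hx, rfl⟩, rfl⟩

private theorem iq_img {ψ : A' → List A} (hi : Function.Injective (ext ψ)) (L : Lang A') :
    iq ψ [] [] (img ψ L) = L := by
  ext w
  constructor
  · intro hw
    have hw' : [] ++ ext ψ w ++ [] ∈ img ψ L := hw
    rw [List.nil_append, List.append_nil] at hw'
    obtain ⟨x, hx, e⟩ := hw'
    have e' : w = x := hi e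
    exact e'.symm ▸ hx
  · intro hw
    show [] ++ ext ψ w ++ [] ∈ img ψ L
    rw [List.nil_append, List.append_nil]
    exact ⟨w, hw, rfl⟩

private theorem good_ne {ψ : A' → List A} {l : ℕ} (h : GoodCode ψ l) (a : A') : ψ a ≠ [] := by
  intro e
  have h1 := h.len a
  have h2 := h.pos
  rw [e, List.length_nil] at h1
  omega

theorem img_catList (ψ : A' → List A) (L₀ : Lang A') (Ls : List (Lang A')) :
    img ψ (catList L₀ Ls) = catList (img ψ L₀) (Ls.map (img ψ)) := by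
  induction Ls generalizing L₀ with
  | nil => rfl
  | cons K Ks ih =>
    show img ψ (cat L₀ (catList K Ks)) = cat (img ψ L₀) (catList (img ψ K) (Ks.map (img ψ)))
    rw [img_cat, ih]

theorem img_B [Finite A] [Finite A'] {ψ : A' → List A} {l : ℕ} (h : GoodCode ψ l) {i : ℕ}
    (hi : 1 ≤ i) {L : Lang A'} (hL : L ∈ B A' i) : img ψ L ∈ B A i := by
  induction i, hi using Nat.le_induction generalizing L with
  | base => exact img_B_one h hL
  | succ i hi ih =>
    change BoolCl (MonCl (B A' i)) L at hL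
    induction hL with
    | base hP =>
      obtain ⟨L₀, h₀, Ls, hLs, rfl⟩ := MonCl_B hP
      rw [img_catList]
      refine BoolCl.base (Or.inr ⟨img ψ L₀, ih h₀, Ls.map (img ψ), ?_, rfl⟩)
      intro K hK
      obtain ⟨K', hK', rfl⟩ := List.mem_map.1 hK
      exact ih (hLs K' hK')
    | compl _ ihc =>
      rw [img_compl (ext_inj h)]
      exact B_inter (B_mono (by omega) (range_B h)) (B_compl ihc)
    | union _ _ ih1 ih2 =>
      rw [img_union]
      exact B_union ih1 ih2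
    | inter _ _ ih1 ih2 =>
      rw [img_inter (ext_inj h)]
      exact B_inter ih1 ih2

theorem img_pol [Finite A] [Finite A'] {ψ : A' → List A} {l : ℕ} (h : GoodCode ψ l) {i : ℕ}
    (hi : 1 ≤ i) {L : Lang A'} (hL : Pol (B A' i) L) : Pol (B A i) (img ψ L) := by
  induction hL with
  | base hL => exact Pol.base (img_B h hi hL)
  | cat _ _ ih1 ih2 =>
    rw [img_cat]
    exact Pol.cat ih1 ih2
  | union _ _ ih1 ih2 =>
    rw [img_union]
    exact Pol.union ih1 ih2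

/-- Main result 1. -/
theorem img_B_iff [Finite A] [Finite A'] {ψ : A' → List A} {l : ℕ} (h : GoodCode ψ l) {i : ℕ}
    (hi : 1 ≤ i) (L : Lang A') : img ψ L ∈ B A i ↔ L ∈ B A' i := by
  refine ⟨fun hL => ?_, img_B h hi⟩
  have h1 := iq_B (good_ne h) hL [] []
  rwa [iq_img (ext_inj h)] at h1

/-- Main result 2. -/
theorem img_half_iff [Finite A] [Finite A'] {ψ : A' → List A} {l : ℕ} (h : GoodCode ψ l) {i : ℕ}
    (hi : 1 ≤ i) (L : Lang A') : img ψ L ∈ Half (B A i) ↔ L ∈ Half (B A' i) := by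
  rw [half_iff, half_iff]
  refine ⟨fun hL => ?_, img_pol h hi⟩
  have h1 := iq_pol (good_ne h) hL [] []
  rwa [iq_img (ext_inj h)] at h1

end Pool.Agent.HLV
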