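import Pool.Agent.HLV.Defs
import Pool.Agent.DD.Rec

/-!
# HLV-Nat: transitive shifts and bifix submonoids have the pumping property
-/

namespace Pool.Agent.HLV

open Pool.Agent.DD

variable {A : Type}

theorem pumpSep_biunitary {L : Lang A} (h : Biunitary L) : PumpSep L := by
  intro v hv
  have hp : ∀ N, pw v N ∈ L := by
    intro N
    induction N with
    | zero => exact h.one
    | succ N ih => rw [pw_succ]; exact h.mul _ hv _ ih
  refine ⟨[], [], fun N => ⟨?_, fun u hu hmem => hu ?_⟩⟩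
  · rw [List.append_nil, List.append_nil]
    exact hp N
  · rw [List.append_nil, List.append_nil, List.append_nil] at hmem
    exact h.left _ _ (hp N) (h.right _ _ (hp N) hmem)

private theorem pw_shift (v Y : List A) (N : ℕ) :
    v ++ pw (Y ++ v) N = pw (v ++ Y) N ++ v := by
  induction N with
  | zero => simp [pw_zero]
  | succ N ih =>
    rw [pw_succ, pw_succ, List.append_assoc (v ++ Y), ← ih]
    simp only [List.append_assoc]

theorem pumpSep_factorial {L : Lang A} (hr : Rec L) (hf : Factorial L) (hi : Irred L) :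
    PumpSep L := by
  obtain ⟨M, hM, hfin, φ, h1, hmul, _, hrec⟩ := hr
  intro v hv
  choose y hy using fun x : {w : List A // w ∈ L} => hi x.1 x.2 v hv
  let x : ℕ → {w : List A // w ∈ L} := fun k =>
    Nat.rec ⟨v, hv⟩ (fun _ s => ⟨s.1 ++ y s ++ v, hy s⟩) k
  have hx : ∀ k, (x (k + 1)).1 = (x k).1 ++ y (x k) ++ v := fun k => rfl
  have hend : ∀ k, ∃ t, (x k).1 = t ++ v := by
    intro k
    cases k with
    | zero => exact ⟨[], rfl⟩
    | succ k => exact ⟨(x k).1 ++ y (x k), hx k⟩
  have hY : ∀ i j, i + 1 ≤ j → ∃ Y, (x j).1 = (x i).1 ++ Y ++ v := by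
    intro i j hij
    induction j, hij using Nat.le_induction with
    | base => exact ⟨y (x i), hx i⟩
    | succ j _ ih =>
      obtain ⟨Y, hY⟩ := ih
      refine ⟨Y ++ v ++ y (x j), ?_⟩
      rw [hx, hY]
      simp only [List.append_assoc]
  have key : ∃ i j, i < j ∧ φ (x i).1 = φ (x j).1 := by
    obtain ⟨i, j, hne, he⟩ := Finite.exists_ne_map_eq_of_infinite (fun k => φ (x k).1)
    rcases lt_or_gt_of_ne hne with h | h
    · exact ⟨i, j, h, he⟩
    · exact ⟨j, i, h, he.symm⟩
  obtain ⟨i, j, hij, he⟩ := key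
  obtain ⟨Y, hYj⟩ := hY i j hij
  have hφ : ∀ N, φ ((x i).1 ++ pw (Y ++ v) N) = φ (x i).1 := by
    intro N
    induction N with
    | zero => rw [pw_zero, List.append_nil]
    | succ N ih =>
      rw [pw_succ, ← List.append_assoc, ← List.append_assoc, ← hYj, hmul, ← he, ← hmul, ih]
  have hmem : ∀ N, pw (v ++ Y) N ++ v ∈ L := by
    intro N
    have h2 : (x i).1 ++ pw (Y ++ v) N ∈ L := (hrec _ _ (hφ N)).2 (x i).2
    obtain ⟨t, ht⟩ := hend i
    rw [ht] at h2
    rw [← pw_shift]
    apply hf t _ []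
    rw [List.append_nil, ← List.append_assoc]
    exact h2
  refine ⟨Y, v, fun N => ⟨hmem N, fun u hu hbad => hu ?_⟩⟩
  apply hf (pw (v ++ Y) N) u (Y ++ pw (v ++ Y) N ++ v)
  have e : pw (v ++ Y) N ++ u ++ (Y ++ pw (v ++ Y) N ++ v) =
      pw (v ++ Y) N ++ (u ++ Y) ++ pw (v ++ Y) N ++ v := by
    simp only [List.append_assoc]
  rw [e]
  exact hbad

end Pool.Agent.HLV
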