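import Pool.Agent.HLV.SepOp
import Pool.Agent.HLV.Nat

/-!
# HLV-Final: the main theorem

Plan.  (1) `collapse_iff` with `pumpSep_biunitary`, `pumpSep_factorial` (each side of the
equivalences implies `Rec L`: `DD.rec_B`, `half_sub_B`, `B_compl`, so do the three implications one by
one, or first derive `Rec L`).  (2) `opT_iff`.  (3) `sep_iff`, induction on `j`
(`Function.iterate_succ_apply`).  (4) `img_B_iff`, `img_half_iff`, `good_code`.
-/

namespace Pool.Agent.HLV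

open Pool.Agent.DD

/-- The operation on pairs of languages used for separation. -/
def opS {m : ℕ} (p : Lang (Fin (m + 2)) × Lang (Fin (m + 2))) :
    Lang (Fin (m + 2)) × Lang (Fin (m + 2)) := (seqY p.2, seqXY p.1 p.2)

theorem final_collapse {A : Type} [Finite A] {L : Lang A}
    (h : (Factorial L ∧ Irred L) ∨ Biunitary L) (n : ℕ) :
    (L ∈ B A (n + 1) ↔ Lᶜ ∈ Half (B A n)) ∧ (L ∈ Half (B A (n + 1)) ↔ Lᶜ ∈ Half (B A n)) := by
  rcases h with ⟨hf, hi⟩ | h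
  · have key : Rec L → (L ∈ B A (n + 1) ↔ Lᶜ ∈ Half (B A n)) ∧
        (L ∈ Half (B A (n + 1)) ↔ Lᶜ ∈ Half (B A n)) :=
      fun hr => collapse_iff (pumpSep_factorial hr hf hi) n
    have h1 : L ∈ B A (n + 1) → Rec L := fun hL => rec_B hL
    have h2 : L ∈ Half (B A (n + 1)) → Rec L := fun hL => rec_B (half_sub_B hL)
    have h3 : Lᶜ ∈ Half (B A n) → Rec L := fun hL => by
      have := B_compl (half_sub_B hL)
      rw [compl_compl] at this
      exact rec_B this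
    refine ⟨⟨fun hL => (key (h1 hL)).1.1 hL, fun hL => (key (h3 hL)).1.2 hL⟩,
      ⟨fun hL => (key (h2 hL)).2.1 hL, fun hL => (key (h3 hL)).2.2 hL⟩⟩
  · exact collapse_iff (pumpSep_biunitary h) n

theorem final_sep1 {m n : ℕ} (hn : 1 ≤ n) (p : Lang (Fin (m + 2)) × Lang (Fin (m + 2)))
    (j : ℕ) : Separable (Half (B (Fin (m + 2)) n)) p.1 p.2 ↔
      Separable (Half (B (Fin (m + 2)) (n + j))) (opS^[j] p).1 (opS^[j] p).2 := by
  induction j with
  | zero => rfl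
  | succ j ih =>
      rw [Function.iterate_succ_apply']
      exact ih.trans (sep_iff (by omega) (opS^[j] p).1 (opS^[j] p).2).2

theorem final_sep {m n : ℕ} (hn : 1 ≤ n) (X Y : Lang (Fin (m + 2))) (j : ℕ) :
    (Separable (Half (B (Fin (m + 2)) n)) X Y ↔
      Separable (Half (B (Fin (m + 2)) (n + j))) (opS^[j] (X, Y)).1 (opS^[j] (X, Y)).2) ∧
    (Separable (Half (B (Fin (m + 2)) n)) X Y ↔
      Separable (B (Fin (m + 2)) (n + j + 1)) (opS^[j + 1] (X, Y)).2 (opS^[j + 1] (X, Y)).1) := by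
  refine ⟨final_sep1 hn (X, Y) j, (final_sep1 hn (X, Y) j).trans ?_⟩
  rw [Function.iterate_succ_apply']
  exact (sep_iff (by omega) (opS^[j] (X, Y)).1 (opS^[j] (X, Y)).2).1

/-- The main theorem. -/
theorem final :
    (∀ (A : Type) [Finite A] (L : Lang A), (Factorial L ∧ Irred L) ∨ Biunitary L → ∀ n : ℕ,
      (L ∈ B A (n + 1) ↔ Lᶜ ∈ Half (B A n)) ∧ (L ∈ Half (B A (n + 1)) ↔ Lᶜ ∈ Half (B A n))) ∧
    (∀ m n : ℕ, 1 ≤ n → ∀ (K : Lang (Fin (m + 2))) (j : ℕ),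
      Factorial (opT K j) ∧ Irred (opT K j) ∧
      (Kᶜ ∈ Half (B (Fin (m + 2)) n) ↔ opT K j ∈ B (Fin (m + 2)) (n + 1 + j)) ∧
      (Kᶜ ∈ Half (B (Fin (m + 2)) n) ↔ opT K j ∈ Half (B (Fin (m + 2)) (n + 1 + j)))) ∧
    (∀ m n : ℕ, 1 ≤ n → ∀ (X Y : Lang (Fin (m + 2))) (j : ℕ),
      (Separable (Half (B (Fin (m + 2)) n)) X Y ↔
        Separable (Half (B (Fin (m + 2)) (n + j))) (opS^[j] (X, Y)).1 (opS^[j] (X, Y)).2) ∧
      (Separable (Half (B (Fin (m + 2)) n)) X Y ↔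
        Separable (B (Fin (m + 2)) (n + j + 1)) (opS^[j + 1] (X, Y)).2
          (opS^[j + 1] (X, Y)).1)) ∧
    (∀ M m i : ℕ, 1 ≤ i → ∀ L : Lang (Fin M),
      (L ∈ B (Fin M) i ↔ {w | ∃ v ∈ L, w = code M m v} ∈ B (Fin (m + 2)) i) ∧
      (L ∈ Half (B (Fin M) i) ↔ {w | ∃ v ∈ L, w = code M m v} ∈ Half (B (Fin (m + 2)) i))) := by
  refine ⟨fun A _ L h n => final_collapse h n, fun m n hn K j => ⟨opT_factorial K j,
    opT_irred K j, (opT_iff hn K j).1, (opT_iff hn K j).2⟩,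
    fun m n hn X Y j => final_sep hn X Y j, fun M m i hi L => ⟨?_, ?_⟩⟩
  · exact (img_B_iff (good_code M m) hi L).symm
  · exact (img_half_iff (good_code M m) hi L).symm

end Pool.Agent.HLV
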