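import Pool.Agent.HLV.MDefs

/-!
# HLV-MRun: every finite device is simulated by the automaton `tab`

Plan (model: `Pool/Agent/DD/CompC.lean`).  `S = ` number of states of the device (`S ≥ 1`),
`e : D ≃ Fin S` with `e V.start = 0` (compose with `Equiv.swap`).  Tables
`nt = List.ofFn fun d : Fin S => List.ofFn fun a : Fin k => (e (V.next (e.symm d) a)).val`, in the same
way `ac` with `V.act`, and `ot = List.ofFn fun d : Fin S => V.out (e.symm d)`.
Coding of configurations: `none ↦ bnd c * S`, `some (q, d) ↦ q * S + (e d).val`.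
* all states occurring in a run are `< bnd c`: `stepC c q b` is `0` or an entry of the table, so it is
  `≤ c.1.flatten.sum`.
* by induction on `w` (from the right, `Dev.runM_snoc`, `runC_snoc`): if `V.runM c w = some (q, d)` then
  `q < bnd c`, and `runC (tab ..) w` is the code of `V.runM c w`.  Use
  `(q * S + (e d).val) / S = q`, `% S = (e d).val`, `q * S + (e d).val < bnd c * S`.
* acceptance: `List.mem_filter`, `List.mem_range`.
-/

namespace Pool.Agent.HLV

open Pool.Agent.DD

private theorem gd_range {β : Type} (g : ℕ → β) (y : β) {n x : ℕ} (h : x < n) :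
    ((List.range n).map g).getD x y = g x := by
  rw [List.getD_eq_getElem _ _ (by simpa using h)]
  simp

private theorem gd_ofFn {β : Type} {n : ℕ} (g : Fin n → β) (y : β) (i : Fin n) :
    (List.ofFn g).getD i.val y = g i := by
  rw [List.getD_eq_getElem _ _ (by simp)]
  simp

private theorem stepC_lt (c : Code) (q b : ℕ) : stepC c q b < bnd c := by
  unfold stepC bnd
  apply Nat.lt_succ_of_le
  by_cases h1 : q < c.1.length
  · rw [List.getD_eq_getElem _ _ h1]
    by_cases h2 : b < (c.1[q]).length
    · rw [List.getD_eq_getElem _ _ h2]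
      refine List.le_sum_of_mem ?_
      exact List.mem_flatten.2 ⟨c.1[q], List.getElem_mem h1, List.getElem_mem h2⟩
    · rw [List.getD_eq_default _ _ (by omega)]
      exact Nat.zero_le _
  · have h2 : c.1.getD q [] = [] := List.getD_eq_default _ _ (by omega)
    rw [h2]
    exact Nat.zero_le _

/-- the code of a configuration -/
private def cd (S : ℕ) (c : Code) {D : Type} (f : D → ℕ) : Option (ℕ × D) → ℕ
  | none => bnd c * S
  | some (q, d) => q * S + f d

private def Inv (c : Code) {D : Type} : Option (ℕ × D) → Prop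
  | none => True
  | some (q, _) => q < bnd c

private theorem cd_some_lt {S : ℕ} {c : Code} {q r : ℕ} (hq : q < bnd c) (hr : r < S) :
    q * S + r < bnd c * S := by
  have h1 : (q + 1) * S ≤ bnd c * S := Nat.mul_le_mul_right S hq
  have h2 : (q + 1) * S = q * S + S := by ring
  omega

private theorem cd_div {S q r : ℕ} (hr : r < S) : (q * S + r) / S = q := by
  have hS : 0 < S := by omega
  rw [Nat.add_comm, Nat.add_mul_div_right _ _ hS, Nat.div_eq_of_lt hr, Nat.zero_add]

private theorem cd_mod {S q r : ℕ} (hr : r < S) : (q * S + r) % S = r := by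
  rw [Nat.add_comm, Nat.add_mul_mod_self_right, Nat.mod_eq_of_lt hr]

private theorem next_cd {D : Type} {k : ℕ} (V : Dev D k) (c : Code) {S : ℕ} {nt ac : List (List ℕ)}
    {f : D → ℕ} (hf : ∀ d, f d < S)
    (hnt : ∀ d (a : Fin k), (nt.getD (f d) []).getD a.val 0 = f (V.next d a))
    (hac : ∀ d (a : Fin k), (ac.getD (f d) []).getD a.val 0 = V.act d a)
    (X : Option (ℕ × D)) (hX : Inv c X) (a : Fin k) :
    nextN S nt ac c (cd S c f X) a.val = cd S c f (V.stepM c X a) ∧ Inv c (V.stepM c X a) := by
  have hb : 0 < bnd c := Nat.succ_pos _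
  cases X with
  | none =>
    constructor
    · change nextN S nt ac c (bnd c * S) a.val = bnd c * S
      unfold nextN
      rw [if_pos le_rfl]
    · trivial
  | some X =>
    obtain ⟨q, d⟩ := X
    have hq : q < bnd c := hX
    have h1 : ¬ bnd c * S ≤ q * S + f d := not_le.2 (cd_some_lt hq (hf d))
    have h2 := cd_div (q := q) (hf d)
    have h3 := cd_mod (q := q) (hf d)
    change nextN S nt ac c (q * S + f d) a.val = _ ∧ _
    unfold nextN
    rw [if_neg h1, h2, h3, hac, hnt]
    change _ = cd S c f (if V.act d a = 0 then some (q, V.next d a)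
      else if V.act d a = 1 then some (0, V.next d a)
      else if V.act d a = 2 then (if q ∈ c.2 then some (0, V.next d a) else none)
      else some (stepC c q (V.act d a - 3), V.next d a)) ∧
      Inv c (if V.act d a = 0 then some (q, V.next d a)
      else if V.act d a = 1 then some (0, V.next d a)
      else if V.act d a = 2 then (if q ∈ c.2 then some (0, V.next d a) else none)
      else some (stepC c q (V.act d a - 3), V.next d a))
    by_cases c0 : V.act d a = 0
    · rw [if_pos c0, if_pos c0]
      exact ⟨rfl, hq⟩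
    · rw [if_neg c0, if_neg c0]
      by_cases c1 : V.act d a = 1
      · rw [if_pos c1, if_pos c1]
        refine ⟨?_, hb⟩
        change f (V.next d a) = 0 * S + f (V.next d a)
        omega
      · rw [if_neg c1, if_neg c1]
        by_cases c2 : V.act d a = 2
        · rw [if_pos c2, if_pos c2]
          by_cases c3 : q ∈ c.2
          · rw [if_pos c3, if_pos c3]
            refine ⟨?_, hb⟩
            change f (V.next d a) = 0 * S + f (V.next d a)
            omega
          · rw [if_neg c3, if_neg c3]
            exact ⟨rfl, trivial⟩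
        · rw [if_neg c2, if_neg c2]
          exact ⟨rfl, stepC_lt c _ _⟩

private theorem step_tab {k S : ℕ} {nt ac : List (List ℕ)} {ot : List ℕ} {c : Code} {x a : ℕ}
    (hx : x < bnd c * S + 1) (ha : a < k) :
    stepC (tab k S nt ac ot c) x a = nextN S nt ac c x a := by
  unfold stepC tab
  change (((List.range (bnd c * S + 1)).map
    (fun x => (List.range k).map (fun a => nextN S nt ac c x a))).getD x []).getD a 0 = _
  rw [gd_range _ _ hx, gd_range _ _ ha]

private theorem cd_lt {S : ℕ} {c : Code} {D : Type} {f : D → ℕ} (hf : ∀ d, f d < S)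
    {X : Option (ℕ × D)} (hX : Inv c X) : cd S c f X < bnd c * S + 1 := by
  cases X with
  | none => exact Nat.lt_succ_self _
  | some X =>
    obtain ⟨q, d⟩ := X
    exact Nat.lt_succ_of_lt (cd_some_lt hX (hf d))

private theorem run_cd {D : Type} {k : ℕ} (V : Dev D k) (c : Code) {S : ℕ} {nt ac : List (List ℕ)}
    {ot : List ℕ} {f : D → ℕ} (hf : ∀ d, f d < S) (h0 : f V.start = 0)
    (hnt : ∀ d (a : Fin k), (nt.getD (f d) []).getD a.val 0 = f (V.next d a))
    (hac : ∀ d (a : Fin k), (ac.getD (f d) []).getD a.val 0 = V.act d a)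
    (w : List (Fin k)) :
    runC (tab k S nt ac ot c) w = cd S c f (V.runM c w) ∧ Inv c (V.runM c w) := by
  induction w using List.reverseRecOn with
  | nil =>
    rw [Dev.runM_nil]
    constructor
    · change 0 = 0 * S + f V.start
      omega
    · exact Nat.succ_pos _
  | append_singleton w a ih =>
    obtain ⟨ih1, ih2⟩ := ih
    rw [runC_snoc, Dev.runM_snoc, ih1, step_tab (cd_lt hf ih2) a.isLt]
    exact next_cd V c hf hnt hac _ ih2 a

private theorem acc_cd {D : Type} {k : ℕ} (V : Dev D k) (c : Code) {S : ℕ}
    {ot : List ℕ} {f : D → ℕ} (hf : ∀ d, f d < S) (hot : ∀ d, ot.getD (f d) 0 = V.out d)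
    (X : Option (ℕ × D)) (hX : Inv c X) :
    accN S ot c (cd S c f X) = true ↔ V.AccM c X := by
  cases X with
  | none =>
    change accN S ot c (bnd c * S) = true ↔ False
    unfold accN
    simp
  | some X =>
    obtain ⟨q, d⟩ := X
    have hq : q < bnd c := hX
    have h1 : q * S + f d < bnd c * S := cd_some_lt hq (hf d)
    have h2 := cd_div (q := q) (hf d)
    have h3 := cd_mod (q := q) (hf d)
    change accN S ot c (q * S + f d) = true ↔
      (V.out d = 1 ∨ (V.out d = 2 ∧ q ∈ c.2) ∨ (V.out d = 3 ∧ q ∉ c.2))
    unfold accN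
    rw [h2, h3, hot]
    simp only [h1, decide_true, Bool.true_and, Bool.or_eq_true, Bool.and_eq_true,
      decide_eq_true_eq, Bool.not_eq_true', decide_eq_false_iff_not]
    tauto

/-- Main result of this module. -/
theorem exists_tab {D : Type} [Finite D] {k : ℕ} (V : Dev D k) :
    ∃ (S : ℕ) (nt ac : List (List ℕ)) (ot : List ℕ),
      ∀ c : Code, langC k (tab k S nt ac ot c) = V.langM c := by
  obtain ⟨S, ⟨e0⟩⟩ := Finite.exists_equiv_fin D
  have hS : 0 < S := lt_of_le_of_lt (Nat.zero_le _) (e0 V.start).2
  obtain ⟨e, he⟩ : ∃ e : D ≃ Fin S, (e V.start).val = 0 := by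
    refine ⟨e0.trans (Equiv.swap (e0 V.start) ⟨0, hS⟩), ?_⟩
    simp
  refine ⟨S, List.ofFn (fun d : Fin S => List.ofFn fun a : Fin k => (e (V.next (e.symm d) a)).val),
    List.ofFn (fun d : Fin S => List.ofFn fun a : Fin k => V.act (e.symm d) a),
    List.ofFn (fun d : Fin S => V.out (e.symm d)), ?_⟩
  intro c
  have hf : ∀ d, (fun d => (e d).val) d < S := fun d => (e d).isLt
  have hnt : ∀ d (a : Fin k), ((List.ofFn (fun d : Fin S =>
      List.ofFn fun a : Fin k => (e (V.next (e.symm d) a)).val)).getD ((fun d => (e d).val) d) []).getD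
      a.val 0 = (fun d => (e d).val) (V.next d a) := by
    intro d a
    change (List.getD _ (e d).val []).getD a.val 0 = _
    rw [gd_ofFn, gd_ofFn, Equiv.symm_apply_apply]
  have hac : ∀ d (a : Fin k), ((List.ofFn (fun d : Fin S =>
      List.ofFn fun a : Fin k => V.act (e.symm d) a)).getD ((fun d => (e d).val) d) []).getD
      a.val 0 = V.act d a := by
    intro d a
    change (List.getD _ (e d).val []).getD a.val 0 = _
    rw [gd_ofFn, gd_ofFn, Equiv.symm_apply_apply]
  have hot : ∀ d, (List.ofFn (fun d : Fin S => V.out (e.symm d))).getD ((fun d => (e d).val) d) 0 =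
      V.out d := by
    intro d
    change List.getD _ (e d).val 0 = _
    rw [gd_ofFn, Equiv.symm_apply_apply]
  ext w
  obtain ⟨h1, h2⟩ := run_cd V c (ot := List.ofFn (fun d : Fin S => V.out (e.symm d))) hf he hnt hac w
  change runC _ w ∈ ((List.range (bnd c * S + 1)).filter (fun x => accN S _ c x)) ↔
    V.AccM c (V.runM c w)
  rw [h1, List.mem_filter, List.mem_range, acc_cd V c hf hot _ h2]
  exact ⟨fun h => h.2, fun h => ⟨cd_lt hf h2, h⟩⟩

end Pool.Agent.HLV
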