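import Pool.Agent.HLV.MTab
import Pool.Agent.HLV.MRun
import Pool.Agent.HLV.DevF
import Pool.Agent.HLV.DevI
import Pool.Agent.HLV.Final

/-!
# HLV-Eff: effective reductions

* `dev_computable`: `exists_tab`, `primrec_tab`.
* `exists_compl`, `exists_opF`, `exists_img`: with `devC k`, `devF m`, `devI M m` (their state types are
  finite: `List.finite_length_le`, `List.finite_length_lt`).
* `exists_opT`: induction on `j`, compositions (`Computable.comp`).
* `reduction`: `f = opT ∘ compl ∘ img`: `K = (image of L)ᶜ`; `opT_iff`, `img_half_iff`/`final`.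
* `dec_iff`: `→`: `P c := (langC c)ᶜ ∈ Half (B n)` (compose the decision procedure with the computable
  complement), `final_collapse`.  `←`: `reduction` with `j = 0` and `P ∘ f`.
* `dec_mono`: `reduction` and `P ∘ f`.
-/

namespace Pool.Agent.HLV

open Pool.Agent.DD

theorem dev_computable {D : Type} [Finite D] {k : ℕ} (V : Dev D k) :
    ∃ f : Code → Code, Computable f ∧ ∀ c, langC k (f c) = V.langM c := by
  obtain ⟨S, nt, ac, ot, h⟩ := exists_tab V
  exact ⟨tab k S nt ac ot, (primrec_tab k S nt ac ot).to_comp, h⟩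

theorem exists_compl (k : ℕ) :
    ∃ f : Code → Code, Computable f ∧ ∀ c, langC k (f c) = (langC k c)ᶜ := by
  obtain ⟨f, hf, h⟩ := dev_computable (devC k)
  exact ⟨f, hf, fun c => (h c).trans (devC_lang k c)⟩

theorem exists_opF (m : ℕ) :
    ∃ f : Code → Code, Computable f ∧ ∀ c, langC (m + 2) (f c) = opF (langC (m + 2) c) := by
  have : Finite {s : List (Fin (m + 2)) // s.length ≤ m + 7} :=
    (List.finite_length_le (Fin (m + 2)) (m + 7)).to_subtype
  obtain ⟨f, hf, h⟩ := dev_computable (devF m)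
  exact ⟨f, hf, fun c => (h c).trans (devF_lang m c)⟩

theorem exists_img (M m : ℕ) :
    ∃ f : Code → Code, Computable f ∧
      ∀ c, langC (m + 2) (f c) = {w | ∃ v ∈ langC M c, w = code M m v} := by
  have : Finite {s : List (Fin (m + 2)) // s.length < M + 4} :=
    (List.finite_length_lt (Fin (m + 2)) (M + 4)).to_subtype
  obtain ⟨f, hf, h⟩ := dev_computable (devI M m)
  exact ⟨f, hf, fun c => (h c).trans (devI_lang M m c)⟩

theorem exists_opT (m j : ℕ) :
    ∃ f : Code → Code, Computable f ∧ ∀ c, langC (m + 2) (f c) = opT (langC (m + 2) c) j := by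
  obtain ⟨g, hg, h⟩ := exists_opF m
  obtain ⟨k, hk, h'⟩ := exists_compl (m + 2)
  induction j with
  | zero => exact ⟨g, hg, h⟩
  | succ j ih =>
      obtain ⟨f, hf, h''⟩ := ih
      refine ⟨fun c => g (k (f c)), hg.comp (hk.comp hf), fun c => ?_⟩
      rw [h, h', h'']
      rfl

/-- Main result 1. -/
theorem reduction (M m j : ℕ) {n : ℕ} (hn : 1 ≤ n) :
    ∃ f : Code → Code, Computable f ∧ ∀ c,
      Factorial (langC (m + 2) (f c)) ∧ Irred (langC (m + 2) (f c)) ∧
      (langC M c ∈ Half (B (Fin M) n) ↔ langC (m + 2) (f c) ∈ B (Fin (m + 2)) (n + 1 + j)) ∧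
      (langC M c ∈ Half (B (Fin M) n) ↔
        langC (m + 2) (f c) ∈ Half (B (Fin (m + 2)) (n + 1 + j))) := by
  obtain ⟨f₁, hf₁, h₁⟩ := exists_img M m
  obtain ⟨f₂, hf₂, h₂⟩ := exists_compl (m + 2)
  obtain ⟨f₃, hf₃, h₃⟩ := exists_opT m j
  refine ⟨fun c => f₃ (f₂ (f₁ c)), hf₃.comp (hf₂.comp hf₁), fun c => ?_⟩
  have e : langC (m + 2) (f₃ (f₂ (f₁ c))) =
      opT ({w | ∃ v ∈ langC M c, w = code M m v}ᶜ : Lang (Fin (m + 2))) j := by
    rw [h₃, h₂, h₁]
  have hT := opT_iff hn ({w | ∃ v ∈ langC M c, w = code M m v}ᶜ : Lang (Fin (m + 2))) j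
  rw [compl_compl] at hT
  have hI := (final.2.2.2 M m n hn (langC M c)).2
  rw [e]
  exact ⟨opT_factorial _ j, opT_irred _ j, hI.trans hT.1, hI.trans hT.2⟩

private theorem pred_comp {p : Code → Prop} (hp : ComputablePred p) {f : Code → Code}
    (hf : Computable f) : ComputablePred fun c => p (f c) := by
  obtain ⟨g, hg, rfl⟩ := ComputablePred.computable_iff.1 hp
  exact ComputablePred.computable_iff.2 ⟨fun c => g (f c), hg.comp hf, rfl⟩

/-- Main result 3. -/
theorem dec_mono (m j : ℕ) {n : ℕ} (hn : 1 ≤ n) (h : DecShift (m + 2) (n + 1 + j)) (M : ℕ) :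
    DecHalf M n := by
  obtain ⟨P, hP, h'⟩ := h
  obtain ⟨f, hf, hr⟩ := reduction M m j hn
  refine (pred_comp hP hf).of_eq fun c => ?_
  obtain ⟨h1, h2, h3, -⟩ := hr c
  exact (h' (f c) h1 h2).trans h3.symm

/-- Main result 2. -/
theorem dec_iff (m : ℕ) {n : ℕ} (hn : 1 ≤ n) :
    (∀ M, DecHalf M n) ↔ DecShift (m + 2) (n + 1) := by
  constructor
  · intro h
    obtain ⟨f, hf, hr⟩ := exists_compl (m + 2)
    refine ⟨fun c => langC (m + 2) (f c) ∈ Half (B (Fin (m + 2)) n),
      pred_comp (h (m + 2)) hf, fun c h1 h2 => ?_⟩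
    have e := (final_collapse (Or.inl ⟨h1, h2⟩) n).1.symm
    rw [← hr c] at e
    exact e
  · exact fun h M => dec_mono m 0 hn h M

end Pool.Agent.HLV
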