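import Pool.Agent.HLV.Defs

/-!
# Project HLV, effective part: definitions

A device reads letters of `Fin k` and simulates a given automaton `c : Code` (`Pool.Agent.DD.Defs`).
-/

namespace Pool.Agent.HLV

open Pool.Agent.DD

/-- A device with states `D`, reading letters of `Fin k`.  `act d a` tells what happens with the state
`q` of the simulated automaton: `0`: it is kept; `1`: it is reset to the initial state `0`; `2`: if it
is accepting then it is reset, otherwise the machine dies; `b + 3`: the letter number `b` is read.
`out d`: `1`: accept; `2`: accept iff `q` is accepting; `3`: accept iff `q` is not accepting;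
other values: reject. -/
structure Dev (D : Type) (k : ℕ) where
  start : D
  next : D → Fin k → D
  act : D → Fin k → ℕ
  out : D → ℕ

variable {D : Type} {k : ℕ}

/-- One step of the simulation; `none` is the dead configuration. -/
def Dev.stepM (V : Dev D k) (c : Code) : Option (ℕ × D) → Fin k → Option (ℕ × D)
  | none, _ => none
  | some (q, d), a =>
      if V.act d a = 0 then some (q, V.next d a)
      else if V.act d a = 1 then some (0, V.next d a)
      else if V.act d a = 2 then (if q ∈ c.2 then some (0, V.next d a) else none)
      else some (stepC c q (V.act d a - 3), V.next d a)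

/-- The configuration after a word. -/
def Dev.runM (V : Dev D k) (c : Code) (w : List (Fin k)) : Option (ℕ × D) :=
  w.foldl (V.stepM c) (some (0, V.start))

/-- Accepting configurations. -/
def Dev.AccM (V : Dev D k) (c : Code) : Option (ℕ × D) → Prop
  | none => False
  | some (q, d) => V.out d = 1 ∨ (V.out d = 2 ∧ q ∈ c.2) ∨ (V.out d = 3 ∧ q ∉ c.2)

/-- The language of the simulation. -/
def Dev.langM (V : Dev D k) (c : Code) : Lang (Fin k) := {w | V.AccM c (V.runM c w)}

theorem Dev.runM_nil (V : Dev D k) (c : Code) : V.runM c [] = some (0, V.start) := rfl

theorem Dev.runM_snoc (V : Dev D k) (c : Code) (w : List (Fin k)) (a : Fin k) :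
    V.runM c (w ++ [a]) = V.stepM c (V.runM c w) a := by
  simp [Dev.runM, List.foldl_append]

theorem runC_snoc (c : Code) (w : List (Fin k)) (a : Fin k) :
    runC c (w ++ [a]) = stepC c (runC c w) a.val := by
  have h : ∀ u : List (Fin k), runC c u =
      List.foldl (fun (q : ℕ) (a : Fin k) => stepC c q a.val) 0 u := fun _ => rfl
  rw [h, h, List.foldl_append]
  rfl

/-! ### The tables -/

/-- A bound for the numbers of the states of an automaton. -/
def bnd (c : Code) : ℕ := c.1.flatten.sum + 1

/-- The transition function of the simulating automaton.  States `q * S + d` with `q < bnd c`, `d < S`;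
the dead state is `bnd c * S`.  `nt`, `ac` are the tables of `next` and `act`. -/
def nextN (S : ℕ) (nt ac : List (List ℕ)) (c : Code) (x a : ℕ) : ℕ :=
  if bnd c * S ≤ x then bnd c * S
  else if (ac.getD (x % S) []).getD a 0 = 0 then x / S * S + (nt.getD (x % S) []).getD a 0
  else if (ac.getD (x % S) []).getD a 0 = 1 then (nt.getD (x % S) []).getD a 0
  else if (ac.getD (x % S) []).getD a 0 = 2 then
    (if x / S ∈ c.2 then (nt.getD (x % S) []).getD a 0 else bnd c * S)
  else stepC c (x / S) ((ac.getD (x % S) []).getD a 0 - 3) * S + (nt.getD (x % S) []).getD a 0

/-- The accepting states of the simulating automaton. -/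
def accN (S : ℕ) (ot : List ℕ) (c : Code) (x : ℕ) : Bool :=
  decide (x < bnd c * S) && (decide (ot.getD (x % S) 0 = 1) ||
    (decide (ot.getD (x % S) 0 = 2) && decide (x / S ∈ c.2)) ||
    (decide (ot.getD (x % S) 0 = 3) && !decide (x / S ∈ c.2)))

/-- The simulating automaton. -/
def tab (k S : ℕ) (nt ac : List (List ℕ)) (ot : List ℕ) (c : Code) : Code :=
  ((List.range (bnd c * S + 1)).map (fun x => (List.range k).map (fun a => nextN S nt ac c x a)),
    (List.range (bnd c * S + 1)).filter (fun x => accN S ot c x))

/-! ### Threads -/

/-- The last `l` letters of a word. -/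
def sfx {A : Type} (l : ℕ) (w : List A) : List A := w.drop (w.length - l)

/-- `w = p # enc(v) r` with `|r| = κ`. -/
def Th (m : ℕ) (w v : List (Fin (m + 2))) (κ : ℕ) : Prop :=
  ∃ p r : List (Fin (m + 2)), w = p ++ (hash m ++ enc m v) ++ r ∧ r.length = κ

/-- Decoding of a single code word. -/
def dcd (M m : ℕ) (N : ℕ) (s : List (Fin (m + 2))) : Option (Fin M) :=
  (List.finRange M).find? (fun b => decide (cw m N b.val = s))

theorem sfx_length {A : Type} (l : ℕ) (w : List A) : (sfx l w).length ≤ l := by
  simp only [sfx, List.length_drop]
  omega

/-- The device for `opF`: the position inside the current block (if the last `#` is followed by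
complete code words and at most `m + 6` further letters), and the last `m + 7` letters. -/
def devF (m : ℕ) :
    Dev (Option (Fin (m + 7)) × {s : List (Fin (m + 2)) // s.length ≤ m + 7}) (m + 2) where
  start := (none, ⟨[], Nat.zero_le _⟩)
  next := fun d a =>
    (match d.1 with
      | none => if sfx (m + 7) (d.2.1 ++ [a]) = hash m then some 0 else none
      | some κ => if h : κ.val + 1 < m + 7 then some ⟨κ.val + 1, h⟩
          else if sfx (m + 7) (d.2.1 ++ [a]) = hash m ∨
            (dcd (m + 2) m (m + 3) (sfx (m + 7) (d.2.1 ++ [a]))).isSome then some 0 else none,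
      ⟨sfx (m + 7) (d.2.1 ++ [a]), sfx_length _ _⟩)
  act := fun d a =>
    match d.1 with
      | none => if sfx (m + 7) (d.2.1 ++ [a]) = hash m then 1 else 0
      | some κ => if κ.val + 1 < m + 7 then 0
          else if sfx (m + 7) (d.2.1 ++ [a]) = hash m then 2
          else match dcd (m + 2) m (m + 3) (sfx (m + 7) (d.2.1 ++ [a])) with
            | some b => b.val + 3
            | none => 0
  out := fun _ => 1

/-- The device for the image under `code M m`: the part of the current block already read;
`none`: failure. -/
def devI (M m : ℕ) : Dev (Option {r : List (Fin (m + 2)) // r.length < M + 4}) (m + 2) where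
  start := some ⟨[], by simp⟩
  next := fun d a =>
    match d with
      | none => none
      | some r => if h : (r.1 ++ [a]).length < M + 4 then some ⟨r.1 ++ [a], h⟩
          else if (dcd M m M (r.1 ++ [a])).isSome then some ⟨[], by simp⟩ else none
  act := fun d a =>
    match d with
      | none => 0
      | some r => if (r.1 ++ [a]).length < M + 4 then 0
          else match dcd M m M (r.1 ++ [a]) with
            | some b => b.val + 3
            | none => 0
  out := fun d =>
    match d with
      | none => 0
      | some r => if r.1 = [] then 2 else 0

/-- The device for the complement. -/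
def devC (k : ℕ) : Dev Unit k where
  start := ()
  next := fun _ _ => ()
  act := fun _ a => a.val + 3
  out := fun _ => 3

/-! ### The decision problems -/

/-- Membership in the half level above `B n` is decidable for all automata over `Fin M`. -/
def DecHalf (M n : ℕ) : Prop := ComputablePred fun c : Code => langC M c ∈ Half (B (Fin M) n)

/-- Membership in `B n` is decidable for all automata over `Fin M` whose language is factorial and
irreducible. -/
def DecShift (M n : ℕ) : Prop :=
  ∃ P : Code → Prop, ComputablePred P ∧
    ∀ c : Code, Factorial (langC M c) → Irred (langC M c) → (P c ↔ langC M c ∈ B (Fin M) n)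

end Pool.Agent.HLV
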