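import Pool.Agent.HLV.MDefs

/-!
# HLV-MTab: the simulating automaton is computable

Everything is primitive recursive; `k, S, nt, ac, ot` are constants.  Models (copy the private lemmas):
`Pool/Agent/DD/CompB.lean` (`pr_step` for `stepC`, `pr_mem` for `decide (q ∈ l)`).
* `bnd`: `Primrec.list_flatten`, the sum as a `foldr` (or `foldl`) with `+`.
* `nextN`: `Primrec.ite`, `Primrec.list_getD`, `Primrec.nat_div`, `Primrec.nat_mod`, `nat_add`,
  `nat_mul`, `nat_sub`, `nat_le`.
* the table: `Primrec.list_map` over `Primrec.list_range` twice.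
* the filter: there may be no `Primrec.list_filter` for predicates with parameters; write the filter as
  `flatMap` with `if .. then [x] else []` (`Primrec.list_flatMap`) or as a `foldr`, and prove equality.
-/

namespace Pool.Agent.HLV

open Pool.Agent.DD

private theorem pr_step' : Primrec fun p : Code × (ℕ × ℕ) => stepC p.1 p.2.1 p.2.2 :=
  (Primrec.list_getD 0).comp
    ((Primrec.list_getD []).comp (Primrec.fst.comp Primrec.fst) (Primrec.fst.comp Primrec.snd))
    (Primrec.snd.comp Primrec.snd)

private theorem pr_mem' : Primrec₂ fun (q : ℕ) (l : List ℕ) => decide (q ∈ l) := by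
  have h : Primrec₂ fun (q : ℕ) (l : List ℕ) => decide (l.idxOf q < l.length) := by
    have h1 : PrimrecRel fun (q : ℕ) (l : List ℕ) => l.idxOf q < l.length :=
      Primrec.nat_lt.comp₂ (Primrec.list_idxOf.comp₂ Primrec₂.left Primrec₂.right)
        (Primrec.list_length.comp₂ Primrec₂.right)
    exact h1.decide
  refine h.of_eq fun q l => ?_
  rw [decide_eq_decide]
  exact List.idxOf_lt_length_iff

private theorem sum_eq (l : List ℕ) : l.sum = l.foldr (fun a b => a + b) 0 := by
  induction l with
  | nil => rfl
  | cons a l ih => rw [List.sum_cons, List.foldr_cons, ih]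

private theorem pr_bnd : Primrec bnd := by
  have h : Primrec fun c : Code => (c.1.flatten).foldr (fun a b => a + b) 0 + 1 := by
    have hh : Primrec₂ fun (_ : Code) (s : ℕ × ℕ) => s.1 + s.2 :=
      Primrec.nat_add.comp (Primrec.fst.comp Primrec.snd) (Primrec.snd.comp Primrec.snd)
    have hf : Primrec fun c : Code => c.1.flatten := Primrec.list_flatten.comp Primrec.fst
    exact Primrec.succ.comp (Primrec.list_foldr hf (Primrec.const 0) hh)
  refine h.of_eq fun c => ?_
  rw [bnd, sum_eq]

private theorem pr_bS (S : ℕ) : Primrec fun c : Code => bnd c * S :=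
  Primrec.nat_mul.comp pr_bnd (Primrec.const S)

private theorem pr_tbl (S : ℕ) (t : List (List ℕ)) :
    Primrec fun p : Code × (ℕ × ℕ) => (t.getD (p.2.1 % S) []).getD p.2.2 0 :=
  (Primrec.list_getD 0).comp
    ((Primrec.list_getD []).comp (Primrec.const t)
      (Primrec.nat_mod.comp (Primrec.fst.comp Primrec.snd) (Primrec.const S)))
    (Primrec.snd.comp Primrec.snd)

private theorem pr_eqc (S : ℕ) (t : List (List ℕ)) (j : ℕ) :
    PrimrecPred fun p : Code × (ℕ × ℕ) => (t.getD (p.2.1 % S) []).getD p.2.2 0 = j :=
  Primrec.eq.comp (pr_tbl S t) (Primrec.const j)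

private theorem pr_div (S : ℕ) : Primrec fun p : Code × (ℕ × ℕ) => p.2.1 / S :=
  Primrec.nat_div.comp (Primrec.fst.comp Primrec.snd) (Primrec.const S)

private theorem pr_next (S : ℕ) (nt ac : List (List ℕ)) :
    Primrec fun p : Code × (ℕ × ℕ) => nextN S nt ac p.1 p.2.1 p.2.2 := by
  have hb : Primrec fun p : Code × (ℕ × ℕ) => bnd p.1 * S := (pr_bS S).comp Primrec.fst
  have hn := pr_tbl S nt
  have ha := pr_tbl S ac
  have hd := pr_div S
  have hm : PrimrecPred fun p : Code × (ℕ × ℕ) => p.2.1 / S ∈ p.1.2 := by
    have h := pr_mem'.comp hd (Primrec.snd.comp (Primrec.fst (α := Code) (β := ℕ × ℕ)))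
    exact ⟨_, h⟩
  have hs : Primrec fun p : Code × (ℕ × ℕ) =>
      stepC p.1 (p.2.1 / S) ((ac.getD (p.2.1 % S) []).getD p.2.2 0 - 3) :=
    pr_step'.comp (Primrec.fst.pair (hd.pair (Primrec.nat_sub.comp ha (Primrec.const 3))))
  unfold nextN
  refine Primrec.ite (Primrec.nat_le.comp hb (Primrec.fst.comp Primrec.snd)) hb ?_
  refine Primrec.ite (pr_eqc S ac 0)
    (Primrec.nat_add.comp (Primrec.nat_mul.comp hd (Primrec.const S)) hn) ?_
  refine Primrec.ite (pr_eqc S ac 1) hn ?_
  refine Primrec.ite (pr_eqc S ac 2) (Primrec.ite hm hn hb) ?_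
  exact Primrec.nat_add.comp (Primrec.nat_mul.comp hs (Primrec.const S)) hn

private theorem pr_accN (S : ℕ) (ot : List ℕ) :
    Primrec fun p : Code × ℕ => accN S ot p.1 p.2 := by
  have hb : Primrec fun p : Code × ℕ => bnd p.1 * S := (pr_bS S).comp Primrec.fst
  have h1 : Primrec fun p : Code × ℕ => decide (p.2 < bnd p.1 * S) :=
    (Primrec.nat_lt.comp Primrec.snd hb).decide
  have ht : Primrec fun p : Code × ℕ => ot.getD (p.2 % S) 0 :=
    (Primrec.list_getD 0).comp (Primrec.const ot)
      (Primrec.nat_mod.comp Primrec.snd (Primrec.const S))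
  have h2 : ∀ j : ℕ, Primrec fun p : Code × ℕ => decide (ot.getD (p.2 % S) 0 = j) := fun j =>
    (Primrec.eq.comp ht (Primrec.const j)).decide
  have hm : Primrec fun p : Code × ℕ => decide (p.2 / S ∈ p.1.2) :=
    pr_mem'.comp (Primrec.nat_div.comp Primrec.snd (Primrec.const S))
      (Primrec.snd.comp Primrec.fst)
  unfold accN
  exact Primrec.and.comp h1 (Primrec.or.comp
    (Primrec.or.comp (h2 1) (Primrec.and.comp (h2 2) hm))
    (Primrec.and.comp (h2 3) (Primrec.not.comp hm)))

private theorem filter_eq {β : Type} (l : List β) (p : β → Bool) :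
    l.filter p = l.flatMap (fun x => bif p x then [x] else []) := by
  induction l with
  | nil => rfl
  | cons a l ih =>
    rw [List.filter_cons, List.flatMap_cons, ih]
    cases h : p a <;> simp

/-- Main result of this module. -/
theorem primrec_tab (k S : ℕ) (nt ac : List (List ℕ)) (ot : List ℕ) :
    Primrec (tab k S nt ac ot) := by
  have hr : Primrec fun c : Code => List.range (bnd c * S + 1) :=
    Primrec.list_range.comp (Primrec.succ.comp (pr_bS S))
  have h1 : Primrec fun c : Code => (List.range (bnd c * S + 1)).map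
      (fun x => (List.range k).map (fun a => nextN S nt ac c x a)) := by
    refine Primrec.list_map hr ?_
    have h2 : Primrec₂ fun (p : Code × ℕ) (a : ℕ) => nextN S nt ac p.1 p.2 a :=
      (pr_next S nt ac).comp ((Primrec.fst.comp Primrec.fst).pair
        ((Primrec.snd.comp Primrec.fst).pair Primrec.snd))
    exact Primrec.list_map (Primrec.const (List.range k)) h2
  have h3 : Primrec fun c : Code =>
      (List.range (bnd c * S + 1)).filter (fun x => accN S ot c x) := by
    have h4 : Primrec fun c : Code => (List.range (bnd c * S + 1)).flatMap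
        (fun x => bif accN S ot c x then [x] else []) := by
      refine Primrec.list_flatMap hr ?_
      have h5 : Primrec₂ fun (c : Code) (x : ℕ) => accN S ot c x := pr_accN S ot
      exact Primrec.cond h5
        (Primrec.list_cons.comp Primrec.snd (Primrec.const [])) (Primrec.const [])
    exact h4.of_eq fun c => (filter_eq _ _).symm
  exact h1.pair h3

end Pool.Agent.HLV
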