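import Pool.Agent.HLV.Buf
import Pool.Agent.HLV.Dir
import Pool.Agent.HLV.Coll

/-!
# HLV-OpF: the operations `opF` and `opT`

Plan.
* `opF_factorial`: infix is transitive.
* `opF_nil`: `[]` has no factor `# u #`.
* `opF_buf`: `p, q ∈ opF K → p ++ buf m ++ q ∈ opF K`: `buf_infix`.
* `opF_pumpSep`: `y = buf m`, `z = []`: `pw (v ++ y) N ++ [] ∈ opF K` by induction on `N`
  (`v ++ buf m ++ pw (v ++ buf m) N`), the other part by factoriality.
* `opF_compl`: by definition `(opF K)ᶜ = A* # enc(Kᶜ) # A*`.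
* `opF_half`: `→` (this is the complement direction): `img_pol (good_enc m)` and `Pol.cat`
  (`{hash m}` finite, `univ`).  `←`: `iq_pol` with `u = v = hash m` and `infix_single`.
* `opT_iff`: induction on `j` with `collapse_iff (opF_pumpSep _)` and `opF_half`
  (`opT K (j+1) = opF (opT K j)ᶜ`, `((opT K j)ᶜ)ᶜ = opT K j`).
-/

namespace Pool.Agent.HLV

open Pool.Agent.DD

variable {m : ℕ}

theorem opF_factorial (K : Lang (Fin (m + 2))) : Factorial (opF K) := by
  intro u v w h x hx hinf
  have h1 : v <:+: u ++ v ++ w := ⟨u, w, rfl⟩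
  exact h x hx (hinf.trans h1)

theorem opF_nil (K : Lang (Fin (m + 2))) : [] ∈ opF K := by
  intro u _ hinf
  have h1 := List.infix_nil.mp hinf
  have h2 : (hash m).length = 0 := by
    have h3 := congrArg List.length h1
    rw [List.length_append, List.length_append, List.length_nil] at h3
    omega
  have h4 : (hash m).length = m + 3 + 4 := cw_length (m := m) (M := m + 3) (a := m + 2) (by omega)
  omega

theorem opF_buf {K : Lang (Fin (m + 2))} {p q : List (Fin (m + 2))} (hp : p ∈ opF K)
    (hq : q ∈ opF K) : p ++ buf m ++ q ∈ opF K := by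
  intro u hu hinf
  rcases buf_infix hinf with h | h
  · exact hp u hu h
  · exact hq u hu h

theorem opF_irred (K : Lang (Fin (m + 2))) : Irred (opF K) :=
  fun _ hu _ hv => ⟨buf m, opF_buf hu hv⟩

theorem opF_pumpSep (K : Lang (Fin (m + 2))) : PumpSep (opF K) := by
  intro v hv
  refine ⟨buf m, [], fun N => ⟨?_, fun u hu hmem => hu ?_⟩⟩
  · rw [List.append_nil]
    induction N with
    | zero => exact opF_nil K
    | succ N ih =>
      rw [pw_succ]
      exact opF_buf hv ih
  · apply opF_factorial K (pw (v ++ buf m) N) u (buf m ++ pw (v ++ buf m) N ++ [])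
    simpa [List.append_assoc] using hmem

theorem opF_compl (K : Lang (Fin (m + 2))) :
    (opF K)ᶜ = cat Set.univ (cat {hash m} (cat (img (fun a => cw m (m + 3) a.val) Kᶜ)
      (cat {hash m} Set.univ))) := by
  ext w
  constructor
  · intro hw
    have h1 : ∃ u, u ∉ K ∧ (hash m ++ enc m u ++ hash m) <:+: w := by
      by_contra hcon
      push Not at hcon
      exact hw hcon
    obtain ⟨u, hu, s, t, rfl⟩ := h1
    refine ⟨s, trivial, hash m ++ (enc m u ++ (hash m ++ t)), ?_, by simp [List.append_assoc]⟩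
    refine ⟨hash m, rfl, enc m u ++ (hash m ++ t), ?_, rfl⟩
    refine ⟨enc m u, ⟨u, hu, rfl⟩, hash m ++ t, ?_, rfl⟩
    exact ⟨hash m, rfl, t, trivial, rfl⟩
  · rintro ⟨s, _, r, ⟨h, hh, r2, ⟨e, ⟨u, hu, he⟩, r3, ⟨h', hh', t, _, rfl⟩, rfl⟩, rfl⟩, rfl⟩
    intro hw
    rw [Set.mem_singleton_iff] at hh hh'
    subst hh hh' he
    exact hw u hu ⟨s, t, by simp [enc, List.append_assoc]⟩

private lemma code_ne (m : ℕ) : ∀ a : Fin (m + 2), cw m (m + 3) a.val ≠ [] := by
  intro a h
  have h1 : (cw m (m + 3) a.val).length = m + 3 + 4 :=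
    cw_length (m := m) (M := m + 3) (a := a.val) (by omega)
  rw [h, List.length_nil] at h1
  omega

theorem opF_half {n : ℕ} (hn : 1 ≤ n) (K : Lang (Fin (m + 2))) :
    (opF K)ᶜ ∈ Half (B (Fin (m + 2)) n) ↔ Kᶜ ∈ Half (B (Fin (m + 2)) n) := by
  constructor
  · intro h
    have h1 := iq_pol (code_ne m) (pol_of_half h) (hash m) (hash m)
    have h2 : iq (fun a : Fin (m + 2) => cw m (m + 3) a.val) (hash m) (hash m) (opF K)ᶜ = Kᶜ := by
      ext w
      constructor
      · intro hw hK
        apply hw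
        intro u hu hinf
        have := infix_single.mp hinf
        rw [this] at hu
        exact hu hK
      · intro hw hmem
        exact hmem w hw (infix_single.mpr rfl)
    rw [h2] at h1
    exact half_of_pol h1
  · intro h
    apply half_of_pol
    rw [opF_compl]
    have hu : Pol (B (Fin (m + 2)) n) Set.univ := Pol.base (univ_mem_B n)
    have hh : Pol (B (Fin (m + 2)) n) {hash m} :=
      Pol.base (finite_mem_B (Set.finite_singleton _) n)
    have hi := img_pol (good_enc m) hn (pol_of_half h)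
    exact Pol.cat hu (Pol.cat hh (Pol.cat hi (Pol.cat hh hu)))

theorem opT_factorial (K : Lang (Fin (m + 2))) (j : ℕ) : Factorial (opT K j) := by
  cases j with
  | zero => exact opF_factorial K
  | succ j => exact opF_factorial _

theorem opT_irred (K : Lang (Fin (m + 2))) (j : ℕ) : Irred (opT K j) := by
  cases j with
  | zero => exact opF_irred K
  | succ j => exact opF_irred _

/-- Main result of this module. -/
theorem opT_iff {n : ℕ} (hn : 1 ≤ n) (K : Lang (Fin (m + 2))) (j : ℕ) :
    (Kᶜ ∈ Half (B (Fin (m + 2)) n) ↔ opT K j ∈ B (Fin (m + 2)) (n + 1 + j)) ∧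
    (Kᶜ ∈ Half (B (Fin (m + 2)) n) ↔ opT K j ∈ Half (B (Fin (m + 2)) (n + 1 + j))) := by
  induction j with
  | zero =>
    obtain ⟨h1, h2⟩ := collapse_iff (opF_pumpSep K) n
    have h3 := opF_half hn K
    exact ⟨(h3.symm.trans h1.symm), (h3.symm.trans h2.symm)⟩
  | succ j ih =>
    obtain ⟨h1, h2⟩ := collapse_iff (opF_pumpSep (opT K j)ᶜ) (n + 1 + j)
    have h3 := opF_half (n := n + 1 + j) (by omega) (opT K j)ᶜ
    rw [compl_compl] at h3
    have h4 := ih.2.trans h3.symm
    exact ⟨h4.trans h1.symm, h4.trans h2.symm⟩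

end Pool.Agent.HLV
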