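import Pool.Agent.HLV.Defs
import Pool.Agent.DD.Jump
import Pool.Agent.DD.Rec
import Pool.Agent.DD.Generic

/-!
# HLV-Pump: insertion and deletion are invisible for products

`Ps` is a list of products of at most `m` factors from `Qs`; `u ≤ v` for the syntactic order of the
products and `u ~ v` for all factors.  Then a large power `E` of `v ++ y` satisfies `E ~ E E` and
`E ~ E (u y) E` for all products.

Plan.  `DD.exists_common_rec (Ps ++ Qs)` gives a finite aperiodic monoid and `φ` with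
`n^(k+1) = n^k`.  `N₀ = k + 1`, `E = pw (v ++ y) N₀`; `φ E = (φ (v ++ y))^(k+1)` absorbs
`φ (v ++ y)` on both sides and is idempotent.  So for all `R ∈ Ps ++ Qs`:
`E ~ E E`, `E ~ E (v y) E` (use that `φ x = φ x'` implies `SynEq R x x'`).
For `Q ∈ Qs`: `E (u y) E ~ E (v y) E ~ E`.  The jump lemma `DD.jump E (u ++ y) Qs Ps m` gives
`Below Ps (pw E m) (pw E m ++ (u ++ y) ++ pw E m)`, and `pw E m ~ E` (`SynEq.pw`, `m ≥ 1`; if the
list `Ps` is empty everything is trivial, and if it is not empty `m ≥ 1` by `hPs`).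
So `s E t ∈ P → s E (u y) E t ∈ P`.  Conversely `s E (u y) E t ∈ P → s E (v y) E t ∈ P` by
`Below Ps u v`, hence `s E t ∈ P`.
-/

namespace Pool.Agent.HLV

open Pool.Agent.DD

variable {A : Type}

private theorem phi_pw {N : Type} [Monoid N] {φ : List A → N} (h1 : φ [] = 1)
    (h2 : ∀ x y, φ (x ++ y) = φ x * φ y) (x : List A) (j : ℕ) : φ (pw x j) = φ x ^ j := by
  induction j with
  | zero => rw [pow_zero, pw_zero, h1]
  | succ j ih => rw [pw_succ, h2, ih, pow_succ']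

private theorem pow_const {N : Type} [Monoid N] {k : ℕ} (hk : ∀ n : N, n ^ (k + 1) = n ^ k)
    (n : N) (j : ℕ) : n ^ (k + j) = n ^ k := by
  induction j with
  | zero => rfl
  | succ j ih => rw [show k + (j + 1) = (k + 1) + j by omega, pow_add, hk n, ← pow_add, ih]

/-- Main result of this module. -/
theorem pump (Ps Qs : List (Lang A)) (m : ℕ) (hR : ∀ R ∈ Ps ++ Qs, Rec R)
    (hPs : ∀ P ∈ Ps, ∃ L₀ ∈ Qs, ∃ Ls : List (Lang A), (∀ K ∈ Ls, K ∈ Qs) ∧ P = catList L₀ Ls ∧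
      Ls.length + 1 ≤ m)
    {u v : List A} (h1 : Below Ps u v) (h2 : ∀ Q ∈ Qs, SynEq Q u v) (y : List A) :
    ∃ N₀ : ℕ, 1 ≤ N₀ ∧ ∀ P ∈ Ps,
      SynEq P (pw (v ++ y) N₀) (pw (v ++ y) N₀ ++ pw (v ++ y) N₀) ∧
      SynEq P (pw (v ++ y) N₀) (pw (v ++ y) N₀ ++ (u ++ y) ++ pw (v ++ y) N₀) := by
  obtain ⟨N, iM, iF, φ, f1, f2, ⟨k, f3⟩, f4⟩ := exists_common_rec (Ps ++ Qs) hR
  refine ⟨k + 1, Nat.le_add_left 1 k, ?_⟩
  set E := pw (v ++ y) (k + 1) with hEdef
  have hφE : φ E = φ (v ++ y) ^ k := by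
    rw [hEdef, phi_pw f1 f2]
    exact f3 _
  have hsyn : ∀ R ∈ Ps ++ Qs, ∀ x x' : List A, φ x = φ x' → SynEq R x x' := by
    intro R hRm x x' hx s t
    apply f4 R hRm
    rw [f2, f2, f2, f2, hx]
  have hEE : ∀ R ∈ Ps ++ Qs, SynEq R E (E ++ E) := by
    intro R hRm
    apply hsyn R hRm
    rw [f2, hφE, ← pow_add, pow_const f3]
  have hEvE : ∀ R ∈ Ps ++ Qs, SynEq R E (E ++ (v ++ y) ++ E) := by
    intro R hRm
    apply hsyn R hRm
    rw [f2, f2, hφE, ← pow_succ, ← pow_add, show k + 1 + k = k + (1 + k) by omega,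
      pow_const f3]
  have hQ : ∀ Q ∈ Qs, SynEq Q E (E ++ (u ++ y) ++ E) := by
    intro Q hQm
    have e1 := hEvE Q (List.mem_append_right _ hQm)
    have e2 : SynEq Q (E ++ (u ++ y) ++ E) (E ++ (v ++ y) ++ E) :=
      (((h2 Q hQm).right y).left E).right E
    exact e1.trans e2.symm
  have hj := jump E (u ++ y) Qs Ps m hPs
    (fun Q hQm => hEE Q (List.mem_append_right _ hQm)) hQ
  intro P hP
  have hEP := hEE P (List.mem_append_left _ hP)
  refine ⟨hEP, fun s t => ⟨fun hx => ?_, fun hx => ?_⟩⟩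
  · obtain ⟨L₀, _, Ls, _, _, hm⟩ := hPs P hP
    have hm1 : 1 ≤ m := by omega
    have hpw := hEP.pw hm1
    have e1 := (hpw s t).1 hx
    have e2 := hj P hP s t e1
    exact (((hpw.app (SynEq.refl P (u ++ y))).app hpw) s t).2 e2
  · have e1 : (s ++ E) ++ u ++ (y ++ E ++ t) ∈ P := by
      simpa only [List.append_assoc] using hx
    have e2 := h1 P hP (s ++ E) (y ++ E ++ t) e1
    have e3 : s ++ (E ++ (v ++ y) ++ E) ++ t ∈ P := by
      simpa only [List.append_assoc] using e2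
    exact (hEvE P (List.mem_append_left _ hP) s t).2 e3

end Pool.Agent.HLV
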