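import Pool.Agent.HLV.Pick
import Pool.Agent.HLV.Pump

/-!
# HLV-Pair: `B (n+1)`-equivalent pairs from pairs inseparable by the half level

Plan of `pair`: every `R ∈ Rs` is in `B A (n+1) = BoolCl (MonCl (B A n))`; by
`DD.BoolCl.exists_list` it is controlled by a finite list of members of `MonCl (B A n)`; let `Ps` be
the concatenation of these lists (all `P ∈ Ps` are `catList`s of members of `B A n` by
`DD.MonCl_B`), `Qs` a list containing all their factors, `m` a bound for the numbers of factors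
(induction on `Ps` to build `Qs, m`, or choose them with `List.foldr`/`choose`).
`exists_below` (`pol_of_monCl`) gives `u, v`; `pump` gives `N₀` for every `y` (`Rec` by `DD.rec_B`,
`DD.MonCl_sub_B`); the syntactic equivalences for all `P ∈ Ps` imply those for all `R ∈ Rs`.

Plan of `pol_jump`: `half_of_pol` gives the list of products; `Fs` contains all their factors,
`m` bounds the numbers of factors; `s E^m t ∈ R` lies in one of the products; `DD.jump`.
-/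

namespace Pool.Agent.HLV

open Pool.Agent.DD

variable {A : Type}

private lemma exists_factors {n : ℕ} (Ps : List (Lang A)) (hPs : ∀ P ∈ Ps, P ∈ MonCl (B A n)) :
    ∃ (Qs : List (Lang A)) (m : ℕ), 1 ≤ m ∧ (∀ Q ∈ Qs, Q ∈ B A n) ∧
      ∀ P ∈ Ps, ∃ L₀ ∈ Qs, ∃ Ls : List (Lang A), (∀ K ∈ Ls, K ∈ Qs) ∧ P = catList L₀ Ls ∧
        Ls.length + 1 ≤ m := by
  induction Ps with
  | nil => exact ⟨[], 1, le_rfl, by simp, by simp⟩
  | cons P Ps ih =>
    obtain ⟨Qs, m, hm, hQ, hP⟩ := ih (fun P' hP' => hPs P' (List.mem_cons_of_mem _ hP'))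
    obtain ⟨L₀, h0, Ls, hLs, hPe⟩ := MonCl_B (hPs P (List.mem_cons_self ..))
    refine ⟨L₀ :: (Ls ++ Qs), max m (Ls.length + 1), le_trans hm (le_max_left _ _), ?_, ?_⟩
    · intro Q hQ'
      rcases List.mem_cons.1 hQ' with rfl | hQ'
      · exact h0
      · rcases List.mem_append.1 hQ' with hQ' | hQ'
        · exact hLs Q hQ'
        · exact hQ Q hQ'
    · intro P' hP'
      rcases List.mem_cons.1 hP' with rfl | hP'
      · refine ⟨L₀, List.mem_cons_self .., Ls, ?_, hPe, le_max_right _ _⟩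
        intro K hK
        exact List.mem_cons_of_mem _ (List.mem_append.2 (Or.inl hK))
      · obtain ⟨L₁, h1, Ls1, hLs1, hPe1, hlen⟩ := hP P' hP'
        refine ⟨L₁, List.mem_cons_of_mem _ (List.mem_append.2 (Or.inr h1)), Ls1, ?_, hPe1,
          le_trans hlen (le_max_left _ _)⟩
        intro K hK
        exact List.mem_cons_of_mem _ (List.mem_append.2 (Or.inr (hLs1 K hK)))

private lemma exists_control {n : ℕ} (Rs : List (Lang A)) (hR : ∀ R ∈ Rs, R ∈ B A (n + 1)) :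
    ∃ Ps : List (Lang A), (∀ P ∈ Ps, P ∈ MonCl (B A n)) ∧
      ∀ R ∈ Rs, ∀ x y, (∀ P ∈ Ps, SynEq P x y) → SynEq R x y := by
  induction Rs with
  | nil => exact ⟨[], by simp, by simp⟩
  | cons R Rs ih =>
    obtain ⟨Ps, h1, h2⟩ := ih (fun R' hR' => hR R' (List.mem_cons_of_mem _ hR'))
    have hb : BoolCl (MonCl (B A n)) R := hR R (List.mem_cons_self ..)
    obtain ⟨Ps', h3, h4⟩ := hb.exists_list
    refine ⟨Ps' ++ Ps, ?_, ?_⟩
    · intro P hP
      rcases List.mem_append.1 hP with hP | hP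
      · exact h3 P hP
      · exact h1 P hP
    · intro R' hR' x y hxy
      rcases List.mem_cons.1 hR' with rfl | hR'
      · exact h4 x y fun P hP => hxy P (List.mem_append.2 (Or.inl hP))
      · exact h2 R' hR' x y fun P hP => hxy P (List.mem_append.2 (Or.inr hP))

/-- Main result 1. -/
theorem pair [Finite A] {n : ℕ} {X Y : Lang A} (h : ¬ Separable (Half (B A n)) X Y)
    (Rs : List (Lang A)) (hR : ∀ R ∈ Rs, R ∈ B A (n + 1)) :
    ∃ u ∈ X, ∃ v ∈ Y, ∀ y : List A, ∃ N₀ : ℕ, 1 ≤ N₀ ∧ ∀ R ∈ Rs,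
      SynEq R (pw (v ++ y) N₀) (pw (v ++ y) N₀ ++ pw (v ++ y) N₀) ∧
      SynEq R (pw (v ++ y) N₀) (pw (v ++ y) N₀ ++ (u ++ y) ++ pw (v ++ y) N₀) := by
  obtain ⟨Ps, hPs, hctl⟩ := exists_control Rs hR
  obtain ⟨Qs, m, hm, hQ, hP⟩ := exists_factors Ps hPs
  obtain ⟨u, hu, v, hv, h1, h2⟩ := exists_below h Ps Qs (fun P hP' => pol_of_monCl (hPs P hP')) hQ
  refine ⟨u, hu, v, hv, fun y => ?_⟩
  have hRec : ∀ R ∈ Ps ++ Qs, Rec R := by
    intro R hR'
    rcases List.mem_append.1 hR' with hR' | hR'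
    · exact rec_B (MonCl_sub_B (hPs R hR'))
    · exact rec_B (hQ R hR')
  obtain ⟨N₀, hN, hsyn⟩ := pump Ps Qs m hRec hP h1 h2 y
  refine ⟨N₀, hN, fun R hR' => ⟨?_, ?_⟩⟩
  · exact hctl R hR' _ _ fun P hP' => (hsyn P hP').1
  · exact hctl R hR' _ _ fun P hP' => (hsyn P hP').2

/-- Main result 2. -/
theorem pol_jump {n : ℕ} {R : Lang A} (h : Pol (B A n) R) :
    ∃ (Fs : List (Lang A)) (m : ℕ), 1 ≤ m ∧ (∀ F ∈ Fs, F ∈ B A n) ∧
      ∀ E Z : List A, (∀ F ∈ Fs, SynEq F E (E ++ E)) → (∀ F ∈ Fs, SynEq F E (E ++ Z ++ E)) →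
        ∀ s t : List A, s ++ pw E m ++ t ∈ R → s ++ (pw E m ++ Z ++ pw E m) ++ t ∈ R := by
  obtain ⟨Ps, hPs, hRe⟩ := half_of_pol h
  obtain ⟨Qs, m, hm, hQ, hP⟩ := exists_factors Ps hPs
  refine ⟨Qs, m, hm, hQ, fun E Z hE hZ s t hs => ?_⟩
  rw [hRe] at hs ⊢
  obtain ⟨P, hPP, hmem⟩ := hs
  exact ⟨P, hPP, jump E Z Qs Ps m hP hE hZ P hPP s t hmem⟩

end Pool.Agent.HLV
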