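import Pool.Agent.HLV.Cut

/-!
# HLV-Pick: inseparable pairs of words

If no member of `Pol (B A i)` separates `X` from `Y` then for every finite list `Ss` of members of
`Pol (B A i)` there are `u ∈ X`, `v ∈ Y` with `u ∈ S → v ∈ S` for all `S ∈ Ss`.
-/

namespace Pool.Agent.HLV

open Pool.Agent.DD

variable {A : Type}

theorem exists_pair [Finite A] {i : ℕ} {X Y : Lang A} (h : ¬ Separable (Half (B A i)) X Y)
    (Ss : List (Lang A)) (hS : ∀ S ∈ Ss, Pol (B A i) S) :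
    ∃ u ∈ X, ∃ v ∈ Y, ∀ S ∈ Ss, u ∈ S → v ∈ S := by
  classical
  by_contra hcon
  have h' : ∀ u ∈ X, ∀ v ∈ Y, ∃ S ∈ Ss, u ∈ S ∧ v ∉ S := by
    intro u hu v hv
    by_contra h1
    refine hcon ⟨u, hu, v, hv, fun S hS' huS => ?_⟩
    by_contra hvS
    exact h1 ⟨S, hS', huS, hvS⟩
  apply h
  let xs : List (List (Lang A)) :=
    Ss.sublists.filter (fun T => decide (∀ y ∈ Y, ¬ ∀ S ∈ T, y ∈ S))
  have hxs : ∀ T, T ∈ xs ↔ T.Sublist Ss ∧ ∀ y ∈ Y, ¬ ∀ S ∈ T, y ∈ S := by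
    intro T
    simp only [xs, List.mem_filter, List.mem_sublists, decide_eq_true_eq]
  refine ⟨{w | ∃ T ∈ xs, w ∈ ({w | ∀ S ∈ T, w ∈ S} : Lang A)}, ?_, ?_, ?_⟩
  · rw [half_iff]
    refine pol_list_union xs (fun T => ({w | ∀ S ∈ T, w ∈ S} : Lang A)) ?_
    intro T hT
    refine pol_list_inter T (fun S => S) ?_
    intro S hST
    exact hS S (((hxs T).1 hT).1.subset hST)
  · intro u hu
    refine ⟨Ss.filter (fun S => decide (u ∈ S)), (hxs _).2 ⟨List.filter_sublist, ?_⟩, ?_⟩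
    · intro y hy hall
      obtain ⟨S, hS', huS, hyS⟩ := h' u hu y hy
      exact hyS (hall S (List.mem_filter.2 ⟨hS', decide_eq_true huS⟩))
    · intro S hS'
      exact of_decide_eq_true (List.mem_filter.1 hS').2
  · rintro w ⟨T, hT, hw⟩ hwY
    exact ((hxs T).1 hT).2 w hwY hw

/-- Main result of this module. -/
theorem exists_below [Finite A] {i : ℕ} {X Y : Lang A} (h : ¬ Separable (Half (B A i)) X Y)
    (Ps Qs : List (Lang A)) (hP : ∀ P ∈ Ps, Pol (B A i) P) (hQ : ∀ Q ∈ Qs, Q ∈ B A i) :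
    ∃ u ∈ X, ∃ v ∈ Y, Below Ps u v ∧ ∀ Q ∈ Qs, SynEq Q u v := by
  obtain ⟨Ss, h1, h2⟩ := exists_quotients Ps hP
  obtain ⟨Ts, h3, h4⟩ := exists_quotients_B Qs hQ
  obtain ⟨u, hu, v, hv, huv⟩ := exists_pair h (Ss ++ Ts) (by
    intro S hS
    rcases List.mem_append.1 hS with hS | hS
    · exact h1 S hS
    · exact h3 S hS)
  exact ⟨u, hu, v, hv, h2 u v (fun S hS => huv S (List.mem_append_left _ hS)),
    h4 u v (fun S hS => huv S (List.mem_append_right _ hS))⟩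

end Pool.Agent.HLV
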