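import Pool.Agent.HLV.Defs

/-!
# HLV-PolB: basic facts on the polynomial closure of `B A i`

Plan.
* `pol_catList`: induction on the list.
* `half_of_pol` (normal form): induction on `Pol`; base: `L = catList L []`; union: append the lists;
  cat: if `K = ⋃ Ps`, `L = ⋃ Qs` then `cat K L = ⋃ {cat P Q}` and `cat P Q ∈ MonCl (B A i)`:
  both are `catList`s by `DD.MonCl_B`, and `cat (catList L₀ Ls) (catList K₀ Ks) =
  catList L₀ (Ls ++ K₀ :: Ks)` (induction on `Ls`, associativity of `cat`).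
  Use `List.product`-like list `Ps.flatMap fun P => Qs.map fun Q => cat P Q`.
* `half_sub_B`: a finite union of members of `MonCl (B A i)` is in `BoolCl (MonCl (B A i))`:
  induction on the list; the empty union is `∅ ∈ B A (i+1)` (`empty_mem_B`).
* `pol_mono`: induction on `Pol` with `B_mono`.
* `pol_list_union`, `B_list_inter`, `B_list_union`: induction on the list (`∅`, `univ` are in `B A 0`).
* `pol_finite_union`: from `pol_list_union`, enumerating the finite type (`Finite.exists_...`,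
  `Fintype.elems`/`Finset.univ.toList` after `haveI := Fintype.ofFinite ι`).
-/

namespace Pool.Agent.HLV

open Pool.Agent.DD

variable {A : Type}

theorem pol_catList {C : Set (Lang A)} {L₀ : Lang A} (h₀ : L₀ ∈ C) {Ls : List (Lang A)}
    (h : ∀ K ∈ Ls, K ∈ C) : Pol C (catList L₀ Ls) := by
  induction Ls generalizing L₀ with
  | nil => exact Pol.base h₀
  | cons K Ls ih =>
    exact Pol.cat (Pol.base h₀) (ih (h K List.mem_cons_self)
      fun K' hK' => h K' (List.mem_cons_of_mem _ hK'))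

theorem pol_of_monCl {i : ℕ} {P : Lang A} (h : P ∈ MonCl (B A i)) : Pol (B A i) P := by
  obtain ⟨L₀, h₀, Ls, h1, rfl⟩ := MonCl_B h
  exact pol_catList h₀ h1

private theorem cat_assoc (K L M : Lang A) : cat (cat K L) M = cat K (cat L M) := by
  ext w
  constructor
  · rintro ⟨_, ⟨x, hx, y, hy, rfl⟩, z, hz, rfl⟩
    exact ⟨x, hx, y ++ z, ⟨y, hy, z, hz, rfl⟩, by rw [List.append_assoc]⟩
  · rintro ⟨x, hx, _, ⟨y, hy, z, hz, rfl⟩, rfl⟩
    exact ⟨x ++ y, ⟨x, hx, y, hy, rfl⟩, z, hz, by rw [List.append_assoc]⟩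

private theorem cat_catList (L₀ : Lang A) (Ls : List (Lang A)) (K₀ : Lang A)
    (Ks : List (Lang A)) :
    cat (catList L₀ Ls) (catList K₀ Ks) = catList L₀ (Ls ++ K₀ :: Ks) := by
  induction Ls generalizing L₀ with
  | nil => rfl
  | cons K Ls ih =>
    show cat (cat L₀ (catList K Ls)) (catList K₀ Ks) = cat L₀ (catList K (Ls ++ K₀ :: Ks))
    rw [cat_assoc, ih]

private theorem monCl_cat {i : ℕ} {P Q : Lang A} (hP : P ∈ MonCl (B A i))
    (hQ : Q ∈ MonCl (B A i)) : cat P Q ∈ MonCl (B A i) := by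
  obtain ⟨L₀, h₀, Ls, h1, rfl⟩ := MonCl_B hP
  obtain ⟨K₀, k₀, Ks, h2, rfl⟩ := MonCl_B hQ
  refine Or.inr ⟨L₀, h₀, Ls ++ K₀ :: Ks, fun K hK => ?_, cat_catList L₀ Ls K₀ Ks⟩
  rcases List.mem_append.1 hK with hK | hK
  · exact h1 K hK
  · rcases List.mem_cons.1 hK with rfl | hK
    · exact k₀
    · exact h2 K hK

theorem half_of_pol {i : ℕ} {L : Lang A} (h : Pol (B A i) L) : L ∈ Half (B A i) := by
  induction h with
  | @base L h =>
    refine ⟨[L], fun P hP => ?_, ?_⟩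
    · rw [List.mem_singleton.1 hP]
      exact Or.inr ⟨L, h, [], fun K hK => absurd hK List.not_mem_nil, rfl⟩
    · ext w
      constructor
      · exact fun hw => ⟨L, List.mem_singleton_self L, hw⟩
      · rintro ⟨P, hP, hw⟩
        rwa [List.mem_singleton.1 hP] at hw
  | @cat K L _ _ ih1 ih2 =>
    obtain ⟨Ps, h1, rfl⟩ := ih1
    obtain ⟨Qs, h2, rfl⟩ := ih2
    refine ⟨Ps.flatMap fun P => Qs.map fun Q => DD.cat P Q, fun R hR => ?_, ?_⟩
    · rw [List.mem_flatMap] at hR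
      obtain ⟨P, hP, hR⟩ := hR
      obtain ⟨Q, hQ, rfl⟩ := List.mem_map.1 hR
      exact monCl_cat (h1 P hP) (h2 Q hQ)
    · ext w
      constructor
      · rintro ⟨x, ⟨P, hP, hx⟩, y, ⟨Q, hQ, hy⟩, rfl⟩
        refine ⟨DD.cat P Q, ?_, x, hx, y, hy, rfl⟩
        rw [List.mem_flatMap]
        exact ⟨P, hP, List.mem_map.2 ⟨Q, hQ, rfl⟩⟩
      · rintro ⟨R, hR, hw⟩
        rw [List.mem_flatMap] at hR
        obtain ⟨P, hP, hR⟩ := hR
        obtain ⟨Q, hQ, rfl⟩ := List.mem_map.1 hR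
        obtain ⟨x, hx, y, hy, rfl⟩ := hw
        exact ⟨x, ⟨P, hP, hx⟩, y, ⟨Q, hQ, hy⟩, rfl⟩
  | @union K L _ _ ih1 ih2 =>
    obtain ⟨Ps, h1, rfl⟩ := ih1
    obtain ⟨Qs, h2, rfl⟩ := ih2
    refine ⟨Ps ++ Qs, fun R hR => ?_, ?_⟩
    · rcases List.mem_append.1 hR with hR | hR
      · exact h1 R hR
      · exact h2 R hR
    · ext w
      constructor
      · rintro (⟨P, hP, hx⟩ | ⟨Q, hQ, hy⟩)
        · exact ⟨P, List.mem_append_left _ hP, hx⟩
        · exact ⟨Q, List.mem_append_right _ hQ, hy⟩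
      · rintro ⟨R, hR, hw⟩
        rcases List.mem_append.1 hR with hR | hR
        · exact Or.inl ⟨R, hR, hw⟩
        · exact Or.inr ⟨R, hR, hw⟩

private theorem list_cons_union {ι : Type*} (x : ι) (xs : List ι) (F : ι → Lang A) :
    {w | ∃ y ∈ x :: xs, w ∈ F y} = F x ∪ {w | ∃ y ∈ xs, w ∈ F y} := by
  ext w
  constructor
  · rintro ⟨y, hy, hw⟩
    rcases List.mem_cons.1 hy with rfl | hy
    · exact Or.inl hw
    · exact Or.inr ⟨y, hy, hw⟩
  · rintro (hw | ⟨y, hy, hw⟩)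
    · exact ⟨x, List.mem_cons_self, hw⟩
    · exact ⟨y, List.mem_cons_of_mem _ hy, hw⟩

private theorem list_nil_union {ι : Type*} (F : ι → Lang A) :
    {w | ∃ y ∈ ([] : List ι), w ∈ F y} = ∅ := by
  ext w
  constructor
  · rintro ⟨y, hy, _⟩
    exact absurd hy List.not_mem_nil
  · intro h
    exact absurd h (Set.notMem_empty w)

private theorem pol_lu {i : ℕ} {ι : Type*} (xs : List ι) (F : ι → Lang A)
    (h : ∀ x ∈ xs, Pol (B A i) (F x)) : Pol (B A i) {w | ∃ x ∈ xs, w ∈ F x} := by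
  induction xs with
  | nil =>
    rw [list_nil_union]
    exact Pol.base (empty_mem_B i)
  | cons x xs ih =>
    rw [list_cons_union]
    exact Pol.union (h x List.mem_cons_self) (ih fun y hy => h y (List.mem_cons_of_mem _ hy))

private theorem B_lu {i : ℕ} {ι : Type*} (xs : List ι) (F : ι → Lang A)
    (h : ∀ x ∈ xs, F x ∈ B A i) : {w | ∃ x ∈ xs, w ∈ F x} ∈ B A i := by
  induction xs with
  | nil =>
    rw [list_nil_union]
    exact empty_mem_B i
  | cons x xs ih =>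
    rw [list_cons_union]
    exact B_union (h x List.mem_cons_self) (ih fun y hy => h y (List.mem_cons_of_mem _ hy))

theorem pol_of_half {i : ℕ} {L : Lang A} (h : L ∈ Half (B A i)) : Pol (B A i) L := by
  obtain ⟨Ps, h1, rfl⟩ := h
  exact pol_lu Ps (fun P => P) fun P hP => pol_of_monCl (h1 P hP)

theorem half_iff {i : ℕ} {L : Lang A} : L ∈ Half (B A i) ↔ Pol (B A i) L :=
  ⟨pol_of_half, half_of_pol⟩

theorem half_sub_B {i : ℕ} {L : Lang A} (h : L ∈ Half (B A i)) : L ∈ B A (i + 1) := by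
  obtain ⟨Ps, h1, rfl⟩ := h
  exact B_lu Ps (fun P => P) fun P hP => MonCl_sub_B (h1 P hP)

theorem pol_sub_B {i : ℕ} {L : Lang A} (h : Pol (B A i) L) : L ∈ B A (i + 1) :=
  half_sub_B (half_of_pol h)

theorem pol_mono {i j : ℕ} (hij : i ≤ j) {L : Lang A} (h : Pol (B A i) L) : Pol (B A j) L := by
  induction h with
  | base h => exact Pol.base (B_mono hij h)
  | cat _ _ ih1 ih2 => exact Pol.cat ih1 ih2
  | union _ _ ih1 ih2 => exact Pol.union ih1 ih2

theorem pol_list_union {i : ℕ} {ι : Type*} (xs : List ι) (F : ι → Lang A)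
    (h : ∀ x ∈ xs, Pol (B A i) (F x)) : Pol (B A i) {w | ∃ x ∈ xs, w ∈ F x} :=
  pol_lu xs F h

theorem pol_finite_union {i : ℕ} {ι : Type*} [Finite ι] (F : ι → Lang A)
    (h : ∀ x, Pol (B A i) (F x)) : Pol (B A i) {w | ∃ x, w ∈ F x} := by
  have := Fintype.ofFinite ι
  have h1 := pol_lu (Finset.univ : Finset ι).toList F fun x _ => h x
  have e : {w | ∃ x, w ∈ F x} = {w | ∃ x ∈ (Finset.univ : Finset ι).toList, w ∈ F x} := by
    ext w
    constructor
    · rintro ⟨x, hx⟩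
      exact ⟨x, Finset.mem_toList.2 (Finset.mem_univ x), hx⟩
    · rintro ⟨x, _, hx⟩
      exact ⟨x, hx⟩
  rw [e]
  exact h1

theorem B_list_union {i : ℕ} {ι : Type*} (xs : List ι) (F : ι → Lang A)
    (h : ∀ x ∈ xs, F x ∈ B A i) : {w | ∃ x ∈ xs, w ∈ F x} ∈ B A i :=
  B_lu xs F h

theorem B_list_inter {i : ℕ} {ι : Type*} (xs : List ι) (F : ι → Lang A)
    (h : ∀ x ∈ xs, F x ∈ B A i) : {w | ∀ x ∈ xs, w ∈ F x} ∈ B A i := by
  induction xs with
  | nil =>
    have e : {w : List A | ∀ x ∈ ([] : List ι), w ∈ F x} = Set.univ :=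
      Set.eq_univ_of_forall fun w x hx => absurd hx List.not_mem_nil
    rw [e]
    exact univ_mem_B i
  | cons x xs ih =>
    have e : {w | ∀ y ∈ x :: xs, w ∈ F y} = F x ∩ {w | ∀ y ∈ xs, w ∈ F y} := by
      ext w
      exact List.forall_mem_cons
    rw [e]
    exact B_inter (h x List.mem_cons_self) (ih fun y hy => h y (List.mem_cons_of_mem _ hy))

end Pool.Agent.HLV
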