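import Pool.Agent.HLV.Sync
import Pool.Agent.HLV.PolB

/-!
# HLV-Rng: the set of all coded words is in `B A 1`

`X` = the (finite) set of code words, `Y` = the (finite) set of all words of length `l` which are not
code words.  Claim: `w` is in the range of `ext ψ` iff `w = []`, or
(`w` starts with a code word) and (`w` ends with a code word) and (`w` has no factor `x y` with
`x ∈ X`, `y ∈ Y`).  So the range is `{ε} ∪ (X A* ∩ A* X ∩ (A* X Y A*)ᶜ)` (`cat X univ`,
`cat univ X`, `catList univ [X, Y, univ]`; `univ` is cofinite), a member of `B A 1`.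

Proof of the claim.  `→`: `w = ext ψ v`; if `ext ψ v = p ++ ψ a ++ y ++ q`, `|y| = l`, then by `sync`
`y ++ q = ext ψ v₂`, `v₂ ≠ []` (length), so `y` is the first code word.
`←`: auxiliary statement by induction on the length (of `r`): if `w = x ++ r`, `x ∈ X`, `w` has no
factor in `X Y` and ends with a code word (`w = p ++ x'`) then `r` is in the range.  If
`l ≤ |r|` then `r = y ++ r'`, `|y| = l`, `y` is a code word, and apply the induction hypothesis to
`y ++ r'` (it still ends with a code word, because it has length `≥ l` and is a suffix of `w`).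
If `|r| < l`: if `r = []` fine; otherwise `x ++ r = p ++ x'`, `|p| = |r|`, so
`x = p ++ s`, `x' = s ++ r` with `|s| = l - |r| ≥ 1`, `p ≠ []`: contradiction to `nov`.
-/

namespace Pool.Agent.HLV

open Pool.Agent.DD

variable {A A' : Type}

private theorem aux {ψ : A' → List A} {l : ℕ} (h : GoodCode ψ l) :
    ∀ (n : ℕ) (r : List A) (a : A'), r.length ≤ n → (∃ b s, ψ a ++ r = s ++ ψ b) →
      (¬ ∃ p b y q, y.length = l ∧ y ∉ Set.range ψ ∧ ψ a ++ r = p ++ ψ b ++ y ++ q) →
      r ∈ Set.range (ext ψ) := by
  intro n
  induction n with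
  | zero =>
      intro r a hr _ _
      have : r = [] := List.eq_nil_of_length_eq_zero (by omega)
      exact ⟨[], by rw [this]; rfl⟩
  | succ n ih =>
      intro r a hr he hf
      have hl := h.pos
      rcases Nat.lt_or_ge r.length l with hlt | hge
      · by_cases hr0 : r = []
        · exact ⟨[], by rw [hr0]; rfl⟩
        · exfalso
          obtain ⟨b, s, hs⟩ := he
          have hlen := congrArg List.length hs
          rw [List.length_append, List.length_append, h.len, h.len] at hlen
          have hpos : 0 < r.length := List.length_pos_iff.2 hr0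
          rcases List.append_eq_append_iff.1 hs with ⟨a', h1, h2⟩ | ⟨c', h1, h2⟩
          · have := congrArg List.length h2
            rw [List.length_append, h.len] at this
            omega
          · refine h.nov a b s c' r ?_ ?_ h1 h2
            · intro h0
              have : s.length = 0 := by rw [h0]; rfl
              omega
            · intro h0
              have h3 : c'.length = 0 := by rw [h0]; rfl
              have := congrArg List.length h1
              rw [List.length_append, h.len] at this
              omega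
      · obtain ⟨y, r', hy, hyl⟩ : ∃ y r', r = y ++ r' ∧ y.length = l :=
          ⟨r.take l, r.drop l, (List.take_append_drop l r).symm, by
            rw [List.length_take]; omega⟩
        subst hy
        have hyr : y ∈ Set.range ψ := by
          by_contra hyn
          exact hf ⟨[], a, y, r', hyl, hyn, by simp⟩
        obtain ⟨c, rfl⟩ := hyr
        have hr' : r' ∈ Set.range (ext ψ) := by
          refine ih r' c ?_ ?_ ?_
          · rw [List.length_append, h.len] at hr
            omega
          · obtain ⟨b, s, hs⟩ := he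
            rcases List.append_eq_append_iff.1 hs with ⟨a', h1, h2⟩ | ⟨c', h1, h2⟩
            · exact ⟨b, a', h2⟩
            · have h3 := congrArg List.length h2
              rw [List.length_append, List.length_append, h.len, h.len] at h3
              have hc : c' = [] := List.eq_nil_of_length_eq_zero (by omega)
              refine ⟨b, [], ?_⟩
              rw [h2, hc]
              simp
          · rintro ⟨p, b, y, q, h1, h2, h3⟩
            exact hf ⟨ψ a ++ p, b, y, q, h1, h2, by rw [h3]; simp⟩
        obtain ⟨v, hv⟩ := hr'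
        exact ⟨c :: v, by rw [ext_cons, hv]⟩

theorem mem_range_iff {ψ : A' → List A} {l : ℕ} (h : GoodCode ψ l) (w : List A) :
    w ∈ Set.range (ext ψ) ↔ w = [] ∨ ((∃ a r, w = ψ a ++ r) ∧ (∃ a r, w = r ++ ψ a) ∧
      ¬ ∃ p a y q, y.length = l ∧ y ∉ Set.range ψ ∧ w = p ++ ψ a ++ y ++ q) := by
  constructor
  · rintro ⟨v, rfl⟩
    rcases List.eq_nil_or_concat v with rfl | ⟨v'', b, hb⟩
    · exact Or.inl rfl
    · right
      refine ⟨?_, ?_, ?_⟩
      · cases v with
        | nil => simp at hb
        | cons a v' => exact ⟨a, ext ψ v', ext_cons ψ a v'⟩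
      · refine ⟨b, ext ψ v'', ?_⟩
        rw [hb, List.concat_eq_append, ext_append, ext_cons, ext_nil, List.append_nil]
      · rintro ⟨p, a, y, q, hyl, hyn, hw⟩
        have hw' : ext ψ v = p ++ ψ a ++ (y ++ q) := by rw [hw]; simp
        obtain ⟨v₁, v₂, _, _, hq⟩ := sync h hw'
        cases v₂ with
        | nil =>
            have := congrArg List.length hq
            rw [List.length_append, ext_nil, hyl] at this
            have hl := h.pos
            simp at this
            omega
        | cons c v₃ =>
            rw [ext_cons] at hq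
            have := (List.append_inj hq (by rw [hyl, h.len])).1
            exact hyn ⟨c, this.symm⟩
  · rintro (rfl | ⟨⟨a, r, hr⟩, ⟨b, s, hs⟩, hf⟩)
    · exact ⟨[], rfl⟩
    · obtain ⟨v, hv⟩ := aux h r.length r a le_rfl ⟨b, s, by rw [← hr, hs]⟩ (by rw [← hr]; exact hf)
      exact ⟨a :: v, by rw [ext_cons, hv, hr]⟩

/-- Main result of this module. -/
theorem range_B [Finite A] [Finite A'] {ψ : A' → List A} {l : ℕ} (h : GoodCode ψ l) :
    Set.range (ext ψ) ∈ B A 1 := by
  have hX : Set.range ψ ∈ B A 0 := Or.inl (Set.finite_range ψ)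
  have hU : (Set.univ : Lang A) ∈ B A 0 := univ_mem_B 0
  have hY : {y : List A | y.length = l ∧ y ∉ Set.range ψ} ∈ B A 0 :=
    Or.inl ((List.finite_length_eq A l).subset fun y hy => hy.1)
  have h1 : cat (Set.range ψ) Set.univ ∈ B A 1 := by
    refine MonCl_sub_B (i := 0) (Or.inr ⟨Set.range ψ, hX, [Set.univ], ?_, rfl⟩)
    intro K hK
    rw [List.mem_singleton.1 hK]
    exact hU
  have h2 : cat Set.univ (Set.range ψ) ∈ B A 1 := by
    refine MonCl_sub_B (i := 0) (Or.inr ⟨Set.univ, hU, [Set.range ψ], ?_, rfl⟩)
    intro K hK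
    rw [List.mem_singleton.1 hK]
    exact hX
  have h3 : catList Set.univ [Set.range ψ, {y : List A | y.length = l ∧ y ∉ Set.range ψ},
      Set.univ] ∈ B A 1 := by
    refine MonCl_sub_B (i := 0) (Or.inr ⟨Set.univ, hU, _, ?_, rfl⟩)
    intro K hK
    simp only [List.mem_cons, List.not_mem_nil, or_false] at hK
    rcases hK with rfl | rfl | rfl
    · exact hX
    · exact hY
    · exact hU
  have h4 := B_union (eps_mem_B (A := A) 1) (B_inter (B_inter h1 h2) (B_compl h3))
  have e : Set.range (ext ψ) = {[]} ∪ (cat (Set.range ψ) Set.univ ∩ cat Set.univ (Set.range ψ) ∩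
      (catList Set.univ [Set.range ψ, {y : List A | y.length = l ∧ y ∉ Set.range ψ},
        Set.univ])ᶜ) := by
    ext w
    rw [mem_range_iff h]
    simp only [Set.mem_union, Set.mem_singleton_iff, Set.mem_inter_iff, Set.mem_compl_iff]
    refine or_congr Iff.rfl ?_
    rw [and_assoc]
    refine and_congr ?_ (and_congr ?_ (not_congr ?_))
    · constructor
      · rintro ⟨a, r, hw⟩
        exact ⟨ψ a, ⟨a, rfl⟩, r, trivial, hw⟩
      · rintro ⟨_, ⟨a, rfl⟩, r, _, hw⟩
        exact ⟨a, r, hw⟩
    · constructor
      · rintro ⟨a, r, hw⟩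
        exact ⟨r, trivial, ψ a, ⟨a, rfl⟩, hw⟩
      · rintro ⟨r, _, _, ⟨a, rfl⟩, hw⟩
        exact ⟨a, r, hw⟩
    · constructor
      · rintro ⟨p, a, y, q, h1, h2, hw⟩
        exact ⟨p, trivial, _, ⟨ψ a, ⟨a, rfl⟩, _, ⟨y, ⟨h1, h2⟩, q, trivial, rfl⟩, rfl⟩, by
          rw [hw]; simp⟩
      · rintro ⟨p, _, _, ⟨_, ⟨a, rfl⟩, _, ⟨y, ⟨h1, h2⟩, q, _, rfl⟩, rfl⟩, hw⟩
        exact ⟨p, a, y, q, h1, h2, by rw [hw]; simp⟩
  rw [e]
  exact h4

end Pool.Agent.HLV
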