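import Pool.Agent.HLV.OpF

/-!
# HLV-SepOp: separation by a half level reduces to separation by the next levels

`sep_up`: a separator `S` gives the words with a factor `# u #`, `u ∈ S`.  `sep_down`: inseparable
languages give equivalent pairs (`pair`), and `pol_jump` inserts a block of `X`.
-/

namespace Pool.Agent.HLV

open Pool.Agent.DD

variable {m : ℕ}

theorem pw_blocks (v : List (Fin (m + 2))) (N : ℕ) :
    pw (hash m ++ enc m v) N = blocks m (List.replicate N v) := by
  unfold pw blocks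
  rw [List.map_replicate]

private theorem so_blocks_append (ys zs : List (List (Fin (m + 2)))) :
    blocks m (ys ++ zs) = blocks m ys ++ blocks m zs := by
  unfold blocks
  rw [List.map_append, List.flatten_append]

private theorem so_blocks_cons (y : List (Fin (m + 2))) (ys : List (List (Fin (m + 2)))) :
    blocks m (y :: ys) = (hash m ++ enc m y) ++ blocks m ys := by
  unfold blocks
  rw [List.map_cons, List.flatten_cons]

theorem sep_up {n : ℕ} (hn : 1 ≤ n) {X Y : Lang (Fin (m + 2))}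
    (h : Separable (Half (B (Fin (m + 2)) n)) X Y) :
    Separable (B (Fin (m + 2)) (n + 1)) (seqXY X Y) (seqY Y) := by
  obtain ⟨S, hS, hX, hY⟩ := h
  have h1 : (Sᶜ)ᶜ ∈ Half (B (Fin (m + 2)) n) := by
    rw [compl_compl]
    exact hS
  refine ⟨(opF Sᶜ)ᶜ, half_sub_B ((opF_half hn Sᶜ).2 h1), ?_, ?_⟩
  · rintro w ⟨ys, zs, x, hx, _, _, rfl⟩ hw
    have h2 : blocks m ys ++ (hash m ++ enc m x) ++ blocks m zs ++ hash m =
        blocks m (ys ++ x :: zs) ++ hash m := by
      rw [so_blocks_append, so_blocks_cons]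
      simp only [List.append_assoc]
    rw [h2] at hw
    exact hw x (fun h => h (hX hx)) (infix_blocks.2 (by simp))
  · rintro w hw ⟨ys, hys, rfl⟩
    apply hw
    intro u hu hinf
    have h3 : u ∈ ys := infix_blocks.1 hinf
    apply hu
    intro hS'
    exact hY u hS' (hys u h3)

theorem sep_swap {n : ℕ} {X Y : Lang (Fin (m + 2))}
    (h : Separable (B (Fin (m + 2)) n) X Y) : Separable (Half (B (Fin (m + 2)) n)) Y X := by
  obtain ⟨S, hS, hX, hY⟩ := h
  refine ⟨Sᶜ, half_iff.2 (Pol.base (B_compl hS)), ?_, ?_⟩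
  · intro w hw hwS
    exact hY w hwS hw
  · intro w hw hwX
    exact hw (hX hwX)

theorem sep_down {n : ℕ} {X Y : Lang (Fin (m + 2))}
    (h : Separable (Half (B (Fin (m + 2)) (n + 1))) (seqY Y) (seqXY X Y)) :
    Separable (Half (B (Fin (m + 2)) n)) X Y := by
  by_contra hns
  have hns' : ¬ Separable (Half (B (Fin (m + 2)) n)) {w | ∃ u ∈ X, w = hash m ++ enc m u}
      {w | ∃ u ∈ Y, w = hash m ++ enc m u} := by
    rintro ⟨S', hS', hX', hY'⟩
    apply hns
    refine ⟨iq (fun a : Fin (m + 2) => cw m (m + 3) a.val) (hash m) [] S',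
      half_iff.2 (iq_pol (fun a => by simp [cw]) (half_iff.1 hS') _ _), ?_, ?_⟩
    · intro w hw
      rw [mem_iq, List.append_nil]
      exact hX' ⟨w, hw, rfl⟩
    · intro w hw hwY
      rw [mem_iq, List.append_nil] at hw
      exact hY' _ hw ⟨w, hwY, rfl⟩
  obtain ⟨R, hR, hRY, hRX⟩ := h
  obtain ⟨Fs, k, _, hFs, hjump⟩ := pol_jump (half_iff.1 hR)
  obtain ⟨_, ⟨x, hx, rfl⟩, _, ⟨y, hy, rfl⟩, hpair⟩ := pair hns' Fs hFs
  obtain ⟨N₀, _, hsyn⟩ := hpair []
  rw [List.append_nil, List.append_nil] at hsyn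
  have h1 := hjump (pw (hash m ++ enc m y) N₀) (hash m ++ enc m x) (fun F hF => (hsyn F hF).1)
    (fun F hF => (hsyn F hF).2) [] (hash m)
  rw [pw_mul, pw_blocks, List.nil_append, List.nil_append] at h1
  have h2 : blocks m (List.replicate (N₀ * k) y) ++ hash m ∈ R :=
    hRY ⟨List.replicate (N₀ * k) y, fun z hz => by rw [List.eq_of_mem_replicate hz]; exact hy, rfl⟩
  refine hRX _ (h1 h2) ⟨List.replicate (N₀ * k) y, List.replicate (N₀ * k) y, x, hx,
    fun z hz => by rw [List.eq_of_mem_replicate hz]; exact hy,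
    fun z hz => by rw [List.eq_of_mem_replicate hz]; exact hy, rfl⟩

/-- Main result of this module. -/
theorem sep_iff {n : ℕ} (hn : 1 ≤ n) (X Y : Lang (Fin (m + 2))) :
    (Separable (Half (B (Fin (m + 2)) n)) X Y ↔
      Separable (B (Fin (m + 2)) (n + 1)) (seqXY X Y) (seqY Y)) ∧
    (Separable (Half (B (Fin (m + 2)) n)) X Y ↔
      Separable (Half (B (Fin (m + 2)) (n + 1))) (seqY Y) (seqXY X Y)) :=
  ⟨⟨sep_up hn, fun h => sep_down (sep_swap h)⟩, ⟨fun h => sep_swap (sep_up hn h), sep_down⟩⟩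

end Pool.Agent.HLV
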