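import Pool.Agent.HLV.Defs

/-!
# HLV-Sync: synchronization of good codes

Plan.
* `ext_length`: induction on `w`.
* `ext_inj`: induction on the first word; lengths are multiples of `l`; `List.append_inj`.
* `sync` (key lemma): induction on `v`, generalizing `p`.  `v = []`: `ψ a` is not empty.
  `v = b :: v'`: `ψ b ++ ext ψ v' = p ++ (ψ a ++ q)`.  `List.append_eq_append_iff`:
  either `p = ψ b ++ p'`, `ext ψ v' = p' ++ ψ a ++ q`: induction hypothesis;
  or `ψ b = p ++ r`, `ψ a ++ q = r ++ ext ψ v'`; since `|r| ≤ l = |ψ a|`, `ψ a = r ++ s`; if `r = []`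
  then again `p = ψ b` (first case with `p' = []`); if `p ≠ []` this contradicts `nov`; if `p = []`
  then `r = ψ b` has length `l`, so `ψ a = ψ b`, `a = b` and `q = ext ψ v'`.
* `aligned`: induction on `v` (or on `v₁`): `ext ψ v = ext ψ v₁ ++ q` implies `v = v₁ ++ v₂`,
  `q = ext ψ v₂` (compare first code words, `List.append_inj` since all have length `l`, `inj`).
* `ext_infix`: from `sync` (for the first letter of `u`) and `aligned`.
-/

namespace Pool.Agent.HLV

open Pool.Agent.DD

variable {A A' : Type}

theorem ext_length {ψ : A' → List A} {l : ℕ} (h : GoodCode ψ l) (w : List A') :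
    (ext ψ w).length = w.length * l := by
  induction w with
  | nil => rw [ext_nil]; simp
  | cons a w ih => rw [ext_cons, List.length_append, ih, h.len, List.length_cons]; ring

private theorem code_ne {ψ : A' → List A} {l : ℕ} (h : GoodCode ψ l) (a : A') : ψ a ≠ [] := by
  intro h0
  have h1 := h.len a
  rw [h0, List.length_nil] at h1
  have h2 := h.pos
  omega

theorem ext_inj {ψ : A' → List A} {l : ℕ} (h : GoodCode ψ l) : Function.Injective (ext ψ) := by
  intro v
  induction v with
  | nil =>
    intro w hw
    cases w with
    | nil => rfl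
    | cons b w =>
      rw [ext_nil, ext_cons] at hw
      exact absurd (List.append_eq_nil_iff.1 hw.symm).1 (code_ne h b)
  | cons a v ih =>
    intro w hw
    cases w with
    | nil =>
      rw [ext_nil, ext_cons] at hw
      exact absurd (List.append_eq_nil_iff.1 hw).1 (code_ne h a)
    | cons b w =>
      rw [ext_cons, ext_cons] at hw
      obtain ⟨h1, h2⟩ := List.append_inj hw (by rw [h.len, h.len])
      rw [h.inj h1, ih h2]

/-- Main result 1. -/
theorem sync {ψ : A' → List A} {l : ℕ} (h : GoodCode ψ l) {v : List A'} {p q : List A} {a : A'}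
    (e : ext ψ v = p ++ ψ a ++ q) :
    ∃ v₁ v₂, v = v₁ ++ a :: v₂ ∧ p = ext ψ v₁ ∧ q = ext ψ v₂ := by
  induction v generalizing p with
  | nil =>
    rw [ext_nil] at e
    have h1 := (List.append_eq_nil_iff.1 (List.append_eq_nil_iff.1 e.symm).1).2
    exact absurd h1 (code_ne h a)
  | cons b v ih =>
    rw [ext_cons, List.append_assoc] at e
    rcases List.append_eq_append_iff.1 e with ⟨as, h1, h2⟩ | ⟨bs, h1, h2⟩
    · obtain ⟨v₁, v₂, h3, h4, h5⟩ := ih (p := as) (by rw [h2, List.append_assoc])
      exact ⟨b :: v₁, v₂, by rw [h3]; rfl, by rw [ext_cons, h1, h4], h5⟩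
    · rcases List.append_eq_append_iff.1 h2 with ⟨as, h3, h4⟩ | ⟨cs, h3, h4⟩
      · have hl := congrArg List.length h1
        rw [List.length_append, h3, List.length_append, h.len, h.len] at hl
        have hp : p = [] := List.eq_nil_of_length_eq_zero (by omega)
        have ha : as = [] := List.eq_nil_of_length_eq_zero (by omega)
        subst hp
        subst ha
        rw [List.append_nil] at h3
        rw [List.nil_append, h3] at h1
        rw [List.nil_append] at h4
        have hab : b = a := h.inj h1
        exact ⟨[], v, by rw [hab]; rfl, by rw [ext_nil], h4⟩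
      · by_cases hb : bs = []
        · subst hb
          rw [List.append_nil] at h1
          rw [List.nil_append] at h3
          obtain ⟨v₁, v₂, h5, h6, h7⟩ := ih (p := []) (by rw [h4, h3, List.nil_append])
          have hv1 : v₁ = [] := by
            cases v₁ with
            | nil => rfl
            | cons x v₁ =>
              rw [ext_cons] at h6
              exact absurd (List.append_eq_nil_iff.1 h6.symm).1 (code_ne h x)
          subst hv1
          exact ⟨[b], v₂, by rw [h5]; rfl, by rw [ext_cons, ext_nil, List.append_nil, h1], h7⟩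
        · by_cases hp : p = []
          · subst hp
            rw [List.nil_append] at h1
            have hl := congrArg List.length h3
            rw [List.length_append, ← h1, h.len, h.len] at hl
            have hc : cs = [] := List.eq_nil_of_length_eq_zero (by omega)
            subst hc
            rw [List.append_nil] at h3
            rw [List.nil_append] at h4
            have hab : b = a := h.inj (by rw [h1, h3])
            exact ⟨[], v, by rw [hab]; rfl, by rw [ext_nil], h4.symm⟩
          · exact (h.nov b a p bs cs hp hb h1 h3).elim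

theorem aligned {ψ : A' → List A} {l : ℕ} (h : GoodCode ψ l) {v v₁ : List A'} {q : List A}
    (e : ext ψ v = ext ψ v₁ ++ q) : ∃ v₂, v = v₁ ++ v₂ ∧ q = ext ψ v₂ := by
  induction v₁ generalizing v with
  | nil => exact ⟨v, rfl, by rw [e, ext_nil, List.nil_append]⟩
  | cons a v₁ ih =>
    cases v with
    | nil =>
      rw [ext_nil, ext_cons] at e
      exact absurd (List.append_eq_nil_iff.1 (List.append_eq_nil_iff.1 e.symm).1).1 (code_ne h a)
    | cons b v =>
      rw [ext_cons, ext_cons, List.append_assoc] at e
      obtain ⟨h1, h2⟩ := List.append_inj e (by rw [h.len, h.len])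
      obtain ⟨v₂, h3, h4⟩ := ih h2
      exact ⟨v₂, by rw [h.inj h1, h3]; rfl, h4⟩

/-- Main result 2. -/
theorem ext_infix {ψ : A' → List A} {l : ℕ} (h : GoodCode ψ l) {u w : List A'} (hu : u ≠ []) :
    ext ψ u <:+: ext ψ w ↔ u <:+: w := by
  constructor
  · rintro ⟨s, t, hst⟩
    cases u with
    | nil => exact absurd rfl hu
    | cons a u =>
      rw [ext_cons] at hst
      obtain ⟨v₁, v₂, h1, _, h3⟩ := sync h (v := w) (p := s) (q := ext ψ u ++ t) (a := a)
        (by rw [← hst]; simp only [List.append_assoc])
      obtain ⟨v₃, h4, _⟩ := aligned h h3.symm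
      refine ⟨v₁, v₃, ?_⟩
      rw [h1, h4]
      simp only [List.append_assoc, List.cons_append]
  · rintro ⟨s, t, rfl⟩
    exact ⟨ext ψ s, ext ψ t, by rw [ext_append, ext_append]⟩

end Pool.Agent.HLV
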