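import Pool.Agent.HLV.MDefs
import Pool.Agent.HLV.Cw

/-!
# HLV-Thr: threads

`Th m w v κ`: `w = p # enc(v) r` with `|r| = κ`.  Write `l = m + 7` for the length of the code words.

Plan.
* `th_unique`: let `w = p # enc(v) r = p' # enc(v') r'`, `|r'| ≤ |r| < l` (symmetry).  Then
  `r = r₀ r'` and `p # enc(v) r₀ = p' # enc(v')`.  If `r₀ ≠ []`: the right side ends with a code word
  `x` (of `chi m`), the left side with `y ++ r₀`, `y` a code word, `0 < |r₀| < l`; so `y = y₁ ++ y₂`,
  `x = y₂ ++ r₀`, `|y₁| = |r₀|`; contradiction to `nov` (`good_chi`).  So `κ = κ'`, and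
  `p # enc(v) = p' # enc(v')`; reverse induction on `v`, for all `v'`, comparing the last code words
  (`inj` of `good_chi`: the code word of a letter is not `hash`).
* `th_succ`: the last letter of `r`.
* `th_zero`: `κ = 0`: `w ++ [a] = p # enc(v)`; `v = []` or `v = v' ++ [b]`,
  `enc m (v' ++ [b]) = enc m v' ++ cw m (m + 3) b`; remove the last letter.
* `th_start`: `hash m <:+ w` iff `Th m w [] 0`.
* `opF_snoc`: an occurrence of `# enc(u) #` in `w ++ [a]` is an occurrence in `w` or a suffix; the
  latter means `Th m w u (m + 6)` and `hash m <:+ w ++ [a]`.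
* `sfx_snoc`, `sfx_eq_iff`: `List.drop` and lengths.
* `dcd_some`: `List.find?_some`, `cw_inj`, and `dcd_none`: `List.find?_eq_none`.
-/

namespace Pool.Agent.HLV

open Pool.Agent.DD

variable {m : ℕ}

theorem sfx_snoc {A : Type} {l : ℕ} (hl : 1 ≤ l) (w : List A) (a : A) :
    sfx l (w ++ [a]) = sfx l (sfx l w ++ [a]) := by
  unfold sfx
  have h1 : (w ++ [a]).length = w.length + 1 := by simp
  have h2 : (w.drop (w.length - l) ++ [a]).length = w.length - (w.length - l) + 1 := by simp
  rw [h1, h2, List.drop_append_of_le_length (by omega),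
    List.drop_append_of_le_length (by rw [List.length_drop]; omega), List.drop_drop]
  congr 2
  omega

theorem sfx_eq_iff {A : Type} {l : ℕ} {w x : List A} (hx : x.length = l) :
    sfx l w = x ↔ x <:+ w := by
  unfold sfx
  constructor
  · intro h
    rw [← h]
    exact List.drop_suffix _ _
  · rintro ⟨p, rfl⟩
    have h1 : (p ++ x).length - l = p.length := by
      rw [List.length_append]
      omega
    rw [h1, List.drop_left]

private theorem dcd_some_mp {M N : ℕ} {s : List (Fin (m + 2))} {b : Fin M}
    (h : dcd M m N s = some b) : cw m N b.val = s := by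
  unfold dcd at h
  have h1 := List.find?_some h
  exact of_decide_eq_true h1

theorem dcd_none {M N : ℕ} {s : List (Fin (m + 2))} :
    dcd M m N s = none ↔ ∀ b : Fin M, s ≠ cw m N b.val := by
  unfold dcd
  rw [List.find?_eq_none]
  constructor
  · intro h b hb
    exact h b (List.mem_finRange b) (decide_eq_true hb.symm)
  · intro h b _ hb
    exact h b (of_decide_eq_true hb).symm

theorem dcd_some {M N : ℕ} (hN : M ≤ N) {s : List (Fin (m + 2))} {b : Fin M} :
    dcd M m N s = some b ↔ s = cw m N b.val := by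
  constructor
  · intro h
    exact (dcd_some_mp h).symm
  · intro h
    rcases hd : dcd M m N s with _ | b'
    · exact absurd h (dcd_none.1 hd b)
    · have h1 := dcd_some_mp hd
      have h2 : b'.val = b.val :=
        cw_inj (m := m) (lt_of_lt_of_le b'.isLt hN) (lt_of_lt_of_le b.isLt hN) (h1.trans h)
      rw [Fin.ext h2]

private theorem thr_hash_len : (hash m).length = m + 7 := cw_length (by omega)

private theorem thr_cw_len (b : Fin (m + 2)) : (cw m (m + 3) b.val).length = m + 7 :=
  cw_length (by have := b.isLt; omega)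

private theorem thr_hash_ne (b : Fin (m + 2)) : hash m ≠ cw m (m + 3) b.val := by
  intro h
  have h1 := cw_inj (m := m) (M := m + 3) (a := m + 2) (b := b.val) (by omega)
    (by have := b.isLt; omega) h
  have := b.isLt
  omega

private theorem thr_enc_snoc (v : List (Fin (m + 2))) (b : Fin (m + 2)) :
    enc m (v ++ [b]) = enc m v ++ cw m (m + 3) b.val := by
  unfold enc
  rw [ext_append, ext_cons, ext_nil, List.append_nil]

private theorem thr_enc_nil : enc m [] = [] := rfl

private theorem thr_snoc_inj {A : Type} {s t : List A} {a b : A} (h : s ++ [a] = t ++ [b]) :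
    s = t ∧ a = b := by
  obtain ⟨h1, h2⟩ := List.append_inj' h rfl
  exact ⟨h1, (List.cons.inj h2).1⟩

private theorem thr_len_succ {A : Type} {s : List A} {k : ℕ} (h : s.length = k + 1) :
    ∃ (t : List A) (x : A), s = t ++ [x] ∧ t.length = k := by
  rcases List.eq_nil_or_concat s with rfl | ⟨t, x, rfl⟩
  · simp at h
  · refine ⟨t, x, ?_, ?_⟩
    · simp
    · simpa using h

private theorem thr_aux (v : List (Fin (m + 2))) : ∀ (v' p p' : List (Fin (m + 2))),
    p ++ (hash m ++ enc m v) = p' ++ (hash m ++ enc m v') → v = v' := by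
  induction v using List.reverseRecOn with
  | nil =>
    intro v' p p' h
    rcases List.eq_nil_or_concat v' with rfl | ⟨u', b, rfl⟩
    · rfl
    · exfalso
      have h0 : List.concat u' b = u' ++ [b] := by simp
      rw [h0, thr_enc_snoc, thr_enc_nil, List.append_nil, ← List.append_assoc,
        ← List.append_assoc] at h
      have h1 := (List.append_inj' h (by rw [thr_hash_len, thr_cw_len])).2
      exact thr_hash_ne b h1
  | append_singleton u a ih =>
    intro v' p p' h
    rcases List.eq_nil_or_concat v' with rfl | ⟨u', b, rfl⟩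
    · exfalso
      rw [thr_enc_snoc, thr_enc_nil, List.append_nil, ← List.append_assoc,
        ← List.append_assoc] at h
      have h1 := (List.append_inj' h (by rw [thr_hash_len, thr_cw_len])).2
      exact thr_hash_ne a h1.symm
    · have h0 : List.concat u' b = u' ++ [b] := by simp
      rw [h0, thr_enc_snoc, thr_enc_snoc, ← List.append_assoc, ← List.append_assoc,
        ← List.append_assoc, ← List.append_assoc] at h
      obtain ⟨h1, h2⟩ := List.append_inj' h (by rw [thr_cw_len, thr_cw_len])
      have h3 : u = u' := by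
        refine ih u' p p' ?_
        rw [← List.append_assoc, ← List.append_assoc]
        exact h1
      have h4 : a.val = b.val :=
        cw_inj (m := m) (M := m + 3) (by have := a.isLt; omega) (by have := b.isLt; omega) h2
      rw [h0, h3, Fin.ext h4]

private theorem thr_last (v : List (Fin (m + 2))) :
    ∃ (Z : List (Fin (m + 2))) (z : Option (Fin (m + 2))), hash m ++ enc m v = Z ++ chi m z := by
  rcases List.eq_nil_or_concat v with rfl | ⟨u, b, rfl⟩
  · refine ⟨[], none, ?_⟩
    rw [thr_enc_nil, List.append_nil, List.nil_append]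
    rfl
  · have h0 : List.concat u b = u ++ [b] := by simp
    refine ⟨hash m ++ enc m u, some b, ?_⟩
    rw [h0, thr_enc_snoc, ← List.append_assoc]
    rfl

private theorem thr_le {w v v' : List (Fin (m + 2))} {κ κ' : ℕ} (h : Th m w v κ)
    (h' : Th m w v' κ') (hκ : κ < m + 7) : κ ≤ κ' := by
  by_contra hlt
  obtain ⟨p, r, e, hr⟩ := h
  obtain ⟨p', r', e', hr'⟩ := h'
  obtain ⟨r₀, r₁, e1, hr0⟩ : ∃ r₀ r₁, r = r₀ ++ r₁ ∧ r₀.length = κ - κ' := by
    refine ⟨r.take (κ - κ'), r.drop (κ - κ'), (List.take_append_drop _ _).symm, ?_⟩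
    rw [List.length_take]
    omega
  have hr1 : r₁.length = κ' := by
    have := congrArg List.length e1
    rw [List.length_append] at this
    omega
  rw [e, e1, ← List.append_assoc] at e'
  obtain ⟨e2, -⟩ := List.append_inj' e' (by omega)
  obtain ⟨Z, z, hz⟩ := thr_last (m := m) v
  obtain ⟨Y, y, hy⟩ := thr_last (m := m) v'
  rw [hz, hy] at e2
  have hly : (chi m y).length = m + 7 := (good_chi m).len y
  have hlz : (chi m z).length = m + 7 := (good_chi m).len z
  obtain ⟨s, t, e3, ht⟩ : ∃ s t, chi m y = s ++ t ∧ t.length = κ - κ' := by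
    refine ⟨(chi m y).take (m + 7 - (κ - κ')), (chi m y).drop (m + 7 - (κ - κ')),
      (List.take_append_drop _ _).symm, ?_⟩
    rw [List.length_drop]
    omega
  rw [e3, ← List.append_assoc, ← List.append_assoc, ← List.append_assoc] at e2
  obtain ⟨e4, e5⟩ := List.append_inj' e2 (by omega)
  subst e5
  have hs : s.length = m + 7 - (κ - κ') := by
    have := congrArg List.length e3
    rw [List.length_append] at this
    omega
  obtain ⟨a, b, e6, hb⟩ : ∃ a b, chi m z = a ++ b ∧ b.length = m + 7 - (κ - κ') := by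
    refine ⟨(chi m z).take (κ - κ'), (chi m z).drop (κ - κ'),
      (List.take_append_drop _ _).symm, ?_⟩
    rw [List.length_drop]
    omega
  rw [e6, ← List.append_assoc] at e4
  obtain ⟨-, e7⟩ := List.append_inj' e4 (by omega)
  subst e7
  have ha : a.length = κ - κ' := by
    have := congrArg List.length e6
    rw [List.length_append] at this
    omega
  refine (good_chi m).nov z y a b r₀ ?_ ?_ e6 e3
  · intro h0
    rw [h0, List.length_nil] at ha
    omega
  · intro h0
    rw [h0, List.length_nil] at hb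
    omega

/-- Main result 1. -/
theorem th_unique {w v v' : List (Fin (m + 2))} {κ κ' : ℕ} (h : Th m w v κ) (h' : Th m w v' κ')
    (hκ : κ < m + 7) (hκ' : κ' < m + 7) : v = v' ∧ κ = κ' := by
  have h1 : κ = κ' := le_antisymm (thr_le h h' hκ) (thr_le h' h hκ')
  refine ⟨?_, h1⟩
  obtain ⟨p, r, e, hr⟩ := h
  obtain ⟨p', r', e', hr'⟩ := h'
  rw [e] at e'
  obtain ⟨e2, -⟩ := List.append_inj' e' (by omega)
  exact thr_aux v v' p p' e2

theorem th_nil {v : List (Fin (m + 2))} {κ : ℕ} : ¬ Th m [] v κ := by
  rintro ⟨p, r, e, -⟩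
  have h1 := congrArg List.length e
  simp only [List.length_append, List.length_nil, thr_hash_len] at h1
  omega

theorem th_succ {w v : List (Fin (m + 2))} {a : Fin (m + 2)} {κ : ℕ} :
    Th m (w ++ [a]) v (κ + 1) ↔ Th m w v κ := by
  constructor
  · rintro ⟨p, r, e, hr⟩
    obtain ⟨t, x, rfl, ht⟩ := thr_len_succ hr
    rw [← List.append_assoc] at e
    exact ⟨p, t, (thr_snoc_inj e).1, ht⟩
  · rintro ⟨p, r, e, hr⟩
    refine ⟨p, r ++ [a], ?_, ?_⟩
    · rw [e, List.append_assoc (p ++ (hash m ++ enc m v))]
    · rw [List.length_append, hr]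
      rfl

theorem th_start {w : List (Fin (m + 2))} : Th m w [] 0 ↔ hash m <:+ w := by
  constructor
  · rintro ⟨p, r, e, hr⟩
    have h0 := List.eq_nil_of_length_eq_zero hr
    subst h0
    rw [thr_enc_nil, List.append_nil, List.append_nil] at e
    exact ⟨p, e.symm⟩
  · rintro ⟨p, e⟩
    refine ⟨p, [], ?_, rfl⟩
    rw [thr_enc_nil, List.append_nil, List.append_nil, e]

theorem th_zero {w v : List (Fin (m + 2))} {a b : Fin (m + 2)} :
    Th m (w ++ [a]) (v ++ [b]) 0 ↔ Th m w v (m + 6) ∧ cw m (m + 3) b.val <:+ w ++ [a] := by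
  constructor
  · rintro ⟨p, r, e, hr⟩
    have h0 := List.eq_nil_of_length_eq_zero hr
    subst h0
    rw [List.append_nil, thr_enc_snoc, ← List.append_assoc, ← List.append_assoc] at e
    refine ⟨?_, ⟨_, e.symm⟩⟩
    obtain ⟨t, x, ht, htl⟩ := thr_len_succ (k := m + 6) (thr_cw_len b)
    rw [ht, ← List.append_assoc] at e
    refine ⟨p, t, ?_, htl⟩
    rw [(thr_snoc_inj e).1, List.append_assoc p]
  · rintro ⟨⟨p, r, e, hr⟩, ⟨q, hq⟩⟩
    refine ⟨p, [], ?_, rfl⟩
    rw [e, List.append_assoc (p ++ (hash m ++ enc m v))] at hq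
    obtain ⟨-, h2⟩ := List.append_inj' hq (by
      rw [thr_cw_len, List.length_append, hr]
      rfl)
    rw [e, List.append_assoc (p ++ (hash m ++ enc m v)), ← h2, thr_enc_snoc, List.append_nil]
    simp only [List.append_assoc]

/-- Main result 2. -/
theorem opF_snoc {K : Lang (Fin (m + 2))} {w : List (Fin (m + 2))} {a : Fin (m + 2)} :
    w ++ [a] ∈ opF K ↔
      w ∈ opF K ∧ ∀ u, Th m w u (m + 6) → hash m <:+ w ++ [a] → u ∈ K := by
  constructor
  · intro h
    refine ⟨fun u hu hi => h u hu (hi.trans (List.prefix_append w [a]).isInfix), ?_⟩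
    rintro u ⟨p, r, e, hr⟩ ⟨q, hq⟩
    by_contra hu
    refine h u hu ⟨p, [], ?_⟩
    rw [e, List.append_assoc (p ++ (hash m ++ enc m u))] at hq
    obtain ⟨-, h2⟩ := List.append_inj' hq (by
      rw [thr_hash_len, List.length_append, hr]
      rfl)
    rw [e, List.append_assoc (p ++ (hash m ++ enc m u)), ← h2, List.append_nil,
      ← List.append_assoc]
  · rintro ⟨h1, h2⟩ u hu ⟨s, t, hst⟩
    rcases List.eq_nil_or_concat t with rfl | ⟨t', x, rfl⟩
    · rw [List.append_nil, ← List.append_assoc] at hst
      refine hu (h2 u ?_ ⟨_, hst⟩)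
      obtain ⟨h', x, hh, hhl⟩ := thr_len_succ (k := m + 6) (thr_hash_len (m := m))
      have e : s ++ (hash m ++ enc m u) ++ h' ++ [x] = w ++ [a] := by
        rw [List.append_assoc _ h' [x], ← hh]
        exact hst
      exact ⟨s, h', (thr_snoc_inj e).1.symm, hhl⟩
    · have h0 : List.concat t' x = t' ++ [x] := by simp
      rw [h0, ← List.append_assoc] at hst
      exact h1 u hu ⟨s, t', (thr_snoc_inj hst).1⟩

end Pool.Agent.HLV
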