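import Pool.Agent.HLV.Rng

/-!
# HLV-Tok: the image of a language of `B A' 1` is in `B A 1`

Plan.
* `tok_append`: `tokLang (s ++ t) = cat (tokLang s) (tokLang t)`: induction on `s`.
* `tok_B`: `tokLang t ∈ B A 1`: in fact `tokLang t ∈ MonCl (B A 0)`; induction on `t`; the language of
  `some a :: t` is `cat {[a]} (tokLang t)`, that of `none :: t` is `cat univ (tokLang t)`;
  `DD.MonCl_B` and `cat K (catList L₀ Ls) = catList K (L₀ :: Ls)` (definition).
* `tok_of_zero`: a finite language is the union of the languages of the token lists `w.map some`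
  (`tokLang (w.map some) = {w}`).  A cofinite language `L`: choose `n` larger than the lengths of all
  words outside `L`; `L` is the union of `{w}`, `w ∈ L`, `|w| < n`, and of
  `tokLang (u.map some ++ [none]) = {u ++ v | v}`, `|u| = n` (finitely many, `[Finite A]`,
  `List.finite_length_eq`, `List.finite_length_lt`; `Set.Finite.toFinset.toList`).
* `tok_of_monCl`: `catList L₀ Ls`: induction on `Ls` with `tok_append` (all pairs of token lists).
* `mem_tok_ext` (key): `←` is an easy induction.  `→`: induction on `t`, for all `v`.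
  `[]`: `ext ψ v = []` implies `v = []` (`ext_length`).
  `some a :: t`: `ext ψ v = ψ a ++ r` with `r ∈ tokLang (tokImg ψ t)`; `sync` (with `p = []`; then
  `v₁ = []` by length) gives `v = a :: v₂`, `r = ext ψ v₂`.
  `none :: t`: `ext ψ v = u ++ r`, `r ∈ tokLang (tokImg ψ t)`.  Cases on `t`:
  `t = []`: trivial.  `t = some a :: t'`: `r = ψ a ++ r'`, by `sync` `u = ext ψ v₁`,
  `v = v₁ ++ a :: v₂`, `r = ext ψ (a :: v₂)`; induction hypothesis (for `t`).
  `t = none :: t'`: `r = u' ++ r'`, so `ext ψ v = (u ++ u') ++ r'` is in `tokLang (tokImg ψ t)`;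
  induction hypothesis: `v ∈ tokLang t`; so `v = [] ++ v ∈ tokLang (none :: t)`.
  (Helper: `tokLang ((ψ a).map some ++ t) = {w | ∃ r ∈ tokLang t, w = ψ a ++ r}`.)
* `img_B_one`: `L ∈ BoolCl (MonCl (B A' 0))`; induction.  base: `L` is a finite union of token
  languages, `img ψ L = range ∩ ⋃ tokLang (tokImg ψ t)`; complement:
  `img ψ Lᶜ = range ∩ (img ψ L)ᶜ` (injectivity); union, intersection (injectivity); `range_B`.
-/

namespace Pool.Agent.HLV

open Pool.Agent.DD

variable {A A' : Type}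

private theorem tok_mem_nil {w : List A} : w ∈ tokLang ([] : List (Option A)) ↔ w = [] := Iff.rfl

private theorem tok_mem_some {a : A} {t : List (Option A)} {w : List A} :
    w ∈ tokLang (some a :: t) ↔ ∃ v ∈ tokLang t, w = a :: v := Iff.rfl

private theorem tok_mem_none {t : List (Option A)} {w : List A} :
    w ∈ tokLang (none :: t) ↔ ∃ u v, v ∈ tokLang t ∧ w = u ++ v := Iff.rfl

theorem tok_append (s t : List (Option A)) : tokLang (s ++ t) = cat (tokLang s) (tokLang t) := by
  induction s with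
  | nil =>
    ext w
    rw [List.nil_append, mem_cat]
    constructor
    · intro h
      exact ⟨[], rfl, w, h, rfl⟩
    · rintro ⟨x, hx, y, hy, rfl⟩
      have hx' : x = [] := hx
      subst hx'
      exact hy
  | cons o s ih =>
    cases o with
    | none =>
      ext w
      rw [List.cons_append, tok_mem_none, ih]
      constructor
      · rintro ⟨u, v, ⟨x, hx, y, hy, rfl⟩, rfl⟩
        exact ⟨u ++ x, ⟨u, x, hx, rfl⟩, y, hy, by simp⟩
      · rintro ⟨x, ⟨u, v, hv, rfl⟩, y, hy, rfl⟩
        exact ⟨u, v ++ y, ⟨v, hv, y, hy, rfl⟩, by simp⟩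
    | some a =>
      ext w
      rw [List.cons_append, tok_mem_some, ih]
      constructor
      · rintro ⟨v, ⟨x, hx, y, hy, rfl⟩, rfl⟩
        exact ⟨a :: x, ⟨x, hx, rfl⟩, y, hy, by simp⟩
      · rintro ⟨x, ⟨v, hv, rfl⟩, y, hy, rfl⟩
        exact ⟨v ++ y, ⟨v, hv, y, hy, rfl⟩, by simp⟩

private theorem tok_monCl (t : List (Option A)) : tokLang t ∈ MonCl (B A 0) := by
  induction t with
  | nil => exact Or.inl rfl
  | cons o t ih =>
    obtain ⟨L₀, h₀, Ls, hLs, e⟩ := MonCl_B ih
    cases o with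
    | none =>
      refine Or.inr ⟨Set.univ, univ_mem_B 0, L₀ :: Ls, ?_, ?_⟩
      · intro K hK
        rcases List.mem_cons.1 hK with rfl | hK
        · exact h₀
        · exact hLs K hK
      · show tokLang (none :: t) = cat Set.univ (catList L₀ Ls)
        rw [← e]
        ext w
        rw [tok_mem_none, mem_cat]
        constructor
        · rintro ⟨u, v, hv, rfl⟩
          exact ⟨u, Set.mem_univ _, v, hv, rfl⟩
        · rintro ⟨u, -, v, hv, rfl⟩
          exact ⟨u, v, hv, rfl⟩
    | some a =>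
      refine Or.inr ⟨{[a]}, Or.inl (Set.finite_singleton _), L₀ :: Ls, ?_, ?_⟩
      · intro K hK
        rcases List.mem_cons.1 hK with rfl | hK
        · exact h₀
        · exact hLs K hK
      · show tokLang (some a :: t) = cat {[a]} (catList L₀ Ls)
        rw [← e]
        ext w
        rw [tok_mem_some, mem_cat]
        constructor
        · rintro ⟨v, hv, rfl⟩
          exact ⟨[a], rfl, v, hv, rfl⟩
        · rintro ⟨u, hu, v, hv, rfl⟩
          have hu' : u = [a] := hu
          subst hu'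
          exact ⟨v, hv, rfl⟩

theorem tok_B [Finite A] (t : List (Option A)) : tokLang t ∈ B A 1 :=
  MonCl_sub_B (tok_monCl t)

private theorem tok_mem_map_some (u w : List A) : w ∈ tokLang (u.map some) ↔ w = u := by
  induction u generalizing w with
  | nil => exact Iff.rfl
  | cons a u ih =>
    rw [List.map_cons, tok_mem_some]
    constructor
    · rintro ⟨v, hv, rfl⟩
      rw [(ih v).1 hv]
    · rintro rfl
      exact ⟨u, (ih u).2 rfl, rfl⟩

private theorem tok_mem_pre (u : List A) (t : List (Option A)) (w : List A) :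
    w ∈ tokLang (u.map some ++ t) ↔ ∃ r ∈ tokLang t, w = u ++ r := by
  rw [tok_append, mem_cat]
  constructor
  · rintro ⟨x, hx, y, hy, rfl⟩
    rw [(tok_mem_map_some u x).1 hx]
    exact ⟨y, hy, rfl⟩
  · rintro ⟨r, hr, rfl⟩
    exact ⟨u, (tok_mem_map_some u u).2 rfl, r, hr, rfl⟩

private theorem tok_finite {S : Lang A} (h : S.Finite) :
    ∃ ts : List (List (Option A)), S = {w | ∃ t ∈ ts, w ∈ tokLang t} := by
  refine ⟨h.toFinset.toList.map (fun w => w.map some), ?_⟩
  ext w
  constructor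
  · intro hw
    exact ⟨w.map some, List.mem_map.2 ⟨w, by simpa using hw, rfl⟩, (tok_mem_map_some w w).2 rfl⟩
  · rintro ⟨t, ht, hwt⟩
    obtain ⟨u, hu, rfl⟩ := List.mem_map.1 ht
    rw [(tok_mem_map_some u w).1 hwt]
    simpa using hu

private theorem tok_union {K L : Lang A}
    (hK : ∃ ts : List (List (Option A)), K = {w | ∃ t ∈ ts, w ∈ tokLang t})
    (hL : ∃ ts : List (List (Option A)), L = {w | ∃ t ∈ ts, w ∈ tokLang t}) :
    ∃ ts : List (List (Option A)), K ∪ L = {w | ∃ t ∈ ts, w ∈ tokLang t} := by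
  obtain ⟨ts, rfl⟩ := hK
  obtain ⟨us, rfl⟩ := hL
  refine ⟨ts ++ us, ?_⟩
  ext w
  constructor
  · rintro (⟨t, ht, hw⟩ | ⟨t, ht, hw⟩)
    · exact ⟨t, List.mem_append.2 (Or.inl ht), hw⟩
    · exact ⟨t, List.mem_append.2 (Or.inr ht), hw⟩
  · rintro ⟨t, ht, hw⟩
    rcases List.mem_append.1 ht with ht | ht
    · exact Or.inl ⟨t, ht, hw⟩
    · exact Or.inr ⟨t, ht, hw⟩

private theorem tok_cat {K L : Lang A}
    (hK : ∃ ts : List (List (Option A)), K = {w | ∃ t ∈ ts, w ∈ tokLang t})
    (hL : ∃ ts : List (List (Option A)), L = {w | ∃ t ∈ ts, w ∈ tokLang t}) :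
    ∃ ts : List (List (Option A)), cat K L = {w | ∃ t ∈ ts, w ∈ tokLang t} := by
  obtain ⟨ts, rfl⟩ := hK
  obtain ⟨us, rfl⟩ := hL
  refine ⟨ts.flatMap fun s => us.map fun t => s ++ t, ?_⟩
  ext w
  constructor
  · rintro ⟨x, ⟨s, hs, hx⟩, y, ⟨t, ht, hy⟩, rfl⟩
    refine ⟨s ++ t, List.mem_flatMap.2 ⟨s, hs, List.mem_map.2 ⟨t, ht, rfl⟩⟩, ?_⟩
    rw [tok_append]
    exact ⟨x, hx, y, hy, rfl⟩
  · rintro ⟨r, hr, hw⟩
    obtain ⟨s, hs, hr⟩ := List.mem_flatMap.1 hr
    obtain ⟨t, ht, rfl⟩ := List.mem_map.1 hr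
    rw [tok_append] at hw
    obtain ⟨x, hx, y, hy, rfl⟩ := hw
    exact ⟨x, ⟨s, hs, hx⟩, y, ⟨t, ht, hy⟩, rfl⟩

theorem tok_of_zero [Finite A] {L : Lang A} (h : L ∈ B A 0) :
    ∃ ts : List (List (Option A)), L = {w | ∃ t ∈ ts, w ∈ tokLang t} := by
  rcases h with h | h
  · exact tok_finite h
  · obtain ⟨n, hn⟩ : ∃ n : ℕ, ∀ w, w ∉ L → w.length < n := by
      obtain ⟨m, hm⟩ := (h.image List.length).bddAbove
      exact ⟨m + 1, fun w hw => Nat.lt_succ_of_le (hm ⟨w, hw, rfl⟩)⟩
    have h1 : ({w | w ∈ L ∧ w.length < n} : Lang A).Finite :=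
      (List.finite_length_lt A n).subset (fun w hw => hw.2)
    have h2 : ({w | w.length = n} : Lang A).Finite := List.finite_length_eq A n
    have e : L = {w | w ∈ L ∧ w.length < n} ∪ cat {w | w.length = n} Set.univ := by
      ext w
      constructor
      · intro hw
        by_cases hlt : w.length < n
        · exact Or.inl ⟨hw, hlt⟩
        · refine Or.inr ⟨w.take n, ?_, w.drop n, Set.mem_univ _, (List.take_append_drop n w).symm⟩
          show (w.take n).length = n
          rw [List.length_take]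
          omega
      · rintro (hw | ⟨x, hx, y, -, rfl⟩)
        · exact hw.1
        · by_contra hc
          have := hn _ hc
          have hx' : x.length = n := hx
          rw [List.length_append] at this
          omega
    rw [e]
    refine tok_union (tok_finite h1) (tok_cat (tok_finite h2) ⟨[[none]], ?_⟩)
    ext w
    constructor
    · intro _
      exact ⟨[none], List.mem_singleton.2 rfl, w, [], rfl, (List.append_nil w).symm⟩
    · intro _
      exact Set.mem_univ _

theorem tok_of_monCl [Finite A] {L : Lang A} (h : L ∈ MonCl (B A 0)) :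
    ∃ ts : List (List (Option A)), L = {w | ∃ t ∈ ts, w ∈ tokLang t} := by
  obtain ⟨L₀, h₀, Ls, hLs, rfl⟩ := MonCl_B h
  clear h
  induction Ls generalizing L₀ with
  | nil => exact tok_of_zero h₀
  | cons K Ks ih =>
    exact tok_cat (tok_of_zero h₀) (ih K (hLs K (List.mem_cons_self ..))
      (fun M hM => hLs M (List.mem_cons_of_mem _ hM)))

private theorem ext_eq_nil {ψ : A' → List A} {l : ℕ} (h : GoodCode ψ l) {v : List A'}
    (e : ext ψ v = []) : v = [] := by
  have h1 := ext_length h v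
  rw [e] at h1
  have h2 := h.pos
  rcases Nat.eq_zero_or_pos v.length with h0 | h0
  · exact List.length_eq_zero_iff.1 h0
  · have h3 : 0 < v.length * l := Nat.mul_pos h0 h2
    have h4 : ([] : List A).length = 0 := rfl
    omega

private theorem tokImg_cons_none (ψ : A' → List A) (t : List (Option A')) :
    tokImg ψ (none :: t) = none :: tokImg ψ t := rfl

private theorem tokImg_cons_some (ψ : A' → List A) (a : A') (t : List (Option A')) :
    tokImg ψ (some a :: t) = (ψ a).map some ++ tokImg ψ t := rfl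

private theorem ext_mem_of {ψ : A' → List A} (t : List (Option A')) :
    ∀ v : List A', v ∈ tokLang t → ext ψ v ∈ tokLang (tokImg ψ t) := by
  induction t with
  | nil =>
    intro v hv
    have hv' : v = [] := hv
    subst hv'
    exact rfl
  | cons o t ih =>
    cases o with
    | none =>
      rintro v ⟨u, r, hr, rfl⟩
      rw [ext_append]
      exact ⟨ext ψ u, ext ψ r, ih r hr, rfl⟩
    | some a =>
      rintro v ⟨r, hr, rfl⟩
      rw [ext_cons, tokImg_cons_some, tok_mem_pre]
      exact ⟨ext ψ r, ih r hr, rfl⟩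

private theorem mem_of_ext {ψ : A' → List A} {l : ℕ} (h : GoodCode ψ l) (t : List (Option A')) :
    ∀ v : List A', ext ψ v ∈ tokLang (tokImg ψ t) → v ∈ tokLang t := by
  induction t with
  | nil =>
    intro v hv
    exact ext_eq_nil h hv
  | cons o t ih =>
    cases o with
    | some a =>
      intro v hv
      rw [tokImg_cons_some, tok_mem_pre] at hv
      obtain ⟨r, hr, e⟩ := hv
      obtain ⟨v₁, v₂, e1, e2, e3⟩ := sync h (p := []) (q := r) (a := a) (by simpa using e)
      have hv1 : v₁ = [] := ext_eq_nil h e2.symm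
      subst hv1
      subst e3
      exact ⟨v₂, ih v₂ hr, e1⟩
    | none =>
      intro v hv
      obtain ⟨u, r, hr, e⟩ := hv
      cases t with
      | nil => exact ⟨v, [], rfl, (List.append_nil v).symm⟩
      | cons o' t' =>
        cases o' with
        | some a =>
          have hr0 := hr
          rw [tokImg_cons_some, tok_mem_pre] at hr
          obtain ⟨r', hr', rfl⟩ := hr
          obtain ⟨v₁, v₂, e1, e2, e3⟩ := sync h (p := u) (q := r') (a := a)
            (by simpa [List.append_assoc] using e)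
          refine ⟨v₁, a :: v₂, ih (a :: v₂) ?_, e1⟩
          rw [ext_cons, ← e3]
          exact hr0
        | none =>
          obtain ⟨u', r', hr', rfl⟩ := hr
          refine ⟨[], v, ih v ⟨u ++ u', r', hr', ?_⟩, rfl⟩
          rw [e, List.append_assoc]

theorem mem_tok_ext {ψ : A' → List A} {l : ℕ} (h : GoodCode ψ l) (t : List (Option A'))
    (v : List A') : ext ψ v ∈ tokLang (tokImg ψ t) ↔ v ∈ tokLang t :=
  ⟨mem_of_ext h t v, ext_mem_of t v⟩

private theorem mem_img_ext {ψ : A' → List A} {l : ℕ} (h : GoodCode ψ l) (L : Lang A')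
    (v : List A') : ext ψ v ∈ img ψ L ↔ v ∈ L := by
  constructor
  · rintro ⟨x, hx, e⟩
    rw [ext_inj h e]
    exact hx
  · intro hv
    exact ⟨v, hv, rfl⟩

/-- Main result of this module. -/
theorem img_B_one [Finite A] [Finite A'] {ψ : A' → List A} {l : ℕ} (h : GoodCode ψ l)
    {L : Lang A'} (hL : L ∈ B A' 1) : img ψ L ∈ B A 1 := by
  have hR : Set.range (ext ψ) ∈ B A 1 := range_B h
  have hL' : BoolCl (MonCl (B A' 0)) L := hL
  clear hL
  induction hL' with
  | @base L hL =>
    obtain ⟨ts, rfl⟩ := tok_of_monCl hL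
    have hU : {w | ∃ t ∈ ts, w ∈ tokLang (tokImg ψ t)} ∈ B A 1 :=
      B_list_union ts (fun t => tokLang (tokImg ψ t)) (fun t _ => tok_B _)
    have e : img ψ {w | ∃ t ∈ ts, w ∈ tokLang t} =
        Set.range (ext ψ) ∩ {w | ∃ t ∈ ts, w ∈ tokLang (tokImg ψ t)} := by
      ext w
      constructor
      · rintro ⟨x, ⟨t, ht, hx⟩, rfl⟩
        exact ⟨⟨x, rfl⟩, t, ht, (mem_tok_ext h t x).2 hx⟩
      · rintro ⟨⟨x, rfl⟩, t, ht, hx⟩
        exact ⟨x, ⟨t, ht, (mem_tok_ext h t x).1 hx⟩, rfl⟩
    rw [e]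
    exact B_inter hR hU
  | @compl L _ ih =>
    have e : img ψ Lᶜ = Set.range (ext ψ) ∩ (img ψ L)ᶜ := by
      ext w
      constructor
      · rintro ⟨x, hx, rfl⟩
        exact ⟨⟨x, rfl⟩, fun hc => hx ((mem_img_ext h L x).1 hc)⟩
      · rintro ⟨⟨x, rfl⟩, hx⟩
        exact ⟨x, fun hc => hx ((mem_img_ext h L x).2 hc), rfl⟩
    rw [e]
    exact B_inter hR (B_compl ih)
  | @union K L _ _ ihK ihL =>
    have e : img ψ (K ∪ L) = img ψ K ∪ img ψ L := by
      ext w
      constructor
      · rintro ⟨x, hx | hx, rfl⟩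
        · exact Or.inl ⟨x, hx, rfl⟩
        · exact Or.inr ⟨x, hx, rfl⟩
      · rintro (⟨x, hx, rfl⟩ | ⟨x, hx, rfl⟩)
        · exact ⟨x, Or.inl hx, rfl⟩
        · exact ⟨x, Or.inr hx, rfl⟩
    rw [e]
    exact B_union ihK ihL
  | @inter K L _ _ ihK ihL =>
    have e : img ψ (K ∩ L) = img ψ K ∩ img ψ L := by
      ext w
      constructor
      · rintro ⟨x, ⟨h1, h2⟩, rfl⟩
        exact ⟨⟨x, h1, rfl⟩, ⟨x, h2, rfl⟩⟩
      · rintro ⟨⟨x, hx, rfl⟩, hL⟩
        exact ⟨x, ⟨hx, (mem_img_ext h L x).1 hL⟩, rfl⟩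
    rw [e]
    exact B_inter ihK ihL

end Pool.Agent.HLV
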